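import Pool.Agent.TH279.RI.Meas4
import Pool.Agent.TH304.RI.J595
import Pool.Agent.TH304.RI.J596
import Pool.Agent.TH817.J599

set_option autoImplicit false
set_option linter.unusedSectionVars false
set_option linter.unusedVariables false

namespace Pool.Agent.TH279.RI

open MeasureTheory Metric Filter Topology
open scoped ENNReal NNReal
open Pool.Agent.H433R3.Sep (Idx gq gq_meas gq_vol_pos gq_lam gq_nonempty gq_inj wm SLam cor)

variable {d : ℕ}

/-- each cube of the family is at least twice as large as the union of the smaller ones inside -/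
def Halv (t : Fin d → Bool) (SS : Finset (Idx d)) : Prop :=
  ∀ I ∈ SS, 2 * volume (⋃ J ∈ {J ∈ (SS : Set (Idx d)) | gq t J ⊂ gq t I}, gq t J) ≤
    volume (gq t I)

open Classical in
/-- testing condition on all halving families of grid cubes -/
def DTest (d : ℕ) (q : ℝ) (μ ν : Measure (Fin d → ℝ)) (T : ℝ≥0) : Prop :=
  ∀ (t : Fin d → Bool) (SS : Finset (Idx d)), Halv t SS → ∀ R ∈ SS.image (gq t),
    ∫⁻ x in R, (∑ Q ∈ SS.image (gq t) with Q ⊆ R, Q.indicator (fun _ => ν Q / volume Q) x) ^ q ∂μ ≤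
      (T : ℝ≥0∞) ^ q * ν R

lemma bump_gq (X : RINorm d) {p q : ℝ} (hp : 0 < p) (hq : 0 < q) {κ : ℝ≥0} {u σ : (Fin d → ℝ) → ℝ≥0}
    (hu : Measurable u)
    (hb : ∀ a l, 0 < l → X.ρ (tau l (cube a l) (fun x => (u x : ℝ≥0∞) ^ (1 / p))) *
      ((∫⁻ x in cube a l, (σ x : ℝ≥0∞)) / volume (cube a l)) ^ (1 / q) ≤ κ)
    (t : Fin d → Bool) (I : Idx d) :
    X.ρ (tau (2 ^ I.1) (gq t I) (fun x => (u x : ℝ≥0∞) ^ (1 / p))) *
        (wm volume σ (gq t I) / volume (gq t I)) ^ (1 / q) ≤ κ := by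
  have h2 : (0:ℝ) < 2 ^ I.1 := by positivity
  have h := hb (cor t I) (2 ^ I.1) h2
  have hum : Measurable (fun x => (u x : ℝ≥0∞) ^ (1 / p)) := hu.coe_nnreal_ennreal.pow_const _
  have hcm : MeasurableSet (cube (cor t I) (2 ^ I.1)) := by
    have h1 : cube (cor t I) (2 ^ I.1) = Set.univ.pi
        (fun i => Set.Ioo (cor t I i) (cor t I i + 2 ^ I.1)) := by
      ext x
      simp only [cube, Set.mem_ofPred_eq, Set.mem_univ_pi, Set.mem_Ioo]
    rw [h1]
    exact MeasurableSet.univ_pi (fun i => measurableSet_Ioo)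
  have e1 : X.ρ (tau (2 ^ I.1) (gq t I) (fun x => (u x : ℝ≥0∞) ^ (1 / p))) =
      X.ρ (tau (2 ^ I.1) (cube (cor t I) (2 ^ I.1)) (fun x => (u x : ℝ≥0∞) ^ (1 / p))) :=
    rho_congr X (tau_meas (gq_meas t I) hum) (tau_meas hcm hum) (tau_gq_ae t I _)
  have e2 : wm volume σ (gq t I) = ∫⁻ x in cube (cor t I) (2 ^ I.1), (σ x : ℝ≥0∞) := by
    unfold wm
    rw [withDensity_apply _ (gq_meas t I)]
    exact setLIntegral_congr (gq_ae_cube t I)
  have e3 : volume (gq t I) = volume (cube (cor t I) (2 ^ I.1)) := measure_congr (gq_ae_cube t I)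
  rw [e1, e2, e3]
  exact h

lemma dtest (hd : 0 < d) {p q : ℝ} (hpq : p.HolderConjugate q) : ∃ C : ℝ≥0,
    ∀ (X : RINorm d) (B : ℝ≥0), X.MBound q B → ∀ (κ : ℝ≥0) (u σ : (Fin d → ℝ) → ℝ≥0),
      Measurable u → Measurable σ →
      (∀ (t : Fin d → Bool) (I : Idx d), wm volume σ (gq t I) < ∞) →
      (∀ a l, 0 < l → X.ρ (tau l (cube a l) (fun x => (u x : ℝ≥0∞) ^ (1 / p))) *
        ((∫⁻ x in cube a l, (σ x : ℝ≥0∞)) / volume (cube a l)) ^ (1 / q) ≤ κ) →
      DTest d q (wm volume σ) (wm volume u) (C * (B * κ)) := by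
  classical
  obtain ⟨C₀, hC₀⟩ := mainTest hd hpq
  have hq := hpq.symm.pos
  have hp := hpq.pos
  refine ⟨C₀ ^ (1 / q), ?_⟩
  intro X B hM κ u σ hu hσ hfin hb t SS hhalf R hR
  obtain ⟨J, hJ, rfl⟩ := Finset.mem_image.1 hR
  set S' : Finset (Idx d) := SS.filter (fun I => gq t I ⊆ gq t J) with hS'
  have hS'S : S' ⊆ SS := Finset.filter_subset _ _
  have e1 : (SS.image (gq t)).filter (fun Q => Q ⊆ gq t J) = S'.image (gq t) := by
    rw [Finset.filter_image]
  have hwm : ∀ I, wm volume u (gq t I) = ∫⁻ y in gq t I, (u y : ℝ≥0∞) := by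
    intro I
    unfold wm
    rw [withDensity_apply _ (gq_meas t I)]
  have e2 : ∀ x, ∑ Q ∈ SS.image (gq t) with Q ⊆ gq t J,
      Q.indicator (fun _ => wm volume u Q / volume Q) x =
      ∑ I ∈ S', (gq t I).indicator
        (fun _ => (∫⁻ y in gq t I, (u y : ℝ≥0∞)) / volume (gq t I)) x := by
    intro x
    rw [e1, Finset.sum_image (fun I _ I' _ h => gq_inj hd t h)]
    apply Finset.sum_congr rfl
    intro I _
    rw [hwm]
  have main := hC₀ X B hM κ t S' (wm volume σ) u hu (halving_mono hS'S hhalf)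
    (fun I _ => hfin t I) (fun I _ => bump_gq X hp hq hu hb t I)
  have e3 : ((C₀ ^ (1 / q) * (B * κ) : ℝ≥0) : ℝ≥0∞) ^ q = C₀ * ((B : ℝ≥0∞) * κ) ^ q := by
    rw [← ENNReal.coe_rpow_of_nonneg _ hq.le, NNReal.mul_rpow, ← NNReal.rpow_mul,
      one_div_mul_cancel hq.ne', NNReal.rpow_one, ENNReal.coe_mul,
      ENNReal.coe_rpow_of_nonneg _ hq.le, ENNReal.coe_mul]
  have hconv : ∀ x, (∑ Q ∈ (SS.image (gq t)) with Q ⊆ gq t J,
      Q.indicator (fun _ => wm volume u Q / volume Q) x) ^ q =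
      (∑ I ∈ S', (gq t I).indicator
        (fun _ => (∫⁻ y in gq t I, (u y : ℝ≥0∞)) / volume (gq t I)) x) ^ q := by
    intro x
    rw [e2 x]
  calc ∫⁻ x in gq t J, (∑ Q ∈ (SS.image (gq t)) with Q ⊆ gq t J,
      Q.indicator (fun _ => wm volume u Q / volume Q) x) ^ q ∂(wm volume σ)
      = ∫⁻ x in gq t J, (∑ I ∈ S', (gq t I).indicator
        (fun _ => (∫⁻ y in gq t I, (u y : ℝ≥0∞)) / volume (gq t I)) x) ^ q ∂(wm volume σ) :=
        lintegral_congr (fun x => hconv x)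
    _ ≤ ∫⁻ x, (∑ I ∈ S', (gq t I).indicator
        (fun _ => (∫⁻ y in gq t I, (u y : ℝ≥0∞)) / volume (gq t I)) x) ^ q ∂(wm volume σ) :=
        setLIntegral_le_lintegral _ _
    _ ≤ C₀ * ((B : ℝ≥0∞) * κ) ^ q * ∫⁻ x in ⋃ I ∈ S', gq t I, (u x : ℝ≥0∞) := main
    _ ≤ C₀ * ((B : ℝ≥0∞) * κ) ^ q * ∫⁻ x in gq t J, (u x : ℝ≥0∞) := by
        apply mul_le_mul' le_rfl
        apply lintegral_mono_set
        apply Set.iUnion₂_subset
        intro I hI
        exact (Finset.mem_filter.1 hI).2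
    _ = _ := by rw [e3, hwm]

/-- image of a finite set of indices is laminar -/
lemma slam_image (t : Fin d → Bool) (SS : Finset (Idx d)) [DecidableEq (Set (Fin d → ℝ))] :
    SLam (SS.image (gq t)) := by
  refine ⟨?_, ?_, ?_⟩
  · intro A hA
    obtain ⟨I, _, rfl⟩ := Finset.mem_image.1 hA
    exact gq_meas _ _
  · intro A hA
    obtain ⟨I, _, rfl⟩ := Finset.mem_image.1 hA
    exact gq_nonempty _ _
  · intro A hA B hB
    obtain ⟨I, _, rfl⟩ := Finset.mem_image.1 hA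
    obtain ⟨I', _, rfl⟩ := Finset.mem_image.1 hB
    exact gq_lam _ _ _

lemma weakGrid (hd : 0 < d) {p q : ℝ} (hpq : p.HolderConjugate q) : ∃ C : ℝ≥0,
    ∀ (μ ν : Measure (Fin d → ℝ)), (∀ (t : Fin d → Bool) (I : Idx d), μ (gq t I) < ∞) →
    (∀ (t : Fin d → Bool) (I : Idx d), ν (gq t I) < ∞) → ∀ T : ℝ≥0, DTest d q μ ν T →
    ∀ (t : Fin d → Bool) (SS : Finset (Idx d)), Halv t SS →
    ∀ f : (Fin d → ℝ) → ℝ≥0∞, Measurable f → ∀ lam : ℝ≥0∞,
    lam ^ p * ν {x | lam < ∑ I ∈ SS, (gq t I).indicator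
      (fun _ => (∫⁻ y in gq t I, f y ∂μ) / volume (gq t I)) x} ≤
      C * (T : ℝ≥0∞) ^ p * ∫⁻ y, f y ^ p ∂μ := by
  classical
  obtain ⟨C, hC⟩ := Pool.Agent.TH304.RI.J596.weakTest hpq
  refine ⟨C, ?_⟩
  intro μ ν hμ hν T hT t SS hhalf f hf lam
  have h := hC volume μ ν (SS.image (gq t)) (slam_image t SS)
    (by
      intro A hA
      obtain ⟨I, _, rfl⟩ := Finset.mem_image.1 hA
      exact gq_vol_pos _ _)
    (by
      intro A hA
      obtain ⟨I, _, rfl⟩ := Finset.mem_image.1 hA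
      exact hμ _ _)
    (by
      intro A hA
      obtain ⟨I, _, rfl⟩ := Finset.mem_image.1 hA
      exact hν _ _) T (by
      intro R hR
      have := hT t SS hhalf R (by convert hR)
      convert this using 4) f hf lam
  have e : ∀ x, ∑ Q ∈ SS.image (gq t), Q.indicator (fun _ => (∫⁻ y in Q, f y ∂μ) / volume Q) x =
      ∑ I ∈ SS, (gq t I).indicator
      (fun _ => (∫⁻ y in gq t I, f y ∂μ) / volume (gq t I)) x := by
    intro x
    rw [Finset.sum_image (fun I _ I' _ h => gq_inj hd t h)]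
  simp only [e] at h
  exact h

lemma strongGrid (hd : 0 < d) {p q : ℝ} (hpq : p.HolderConjugate q) : ∃ C : ℝ≥0,
    ∀ (μ ν : Measure (Fin d → ℝ)), (∀ (t : Fin d → Bool) (I : Idx d), μ (gq t I) < ∞) →
    (∀ (t : Fin d → Bool) (I : Idx d), ν (gq t I) < ∞) → ∀ T : ℝ≥0, DTest d q μ ν T →
    DTest d p ν μ T →
    ∀ (t : Fin d → Bool) (SS : Finset (Idx d)), Halv t SS →
    ∀ f : (Fin d → ℝ) → ℝ≥0∞, Measurable f →
    ∫⁻ x, (∑ I ∈ SS, (gq t I).indicator
      (fun _ => (∫⁻ y in gq t I, f y ∂μ) / volume (gq t I)) x) ^ p ∂ν ≤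
      C * (T : ℝ≥0∞) ^ p * ∫⁻ y, f y ^ p ∂μ := by
  classical
  obtain ⟨C, hC⟩ := Pool.Agent.TH304.RI.J595.strongTest hpq
  refine ⟨C, ?_⟩
  intro μ ν hμ hν T hT hT' t SS hhalf f hf
  have h := hC volume μ ν (SS.image (gq t)) (slam_image t SS)
    (by
      intro A hA
      obtain ⟨I, _, rfl⟩ := Finset.mem_image.1 hA
      exact gq_vol_pos _ _)
    (by
      intro A hA
      obtain ⟨I, _, rfl⟩ := Finset.mem_image.1 hA
      exact hμ _ _)
    (by
      intro A hA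
      obtain ⟨I, _, rfl⟩ := Finset.mem_image.1 hA
      exact hν _ _) T (by
      intro R hR
      have := hT' t SS hhalf R (by convert hR)
      convert this using 4) (by
      intro R hR
      have := hT t SS hhalf R (by convert hR)
      convert this using 4) f hf
  have e : ∀ x, ∑ Q ∈ SS.image (gq t), Q.indicator (fun _ => (∫⁻ y in Q, f y ∂μ) / volume Q) x =
      ∑ I ∈ SS, (gq t I).indicator
      (fun _ => (∫⁻ y in gq t I, f y ∂μ) / volume (gq t I)) x := by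
    intro x
    rw [Finset.sum_image (fun I _ I' _ h => gq_inj hd t h)]
  simp only [e] at h
  exact h

end Pool.Agent.TH279.RI
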