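import Pool.Agent.TH279.RI.Asm1

set_option autoImplicit false
set_option linter.unusedSectionVars false
set_option linter.unusedVariables false

namespace Pool.Agent.TH279.RI

open MeasureTheory Metric Filter Topology
open scoped ENNReal NNReal
open Pool.Agent.H433R3.Sep (Idx gq gq_meas gq_vol_pos gq_lam gq_nonempty gq_inj wm SLam cor dil)

variable {d : ℕ}

lemma sum_rpow_le {N : ℕ} (F : Fin N → ℝ≥0∞) {p : ℝ} (hp : 0 < p) :
    (∑ j, F j) ^ p ≤ (N : ℝ≥0∞) ^ p * ∑ j, F j ^ p := by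
  classical
  rcases Nat.eq_zero_or_pos N with h0 | h0
  · subst h0
    simp [ENNReal.zero_rpow_of_pos hp]
  · have : Nonempty (Fin N) := ⟨⟨0, h0⟩⟩
    obtain ⟨j, _, hj⟩ := Finset.exists_max_image Finset.univ F Finset.univ_nonempty
    have h1 : ∑ i, F i ≤ N * F j := by
      calc ∑ i, F i ≤ ∑ i : Fin N, F j := Finset.sum_le_sum (fun i hi => hj i hi)
        _ = N * F j := by rw [Finset.sum_const, nsmul_eq_mul, Finset.card_univ, Fintype.card_fin]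
    calc (∑ i, F i) ^ p ≤ (N * F j) ^ p := ENNReal.rpow_le_rpow h1 hp.le
      _ = (N : ℝ≥0∞) ^ p * F j ^ p := ENNReal.mul_rpow_of_nonneg _ _ hp.le
      _ ≤ _ := mul_le_mul' le_rfl (Finset.single_le_sum (f := fun i => F i ^ p)
          (fun _ _ => bot_le) (Finset.mem_univ j))

lemma lt_sum_exists {N : ℕ} (F : Fin N → ℝ≥0∞) {lam : ℝ≥0∞} (h : lam < ∑ j, F j) :
    ∃ j, lam < N * F j := by
  by_contra hc
  push Not at hc
  have hN : N ≠ 0 := by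
    rintro rfl
    simp at h
  have hN' : (N : ℝ≥0∞) ≠ 0 := by exact_mod_cast hN
  have h1 : (N : ℝ≥0∞) * ∑ j, F j ≤ N * lam := by
    rw [Finset.mul_sum]
    calc ∑ j, (N : ℝ≥0∞) * F j ≤ ∑ j : Fin N, lam := Finset.sum_le_sum (fun j _ => hc j)
      _ = N * lam := by rw [Finset.sum_const, nsmul_eq_mul, Finset.card_univ, Fintype.card_fin]
  have h2 := (ENNReal.mul_le_mul_iff_right hN' (by simp)).1 h1
  exact absurd (lt_of_lt_of_le h h2) (lt_irrefl _)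

lemma wm_avg {σ : (Fin d → ℝ) → ℝ≥0} (hσ : Measurable σ) {g : (Fin d → ℝ) → ℝ≥0∞}
    (hg : Measurable g) (t : Fin d → Bool) (I : Idx d) :
    ∫⁻ y in gq t I, g y ∂(wm volume σ) = ∫⁻ y in gq t I, (σ y : ℝ≥0∞) * g y := by
  unfold wm
  rw [setLIntegral_withDensity_eq_setLIntegral_mul volume hσ.coe_nnreal_ennreal hg
      (gq_meas t I)]
  rfl

lemma scale_weak {α : Type*} [MeasurableSpace α] (ν : Measure α) {p : ℝ} (hp : 0 < p) (M : ℝ≥0)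
    (F : α → ℝ≥0∞) (D : ℝ≥0∞) (h : ∀ lam : ℝ≥0∞, lam ^ p * ν {x | lam < F x} ≤ D)
    (lam : ℝ≥0∞) : lam ^ p * ν {x | lam < M * F x} ≤ (M : ℝ≥0∞) ^ p * D := by
  rcases eq_or_ne M 0 with h0 | h0
  · have : {x | lam < M * F x} = ∅ := by
      ext x
      simp [h0]
    rw [this, measure_empty, mul_zero]
    exact bot_le
  · have h0' : (M : ℝ≥0∞) ≠ 0 := by exact_mod_cast h0
    have e : {x | lam < M * F x} = {x | lam / M < F x} := by
      ext x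
      simp only [Set.mem_ofPred_eq]
      rw [ENNReal.div_lt_iff (Or.inl h0') (Or.inl ENNReal.coe_ne_top), mul_comm]
    rw [e]
    have e2 : lam ^ p = (M : ℝ≥0∞) ^ p * (lam / M) ^ p := by
      rw [← ENNReal.mul_rpow_of_nonneg _ _ hp.le, ENNReal.mul_div_cancel h0' ENNReal.coe_ne_top]
    rw [e2, mul_assoc]
    exact mul_le_mul' le_rfl (h _)

lemma weakFin (hd : 0 < d) {p q : ℝ} (hpq : p.HolderConjugate q) (a : ℝ) (ha : 1 ≤ a) :
    ∃ C : ℝ≥0, ∀ (u σ : (Fin d → ℝ) → ℝ≥0), Measurable u → Measurable σ →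
    (∀ (t : Fin d → Bool) (I : Idx d), wm volume σ (gq t I) < ∞) →
    (∀ (t : Fin d → Bool) (I : Idx d), wm volume u (gq t I) < ∞) →
    ∀ T : ℝ≥0, DTest d q (wm volume σ) (wm volume u) T →
    ∀ (t₀ : Fin d → Bool) (F : Finset (Idx d)) (E : Idx d → Set (Fin d → ℝ)),
      (∀ I ∈ F, MeasurableSet (E I)) → (∀ I ∈ F, E I ⊆ gq t₀ I) →
      (∀ I ∈ F, volume (gq t₀ I) ≤ 2 * volume (E I)) →
      (∀ I ∈ F, ∀ J ∈ F, I ≠ J → Disjoint (E I) (E J)) →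
    ∀ g : (Fin d → ℝ) → ℝ≥0∞, Measurable g → ∀ lam : ℝ≥0∞,
      lam ^ p * wm volume u {x | lam < ∑ I ∈ F, (gq t₀ I).indicator
        (fun _ => (∫⁻ z in dil a t₀ I, (σ z : ℝ≥0∞) * g z) / volume (dil a t₀ I)) x} ≤
      C * (T : ℝ≥0∞) ^ p * ∫⁻ y, g y ^ p ∂(wm volume σ) := by
  classical
  obtain ⟨N, C₁, hsplit⟩ := Pool.Agent.TH817.J599.sparseSplit hd a ha
  obtain ⟨C₂, hC₂⟩ := weakGrid hd hpq
  have hp := hpq.pos
  refine ⟨N * ((N * C₁) ^ p * C₂), ?_⟩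
  intro u σ hu hσ hσf huf T hT t₀ F E hE1 hE2 hE3 hE4 g hg lam
  obtain ⟨tt, SS, hhalf, hbd⟩ := hsplit t₀ F E hE1 hE2 hE3 hE4
  have hgm : Measurable (fun z => (σ z : ℝ≥0∞) * g z) := hσ.coe_nnreal_ennreal.mul hg
  set Φ : Fin N → (Fin d → ℝ) → ℝ≥0∞ := fun j x => ∑ I ∈ SS j, (gq (tt j) I).indicator
    (fun _ => (∫⁻ z in gq (tt j) I, g z ∂(wm volume σ)) / volume (gq (tt j) I)) x with hΦ
  have h1 : ∀ x, ∑ I ∈ F, (gq t₀ I).indicator
        (fun _ => (∫⁻ z in dil a t₀ I, (σ z : ℝ≥0∞) * g z) / volume (dil a t₀ I)) x ≤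
      ∑ j, C₁ * Φ j x := by
    intro x
    refine (hbd _ hgm x).trans (le_of_eq ?_)
    rw [Finset.mul_sum]
    apply Finset.sum_congr rfl
    intro j _
    congr 1
    apply Finset.sum_congr rfl
    intro I _
    rw [wm_avg hσ hg]
  have h2 : {x | lam < ∑ I ∈ F, (gq t₀ I).indicator
        (fun _ => (∫⁻ z in dil a t₀ I, (σ z : ℝ≥0∞) * g z) / volume (dil a t₀ I)) x} ⊆
      ⋃ j : Fin N, {x | lam < ((N * C₁ : ℝ≥0) : ℝ≥0∞) * Φ j x} := by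
    intro x hx
    obtain ⟨j, hj⟩ := lt_sum_exists (fun j => (C₁ : ℝ≥0∞) * Φ j x) (lt_of_lt_of_le hx (h1 x))
    refine Set.mem_iUnion.2 ⟨j, ?_⟩
    show lam < ((N * C₁ : ℝ≥0) : ℝ≥0∞) * Φ j x
    rw [ENNReal.coe_mul, ENNReal.coe_natCast, mul_assoc]
    exact hj
  have h3 : ∀ j, lam ^ p * wm volume u {x | lam < ((N * C₁ : ℝ≥0) : ℝ≥0∞) * Φ j x} ≤
      ((N * C₁ : ℝ≥0) : ℝ≥0∞) ^ p * (C₂ * (T : ℝ≥0∞) ^ p * ∫⁻ y, g y ^ p ∂(wm volume σ)) :=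
    fun j => scale_weak _ hp _ _ _ (fun lam' => hC₂ _ _ hσf huf T hT (tt j) (SS j) (hhalf j) g hg
      lam') lam
  calc lam ^ p * wm volume u {x | lam < ∑ I ∈ F, (gq t₀ I).indicator
        (fun _ => (∫⁻ z in dil a t₀ I, (σ z : ℝ≥0∞) * g z) / volume (dil a t₀ I)) x}
      ≤ lam ^ p * ∑ j : Fin N, wm volume u {x | lam < ((N * C₁ : ℝ≥0) : ℝ≥0∞) * Φ j x} := by
        apply mul_le_mul' le_rfl
        exact (measure_mono h2).trans (measure_iUnion_fintype_le _ _)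
    _ = ∑ j : Fin N, lam ^ p * wm volume u {x | lam < ((N * C₁ : ℝ≥0) : ℝ≥0∞) * Φ j x} := by
        rw [Finset.mul_sum]
    _ ≤ ∑ j : Fin N, ((N * C₁ : ℝ≥0) : ℝ≥0∞) ^ p *
          (C₂ * (T : ℝ≥0∞) ^ p * ∫⁻ y, g y ^ p ∂(wm volume σ)) :=
        Finset.sum_le_sum (fun j _ => h3 j)
    _ = _ := by
        rw [Finset.sum_const, nsmul_eq_mul, Finset.card_univ, Fintype.card_fin]
        have e : ((N * ((N * C₁) ^ p * C₂) : ℝ≥0) : ℝ≥0∞) =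
            N * (((N * C₁ : ℝ≥0) : ℝ≥0∞) ^ p * C₂) := by
          rw [ENNReal.coe_mul, ENNReal.coe_mul, ENNReal.coe_natCast,
            ENNReal.coe_rpow_of_nonneg _ hp.le]
        rw [e]
        ring

lemma strongFin (hd : 0 < d) {p q : ℝ} (hpq : p.HolderConjugate q) (a : ℝ) (ha : 1 ≤ a) :
    ∃ C : ℝ≥0, ∀ (u σ : (Fin d → ℝ) → ℝ≥0), Measurable u → Measurable σ →
    (∀ (t : Fin d → Bool) (I : Idx d), wm volume σ (gq t I) < ∞) →
    (∀ (t : Fin d → Bool) (I : Idx d), wm volume u (gq t I) < ∞) →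
    ∀ T : ℝ≥0, DTest d q (wm volume σ) (wm volume u) T → DTest d p (wm volume u) (wm volume σ) T →
    ∀ (t₀ : Fin d → Bool) (F : Finset (Idx d)) (E : Idx d → Set (Fin d → ℝ)),
      (∀ I ∈ F, MeasurableSet (E I)) → (∀ I ∈ F, E I ⊆ gq t₀ I) →
      (∀ I ∈ F, volume (gq t₀ I) ≤ 2 * volume (E I)) →
      (∀ I ∈ F, ∀ J ∈ F, I ≠ J → Disjoint (E I) (E J)) →
    ∀ g : (Fin d → ℝ) → ℝ≥0∞, Measurable g →
      ∫⁻ x, (∑ I ∈ F, (gq t₀ I).indicator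
        (fun _ => (∫⁻ z in dil a t₀ I, (σ z : ℝ≥0∞) * g z) / volume (dil a t₀ I)) x) ^ p
        ∂(wm volume u) ≤
      C * (T : ℝ≥0∞) ^ p * ∫⁻ y, g y ^ p ∂(wm volume σ) := by
  classical
  obtain ⟨N, C₁, hsplit⟩ := Pool.Agent.TH817.J599.sparseSplit hd a ha
  obtain ⟨C₂, hC₂⟩ := strongGrid hd hpq
  have hp := hpq.pos
  refine ⟨N * ((N * C₁) ^ p * C₂), ?_⟩
  intro u σ hu hσ hσf huf T hT hT' t₀ F E hE1 hE2 hE3 hE4 g hg
  obtain ⟨tt, SS, hhalf, hbd⟩ := hsplit t₀ F E hE1 hE2 hE3 hE4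
  have hgm : Measurable (fun z => (σ z : ℝ≥0∞) * g z) := hσ.coe_nnreal_ennreal.mul hg
  set Φ : Fin N → (Fin d → ℝ) → ℝ≥0∞ := fun j x => ∑ I ∈ SS j, (gq (tt j) I).indicator
    (fun _ => (∫⁻ z in gq (tt j) I, g z ∂(wm volume σ)) / volume (gq (tt j) I)) x with hΦ
  have hΦm : ∀ j, Measurable (Φ j) := fun j =>
    Finset.measurable_fun_sum _ (fun I _ => measurable_const.indicator (gq_meas _ I))
  have h1 : ∀ x, ∑ I ∈ F, (gq t₀ I).indicator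
        (fun _ => (∫⁻ z in dil a t₀ I, (σ z : ℝ≥0∞) * g z) / volume (dil a t₀ I)) x ≤
      C₁ * ∑ j, Φ j x := by
    intro x
    refine (hbd _ hgm x).trans (le_of_eq ?_)
    congr 1
    apply Finset.sum_congr rfl
    intro j _
    apply Finset.sum_congr rfl
    intro I _
    rw [wm_avg hσ hg]
  have h3 : ∀ j, ∫⁻ x, Φ j x ^ p ∂(wm volume u) ≤
      C₂ * (T : ℝ≥0∞) ^ p * ∫⁻ y, g y ^ p ∂(wm volume σ) :=
    fun j => hC₂ _ _ hσf huf T hT hT' (tt j) (SS j) (hhalf j) g hg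
  calc ∫⁻ x, (∑ I ∈ F, (gq t₀ I).indicator
        (fun _ => (∫⁻ z in dil a t₀ I, (σ z : ℝ≥0∞) * g z) / volume (dil a t₀ I)) x) ^ p
        ∂(wm volume u)
      ≤ ∫⁻ x, (C₁ : ℝ≥0∞) ^ p * ((N : ℝ≥0∞) ^ p * ∑ j, Φ j x ^ p) ∂(wm volume u) := by
        apply lintegral_mono
        intro x
        calc _ ≤ ((C₁ : ℝ≥0∞) * ∑ j, Φ j x) ^ p := ENNReal.rpow_le_rpow (h1 x) hp.le
          _ = (C₁ : ℝ≥0∞) ^ p * (∑ j, Φ j x) ^ p := ENNReal.mul_rpow_of_nonneg _ _ hp.le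
          _ ≤ _ := mul_le_mul' le_rfl (sum_rpow_le _ hp)
    _ = (C₁ : ℝ≥0∞) ^ p * ((N : ℝ≥0∞) ^ p * ∑ j, ∫⁻ x, Φ j x ^ p ∂(wm volume u)) := by
        have hm1 : ∀ j ∈ (Finset.univ : Finset (Fin N)), Measurable (fun x => Φ j x ^ p) :=
          fun j _ => (hΦm j).pow_const p
        rw [lintegral_const_mul _ (Measurable.const_mul (Finset.measurable_fun_sum _ hm1) _),
          lintegral_const_mul _ (Finset.measurable_fun_sum _ hm1),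
          lintegral_finsetSum _ hm1]
    _ ≤ (C₁ : ℝ≥0∞) ^ p * ((N : ℝ≥0∞) ^ p * ∑ j : Fin N,
          C₂ * (T : ℝ≥0∞) ^ p * ∫⁻ y, g y ^ p ∂(wm volume σ)) := by
        apply mul_le_mul' le_rfl
        apply mul_le_mul' le_rfl
        exact Finset.sum_le_sum (fun j _ => h3 j)
    _ = _ := by
        rw [Finset.sum_const, nsmul_eq_mul, Finset.card_univ, Fintype.card_fin]
        rw [ENNReal.coe_mul, ENNReal.coe_mul, ENNReal.coe_natCast,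
          ENNReal.coe_rpow_of_nonneg _ hp.le, ENNReal.coe_mul, ENNReal.coe_natCast,
          ENNReal.mul_rpow_of_nonneg _ _ hp.le]
        ring

end Pool.Agent.TH279.RI
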