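import Pool.Agent.TH304.RI.J593
import Pool.Agent.TH304.RI.J594

set_option autoImplicit false
set_option linter.unusedSectionVars false
set_option linter.unusedVariables false

namespace Pool.Agent.TH279.RI

open MeasureTheory Metric Filter Topology
open scoped ENNReal NNReal
open Pool.Agent.H433R3.Sep

variable {d : ℕ} {𝕜 : Type*} [RCLike 𝕜]
variable {T : Lp 𝕜 2 (volume : Measure (Fin d → ℝ)) →L[𝕜] Lp 𝕜 2 (volume : Measure (Fin d → ℝ))}
variable {K : (Fin d → ℝ) → (Fin d → ℝ) → 𝕜}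

/-- Pointwise sparse domination. -/
theorem dominStar (hd : 0 < d) (hT : IsCZO T K) : ∃ (a : ℝ) (A : ℝ≥0), 1 ≤ a ∧
    ∀ (f : (Fin d → ℝ) → 𝕜), Measurable f → ∀ B : ℝ≥0, (∀ x, ‖f x‖ ≤ B) →
    ∀ (c : Fin d → ℝ) (R : ℝ), (∀ x, x ∉ closedBall c R → f x = 0) →
    ∀ (t : Fin d → Bool) (I₀ : Idx d), closedBall c R ⊆ gq t I₀ →
    ∃ (S : Set (Idx d)) (E : Idx d → Set (Fin d → ℝ)),
      (∀ I ∈ S, MeasurableSet (E I)) ∧ (∀ I ∈ S, E I ⊆ gq t I) ∧
      (∀ I ∈ S, volume (gq t I) ≤ 2 * volume (E I)) ∧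
      (∀ I ∈ S, ∀ J ∈ S, I ≠ J → Disjoint (E I) (E J)) ∧
      ∀ᵐ x, x ∈ gq t I₀ → TS K f x ≤ A * ∑' I : S, (gq t (I : Idx d)).indicator
        (fun _ => avg a t f I) x := by
  classical
  obtain ⟨W, hW⟩ := Pool.Agent.TH304.RI.J593.weakStar hd hT
  obtain ⟨a, A, ha, hstep⟩ := Pool.Agent.TH304.RI.J594.oneStepStar hd hT W hW
  refine ⟨a, A, ha, ?_⟩
  intro f hf B hB c R h0 t I₀ hI₀
  choose ch hch1 hch2 hch3 hch4 using hstep f hf B hB c R h0 t
  set G : ℕ → Set (Idx d) := gens ch I₀ with hG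
  have hG0 : G 0 = {I₀} := rfl
  have hGs : ∀ n, G (n + 1) = ⋃ I ∈ G n, ch I := fun n => rfl
  set S : Set (Idx d) := ⋃ n, G n with hS
  set E : Idx d → Set (Fin d → ℝ) := fun I => gq t I \ ⋃ J ∈ ch I, gq t J with hE
  have hcc : ∀ I, (ch I).Countable := fun I => Set.to_countable _
  have hUm : ∀ I, MeasurableSet (⋃ J ∈ ch I, gq t J) := fun I =>
    MeasurableSet.biUnion (hcc I) (fun J _ => gq_meas t J)
  have hUsub : ∀ I, (⋃ J ∈ ch I, gq t J) ⊆ gq t I := fun I => Set.iUnion₂_subset (hch1 I)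
  have hUv : ∀ I, 2 * volume (⋃ J ∈ ch I, gq t J) ≤ volume (gq t I) := fun I =>
    (mul_le_mul' le_rfl (measure_biUnion_le volume (hcc I) _)).trans (hch3 I)
  have hEv : ∀ I, volume (gq t I) ≤ 2 * volume (E I) := by
    intro I
    have hv := gq_vol_pos t I
    set U := ⋃ J ∈ ch I, gq t J with hU
    have hUfin : volume U ≠ ∞ := (lt_of_le_of_lt (measure_mono (hUsub I)) hv.2).ne
    have h2 : volume (E I) = volume (gq t I) - volume U :=
      measure_sdiff (hUsub I) (hUm I).nullMeasurableSet hUfin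
    have h3 : volume (gq t I) = volume U + volume (E I) := by
      rw [h2, add_tsub_cancel_of_le (measure_mono (hUsub I))]
    have h4 := hUv I
    have h5 : 2 * volume U ≤ volume U + volume (E I) := by rw [← h3]; exact h4
    rw [two_mul] at h5
    have h6 : volume U ≤ volume (E I) := (ENNReal.add_le_add_iff_left hUfin).1 h5
    rw [h3, two_mul]
    exact add_le_add h6 le_rfl
  -- a child is strictly smaller in volume
  have hchild : ∀ I, ∀ P ∈ ch I, ¬ gq t I ⊆ gq t P := by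
    intro I P hP hsub
    have hv := gq_vol_pos t I
    have h1 : 2 * volume (gq t P) ≤ volume (gq t I) := by
      refine le_trans (mul_le_mul' le_rfl ?_) (hUv I)
      exact measure_mono (Set.subset_biUnion_of_mem (u := fun J => gq t J) hP)
    have h2 : 2 * volume (gq t I) ≤ volume (gq t I) :=
      (mul_le_mul' le_rfl (measure_mono hsub)).trans h1
    rw [two_mul] at h2
    exact absurd (lt_of_lt_of_le (ENNReal.lt_add_right hv.2.ne hv.1.ne') h2) (lt_irrefl _)
  -- disjointness inside a generation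
  have hGdis : ∀ n, ∀ I ∈ G n, ∀ J ∈ G n, I ≠ J → Disjoint (gq t I) (gq t J) := by
    intro n
    induction n with
    | zero =>
      intro I hI J hJ hIJ
      rw [hG0, Set.mem_singleton_iff] at hI hJ
      exact absurd (hI.trans hJ.symm) hIJ
    | succ n ih =>
      intro I hI J hJ hIJ
      rw [hGs] at hI hJ
      obtain ⟨I', hI', hII'⟩ := Set.mem_iUnion₂.1 hI
      obtain ⟨J', hJ', hJJ'⟩ := Set.mem_iUnion₂.1 hJ
      by_cases h : I' = J'
      · subst h
        exact hch2 I' I hII' J hJJ' hIJ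
      · exact (ih I' hI' J' hJ' h).mono (hch1 I' I hII') (hch1 J' J hJJ')
  -- descendants
  have hdesc : ∀ n m, ∀ J ∈ G (n + 1 + m), ∃ I ∈ G n, ∃ P ∈ ch I, gq t J ⊆ gq t P := by
    intro n m
    induction m with
    | zero =>
      intro J hJ
      rw [add_zero, hGs] at hJ
      obtain ⟨I, hI, hJI⟩ := Set.mem_iUnion₂.1 hJ
      exact ⟨I, hI, J, hJI, subset_rfl⟩
    | succ m ih =>
      intro J hJ
      have e : n + 1 + (m + 1) = (n + 1 + m) + 1 := by ring
      rw [e, hGs] at hJ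
      obtain ⟨J', hJ', hJJ'⟩ := Set.mem_iUnion₂.1 hJ
      obtain ⟨I, hI, P, hP, hsub⟩ := ih J' hJ'
      exact ⟨I, hI, P, hP, (hch1 J' J hJJ').trans hsub⟩
  have hEdis' : ∀ n m, ∀ I ∈ G n, ∀ J ∈ G (n + m), I ≠ J → Disjoint (E I) (E J) := by
    intro n m I hI J hJ hIJ
    rcases Nat.eq_zero_or_pos m with hm | hm
    · rw [hm, add_zero] at hJ
      exact (hGdis n I hI J hJ hIJ).mono Set.sdiff_subset Set.sdiff_subset
    · obtain ⟨k, rfl⟩ : ∃ k, m = 1 + k := ⟨m - 1, by omega⟩
      rw [← add_assoc] at hJ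
      obtain ⟨I', hI', P, hP, hsub⟩ := hdesc n k J hJ
      by_cases h : I' = I
      · subst h
        rw [Set.disjoint_left]
        intro x hx hx'
        exact hx.2 (Set.mem_iUnion₂.2 ⟨P, hP, hsub hx'.1⟩)
      · have := hGdis n I hI I' hI' (fun h' => h h'.symm)
        exact this.mono Set.sdiff_subset (Set.sdiff_subset.trans (hsub.trans (hch1 I' P hP)))
  have hEdis : ∀ I ∈ S, ∀ J ∈ S, I ≠ J → Disjoint (E I) (E J) := by
    intro I hI J hJ hIJ
    obtain ⟨n, hn⟩ := Set.mem_iUnion.1 hI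
    obtain ⟨m, hm⟩ := Set.mem_iUnion.1 hJ
    rcases le_total n m with h | h
    · obtain ⟨k, rfl⟩ := Nat.exists_eq_add_of_le h
      exact hEdis' n k I hn J hm hIJ
    · obtain ⟨k, rfl⟩ := Nat.exists_eq_add_of_le h
      exact (hEdis' m k J hm I hn (fun h => hIJ h.symm)).symm
  refine ⟨S, E, fun I _ => (gq_meas t I).diff (hUm I), fun I _ => Set.sdiff_subset,
    fun I _ => hEv I, hEdis, ?_⟩
  -- the sets D n
  set D : ℕ → Set (Fin d → ℝ) := fun n => ⋃ I ∈ G n, gq t I with hD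
  have hDs : ∀ n, 2 * volume (D (n + 1)) ≤ volume (D n) := by
    intro n
    have h1 : D (n + 1) ⊆ ⋃ I ∈ G n, ⋃ J ∈ ch I, gq t J := by
      apply Set.iUnion₂_subset
      intro J hJ
      rw [hGs] at hJ
      obtain ⟨I, hI, hJI⟩ := Set.mem_iUnion₂.1 hJ
      intro x hx
      exact Set.mem_iUnion₂.2 ⟨I, hI, Set.mem_iUnion₂.2 ⟨J, hJI, hx⟩⟩
    have hGc : (G n).Countable := Set.to_countable _
    calc 2 * volume (D (n + 1)) ≤ 2 * ∑' I : G n, volume (⋃ J ∈ ch (I : Idx d), gq t J) :=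
          mul_le_mul' le_rfl ((measure_mono h1).trans (measure_biUnion_le volume hGc _))
      _ = ∑' I : G n, 2 * volume (⋃ J ∈ ch (I : Idx d), gq t J) := by rw [ENNReal.tsum_mul_left]
      _ ≤ ∑' I : G n, volume (gq t (I : Idx d)) := ENNReal.tsum_le_tsum (fun I => hUv I)
      _ = volume (D n) := by
          rw [hD]
          show _ = volume (⋃ I ∈ G n, gq t I)
          rw [measure_biUnion hGc (fun I hI J hJ hIJ => hGdis n I hI J hJ hIJ)
            (fun I _ => gq_meas t I)]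
  have hDn : ∀ n, 2 ^ n * volume (D n) ≤ volume (gq t I₀) := by
    intro n
    induction n with
    | zero =>
      have : D 0 = gq t I₀ := by
        simp only [hD, hG0, Set.mem_singleton_iff, Set.iUnion_iUnion_eq_left]
      rw [this, pow_zero, one_mul]
    | succ n ih =>
      calc 2 ^ (n + 1) * volume (D (n + 1)) = 2 ^ n * (2 * volume (D (n + 1))) := by ring
        _ ≤ 2 ^ n * volume (D n) := mul_le_mul' le_rfl (hDs n)
        _ ≤ _ := ih
  have hnull : volume (⋂ n, D n) = 0 := by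
    have hv := gq_vol_pos t I₀
    by_contra hne
    have h1 : ∀ n : ℕ, (2:ℝ≥0∞) ^ n * volume (⋂ n, D n) ≤ volume (gq t I₀) := fun n =>
      (mul_le_mul' le_rfl (measure_mono (Set.iInter_subset _ n))).trans (hDn n)
    have h2 : ∀ n : ℕ, (2:ℝ≥0∞) ^ n ≤ volume (gq t I₀) / volume (⋂ n, D n) := by
      intro n
      rw [ENNReal.le_div_iff_mul_le (Or.inl hne) (Or.inr hv.2.ne)]
      exact h1 n
    have h3 : volume (gq t I₀) / volume (⋂ n, D n) < ∞ := ENNReal.div_lt_top hv.2.ne hne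
    have h4 : Tendsto (fun n : ℕ => (2:ℝ≥0∞) ^ n) atTop (𝓝 ∞) :=
      ENNReal.tendsto_pow_atTop_nhds_top_iff.2 (by norm_num)
    have h5 := le_of_tendsto' h4 h2
    exact absurd (lt_of_le_of_lt h5 h3) (lt_irrefl _)
  have hall : ∀ᵐ x, ∀ I : Idx d, (x ∈ gq t I → (∀ J ∈ ch I, x ∉ gq t J) →
      TS K (loc a t f I) x ≤ A * avg a t f I) ∧
        ∀ J ∈ ch I, x ∈ gq t J → TS K (loc a t f I) x ≤
          A * avg a t f I + TS K (loc a t f J) x := ae_all_iff.2 (fun I => hch4 I)
  have hnn : ∀ᵐ x, x ∉ ⋂ n, D n := measure_eq_zero_iff_ae_notMem.1 hnull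
  have hlocI₀ : loc a t f I₀ = f := by
    funext x
    unfold loc
    by_cases hx : x ∈ dil a t I₀
    · rw [Set.indicator_of_mem hx]
    · rw [Set.indicator_of_notMem hx]
      symm
      apply h0
      intro hc
      exact hx (gq_sub_dil ha t I₀ (hI₀ hc))
  filter_upwards [hall, hnn] with x hx hxD hxI₀
  set s : Idx d → Idx d → ℝ≥0∞ := fun I J => if J ∈ S ∧ gq t J ⊆ gq t I then
    (gq t J).indicator (fun _ => avg a t f J) x else 0 with hs
  have claim : ∀ m n, ∀ I ∈ G n, x ∈ gq t I → x ∉ D (n + m) →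
      TS K (loc a t f I) x ≤ A * ∑' J, s I J := by
    intro m
    induction m with
    | zero =>
      intro n I hI hxI hxn
      exact absurd (Set.mem_iUnion₂.2 ⟨I, hI, hxI⟩) hxn
    | succ m ih =>
      intro n I hI hxI hxn
      have hIS : I ∈ S := Set.mem_iUnion.2 ⟨n, hI⟩
      have hsI : s I I = avg a t f I := by
        simp only [hs]
        rw [if_pos ⟨hIS, subset_rfl⟩, Set.indicator_of_mem hxI]
      by_cases hc : ∀ J ∈ ch I, x ∉ gq t J
      · refine ((hx I).1 hxI hc).trans (mul_le_mul' le_rfl ?_)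
        rw [← hsI]
        exact ENNReal.le_tsum I
      · push Not at hc
        obtain ⟨J, hJ, hxJ⟩ := hc
        have hJG : J ∈ G (n + 1) := by
          rw [hGs]; exact Set.mem_iUnion₂.2 ⟨I, hI, hJ⟩
        have h1 := ih (n + 1) J hJG hxJ (by
          have e : n + 1 + m = n + (m + 1) := by ring
          rw [e]; exact hxn)
        refine ((hx I).2 J hJ hxJ).trans ((add_le_add le_rfl h1).trans ?_)
        rw [← mul_add]
        apply mul_le_mul' le_rfl
        have hnotsub : ¬ gq t I ⊆ gq t J := hchild I J hJ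
        have h2 : ∀ P, (if P = I then avg a t f I else 0) + s J P ≤ s I P := by
          intro P
          by_cases hP : P = I
          · subst hP
            have h3 : s J P = 0 := by
              simp only [hs]
              rw [if_neg (fun h => hnotsub h.2)]
            rw [if_pos rfl, h3, add_zero, hsI]
          · rw [if_neg hP, zero_add]
            simp only [hs]
            by_cases h4 : P ∈ S ∧ gq t P ⊆ gq t J
            · rw [if_pos h4, if_pos ⟨h4.1, h4.2.trans (hch1 I J hJ)⟩]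
            · rw [if_neg h4]; exact bot_le
        calc avg a t f I + ∑' P, s J P = ∑' P, ((if P = I then avg a t f I else 0) + s J P) := by
              rw [ENNReal.tsum_add, tsum_ite_eq]
          _ ≤ ∑' P, s I P := ENNReal.tsum_le_tsum h2
  rw [Set.mem_iInter, not_forall] at hxD
  obtain ⟨m, hm⟩ := hxD
  have h1 := claim m 0 I₀ (by rw [hG0]; rfl) hxI₀ (by rw [zero_add]; exact hm)
  rw [hlocI₀] at h1
  refine h1.trans (mul_le_mul' le_rfl ?_)
  rw [tsum_subtype S (fun I => (gq t I).indicator (fun _ => avg a t f I) x)]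
  apply ENNReal.tsum_le_tsum
  intro J
  simp only [hs]
  by_cases h2 : J ∈ S ∧ gq t J ⊆ gq t I₀
  · rw [if_pos h2, Set.indicator_of_mem h2.1]
  · rw [if_neg h2]; exact bot_le

end Pool.Agent.TH279.RI
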