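import Pool.Agent.TH279.RI.Asm2
import Pool.Agent.TH279.RI.Dom
import Pool.Agent.H433R3.Sep21

set_option autoImplicit false
set_option linter.unusedSectionVars false
set_option linter.unusedVariables false

namespace Pool.Agent.TH279.RI

open MeasureTheory Metric Filter Topology
open scoped ENNReal NNReal
open Pool.Agent.H433R3.Sep (Idx gq gq_meas gq_vol_pos gq_lam gq_nonempty gq_inj wm SLam cor dil
  avg ix IsCZO el)

variable {d : ℕ} {𝕜 : Type*} [RCLike 𝕜]
variable {T : Lp 𝕜 2 (volume : Measure (Fin d → ℝ)) →L[𝕜] Lp 𝕜 2 (volume : Measure (Fin d → ℝ))}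
variable {K : (Fin d → ℝ) → (Fin d → ℝ) → 𝕜}

/-- majorants for bounded compactly supported functions -/
lemma majBdd (hd : 0 < d) {p q : ℝ} (hpq : p.HolderConjugate q) (hT : IsCZO T K) :
    ∃ C : ℝ≥0, ∀ (u σ : (Fin d → ℝ) → ℝ≥0), Measurable u → Measurable σ →
    (∀ (t : Fin d → Bool) (I : Idx d), wm volume σ (gq t I) < ∞) →
    (∀ (t : Fin d → Bool) (I : Idx d), wm volume u (gq t I) < ∞) →
    ∀ τ : ℝ≥0, DTest d q (wm volume σ) (wm volume u) τ →
    ∀ (g : (Fin d → ℝ) → ℝ≥0∞) (h : (Fin d → ℝ) → 𝕜), Measurable g → Measurable h →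
    (∀ x, ‖h x‖ₑ = (σ x : ℝ≥0∞) * g x) → ∀ B : ℝ≥0, (∀ x, ‖h x‖ ≤ B) → ∀ R : ℝ,
    (∀ x, x ∉ closedBall 0 R → h x = 0) → ∀ (t : Fin d → Bool) (I₀ : Idx d),
    closedBall 0 R ⊆ gq t I₀ →
    ∃ W : (Fin d → ℝ) → ℝ≥0∞, Measurable W ∧ (∀ᵐ x, x ∈ gq t I₀ → TS K h x ≤ W x) ∧
      (∀ lam : ℝ≥0∞, lam ^ p * wm volume u {x | lam < W x} ≤
        C * (τ : ℝ≥0∞) ^ p * ∫⁻ y, g y ^ p ∂(wm volume σ)) ∧
      (DTest d p (wm volume u) (wm volume σ) τ →
        ∫⁻ x, W x ^ p ∂(wm volume u) ≤ C * (τ : ℝ≥0∞) ^ p * ∫⁻ y, g y ^ p ∂(wm volume σ)) := by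
  classical
  obtain ⟨a, A, ha, hdom⟩ := dominStar hd hT
  obtain ⟨C₁, hC₁⟩ := weakFin hd hpq a ha
  obtain ⟨C₂, hC₂⟩ := strongFin hd hpq a ha
  have hp := hpq.pos
  refine ⟨A ^ p * (C₁ + C₂), ?_⟩
  intro u σ hu hσ hσf huf τ hτ g h hg hh hgh B hB R h0 t I₀ hI₀
  obtain ⟨S, E, hE1, hE2, hE3, hE4, hE5⟩ := hdom h hh B hB 0 R h0 t I₀ hI₀
  have havg : ∀ I, avg a t h I =
      (∫⁻ z in dil a t I, (σ z : ℝ≥0∞) * g z) / volume (dil a t I) := by
    intro I
    unfold avg
    congr 1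
    exact lintegral_congr (fun x => hgh x)
  -- partial sums
  set P : Finset S → (Fin d → ℝ) → ℝ≥0∞ := fun s x => ∑ I ∈ s, (gq t (I : Idx d)).indicator
    (fun _ => avg a t h I) x with hP
  have hPm : ∀ s, Measurable (P s) := fun s =>
    Finset.measurable_fun_sum _ (fun I _ => measurable_const.indicator (gq_meas _ _))
  have hPmono : ∀ s s' : Finset S, s ⊆ s' → ∀ x, P s x ≤ P s' x := fun s s' hss x =>
    Finset.sum_le_sum_of_subset hss
  have hPeq : ∀ s : Finset S, ∀ x, P s x = ∑ I ∈ s.map (Function.Embedding.subtype _),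
      (gq t I).indicator (fun _ => (∫⁻ z in dil a t I, (σ z : ℝ≥0∞) * g z) /
        volume (dil a t I)) x := by
    intro s x
    rw [Finset.sum_map]
    apply Finset.sum_congr rfl
    intro I _
    rw [havg]
    rfl
  have hs1 : ∀ s : Finset S, ∀ I ∈ s.map (Function.Embedding.subtype _), MeasurableSet (E I) := by
    intro s I hI
    obtain ⟨I', _, rfl⟩ := Finset.mem_map.1 hI
    exact hE1 _ I'.2
  have hs2 : ∀ s : Finset S, ∀ I ∈ s.map (Function.Embedding.subtype _), E I ⊆ gq t I := by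
    intro s I hI
    obtain ⟨I', _, rfl⟩ := Finset.mem_map.1 hI
    exact hE2 _ I'.2
  have hs3 : ∀ s : Finset S, ∀ I ∈ s.map (Function.Embedding.subtype _),
      volume (gq t I) ≤ 2 * volume (E I) := by
    intro s I hI
    obtain ⟨I', _, rfl⟩ := Finset.mem_map.1 hI
    exact hE3 _ I'.2
  have hs4 : ∀ s : Finset S, ∀ I ∈ s.map (Function.Embedding.subtype _),
      ∀ J ∈ s.map (Function.Embedding.subtype _), I ≠ J → Disjoint (E I) (E J) := by
    intro s I hI J hJ
    obtain ⟨I', _, rfl⟩ := Finset.mem_map.1 hI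
    obtain ⟨J', _, rfl⟩ := Finset.mem_map.1 hJ
    exact hE4 _ I'.2 _ J'.2
  have hdirset : ∀ lam : ℝ≥0∞, Directed (· ⊆ ·) (fun s : Finset S => {x | lam < A * P s x}) := by
    intro lam s s'
    refine ⟨s ∪ s', fun x hx => ?_, fun x hx => ?_⟩
    · exact lt_of_lt_of_le hx (mul_le_mul' le_rfl (hPmono _ _ Finset.subset_union_left x))
    · exact lt_of_lt_of_le hx (mul_le_mul' le_rfl (hPmono _ _ Finset.subset_union_right x))
  set W : (Fin d → ℝ) → ℝ≥0∞ := fun x => A * ⨆ s, P s x with hW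
  have hWeq : ∀ x, (A : ℝ≥0∞) * ∑' I : S, (gq t (I : Idx d)).indicator
        (fun _ => avg a t h I) x = W x := by
    intro x
    rw [ENNReal.tsum_eq_iSup_sum]
  refine ⟨W, (Measurable.iSup hPm).const_mul _, ?_, ?_, ?_⟩
  · filter_upwards [hE5] with x hx hxI
    rw [← hWeq]
    exact hx hxI
  · intro lam
    have e : {x | lam < W x} = ⋃ s : Finset S, {x | lam < A * P s x} := by
      ext x
      simp only [hW, Set.mem_ofPred_eq, Set.mem_iUnion]
      rw [ENNReal.mul_iSup, lt_iSup_iff]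
    rw [e, (hdirset lam).measure_iUnion, ENNReal.mul_iSup]
    apply iSup_le
    intro s
    have h1 := scale_weak (wm volume u) hp A (P s) (C₁ * (τ : ℝ≥0∞) ^ p *
      ∫⁻ y, g y ^ p ∂(wm volume σ)) (by
        intro lam'
        have := hC₁ u σ hu hσ hσf huf τ hτ t (s.map (Function.Embedding.subtype _)) E (hs1 s)
          (hs2 s) (hs3 s) (hs4 s) g hg lam'
        simp only [← hPeq] at this
        exact this) lam
    refine h1.trans ?_
    rw [ENNReal.coe_mul, ENNReal.coe_add, ENNReal.coe_rpow_of_nonneg _ hp.le, ← mul_assoc,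
      ← mul_assoc]
    gcongr
    exact le_self_add
  · intro hτ'
    have e : ∀ x, W x ^ p = ⨆ s, (A * P s x) ^ p := by
      intro x
      simp only [hW]
      rw [ENNReal.mul_iSup]
      exact (ENNReal.orderIsoRpow p hp).map_iSup _
    simp_rw [e]
    rw [lintegral_iSup_directed (fun s => (((hPm s).const_mul _).pow_const p).aemeasurable)]
    · apply iSup_le
      intro s
      have h1 := hC₂ u σ hu hσ hσf huf τ hτ hτ' t (s.map (Function.Embedding.subtype _)) E (hs1 s)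
          (hs2 s) (hs3 s) (hs4 s) g hg
      simp only [← hPeq] at h1
      calc ∫⁻ x, (A * P s x) ^ p ∂(wm volume u) = (A : ℝ≥0∞) ^ p * ∫⁻ x, P s x ^ p ∂(wm volume u) := by
            simp_rw [ENNReal.mul_rpow_of_nonneg _ _ hp.le]
            rw [lintegral_const_mul _ ((hPm s).pow_const p)]
        _ ≤ (A : ℝ≥0∞) ^ p * (C₂ * (τ : ℝ≥0∞) ^ p * ∫⁻ y, g y ^ p ∂(wm volume σ)) :=
            mul_le_mul' le_rfl h1
        _ ≤ _ := by
            rw [ENNReal.coe_mul, ENNReal.coe_add, ENNReal.coe_rpow_of_nonneg _ hp.le, ← mul_assoc,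
              ← mul_assoc]
            gcongr
            exact le_add_self
    · intro s s'
      refine ⟨s ∪ s', fun x => ?_, fun x => ?_⟩
      · exact ENNReal.rpow_le_rpow (mul_le_mul' le_rfl
          (hPmono _ _ Finset.subset_union_left x)) hp.le
      · exact ENNReal.rpow_le_rpow (mul_le_mul' le_rfl
          (hPmono _ _ Finset.subset_union_right x)) hp.le

end Pool.Agent.TH279.RI
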