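import Pool.Agent.TH279.RI.Asm3

set_option autoImplicit false
set_option linter.unusedSectionVars false
set_option linter.unusedVariables false

namespace Pool.Agent.TH279.RI

open MeasureTheory Metric Filter Topology
open scoped ENNReal NNReal
open Pool.Agent.H433R3.Sep (Idx gq gq_meas gq_vol_pos gq_lam gq_nonempty gq_inj wm SLam cor dil
  avg ix IsCZO el exists_ball)

variable {d : ℕ} {𝕜 : Type*} [RCLike 𝕜]
variable {T : Lp 𝕜 2 (volume : Measure (Fin d → ℝ)) →L[𝕜] Lp 𝕜 2 (volume : Measure (Fin d → ℝ))}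
variable {K : (Fin d → ℝ) → (Fin d → ℝ) → 𝕜}

lemma TS_approx (K : (Fin d → ℝ) → (Fin d → ℝ) → 𝕜) (h : (Fin d → ℝ) → 𝕜)
    (A : ℕ → Set (Fin d → ℝ)) (hA : ∀ k, MeasurableSet (A k)) (hev : ∀ x, ∀ᶠ k in atTop, x ∈ A k)
    (x : Fin d → ℝ) (lam : ℝ≥0∞) (hlam : lam < TS K h x) :
    ∀ᶠ k in atTop, lam < TS K ((A k).indicator h) x := by
  unfold TS at hlam
  obtain ⟨ε, hε⟩ := lt_iSup_iff.1 hlam
  obtain ⟨hε0, hε1⟩ := lt_iSup_iff.1 hε
  set U : Set (Fin d → ℝ) := {y | ε < el (x - y)} with hU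
  have hint : Integrable (fun y => K x y * h y) (volume.restrict U) := by
    by_contra hc
    rw [integral_undef hc, enorm_zero] at hε1
    exact absurd hε1 not_lt_bot
  have hlim : Tendsto (fun k => ∫ y in U, K x y * (A k).indicator h y) atTop
      (𝓝 (∫ y in U, K x y * h y)) := by
    apply tendsto_integral_of_dominated_convergence (fun y => ‖K x y * h y‖)
    · intro k
      have e : (fun y => K x y * (A k).indicator h y) = (A k).indicator (fun y => K x y * h y) := by
        funext y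
        by_cases hy : y ∈ A k
        · rw [Set.indicator_of_mem hy, Set.indicator_of_mem hy]
        · rw [Set.indicator_of_notMem hy, Set.indicator_of_notMem hy, mul_zero]
      rw [e]
      exact hint.aestronglyMeasurable.indicator (hA k)
    · exact hint.norm
    · intro k
      refine Eventually.of_forall (fun y => ?_)
      by_cases hy : y ∈ A k
      · rw [Set.indicator_of_mem hy]
      · rw [Set.indicator_of_notMem hy, mul_zero, norm_zero]
        exact norm_nonneg _
    · refine Eventually.of_forall (fun y => ?_)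
      apply tendsto_const_nhds.congr'
      filter_upwards [hev y] with k hk
      rw [Set.indicator_of_mem hk]
  have h2 := (hlim.enorm).eventually_const_lt hε1
  filter_upwards [h2] with k hk
  refine lt_of_lt_of_le hk ?_
  unfold TS
  exact le_iSup₂ (f := fun (ε : ℝ) (_ : 0 < ε) =>
    ‖∫ y in {y | ε < el (x - y)}, K x y * (A k).indicator h y‖ₑ) ε hε0

/-- the two bounds for general functions -/
lemma genTS (hd : 0 < d) {p q : ℝ} (hpq : p.HolderConjugate q) (hT : IsCZO T K) :
    ∃ C : ℝ≥0, ∀ (u σ : (Fin d → ℝ) → ℝ≥0), Measurable u → Measurable σ →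
    (∀ (t : Fin d → Bool) (I : Idx d), wm volume σ (gq t I) < ∞) →
    (∀ (t : Fin d → Bool) (I : Idx d), wm volume u (gq t I) < ∞) →
    ∀ τ : ℝ≥0, DTest d q (wm volume σ) (wm volume u) τ →
    ∀ f : (Fin d → ℝ) → 𝕜, Measurable f →
      (∀ lam : ℝ≥0∞, lam ^ p * wm volume u {x | lam < TS K (fun y => ((σ y : ℝ) : 𝕜) * f y) x} ≤
        C * (τ : ℝ≥0∞) ^ p * ∫⁻ y, ‖f y‖ₑ ^ p ∂(wm volume σ)) ∧
      (DTest d p (wm volume u) (wm volume σ) τ →
        ∫⁻ x, TS K (fun y => ((σ y : ℝ) : 𝕜) * f y) x ^ p ∂(wm volume u) ≤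
          C * (τ : ℝ≥0∞) ^ p * ∫⁻ y, ‖f y‖ₑ ^ p ∂(wm volume σ)) := by
  classical
  obtain ⟨C, hC⟩ := majBdd hd hpq hT
  have hp := hpq.pos
  refine ⟨C, ?_⟩
  intro u σ hu hσ hσf huf τ hτ f hf
  set h : (Fin d → ℝ) → 𝕜 := fun y => ((σ y : ℝ) : 𝕜) * f y with hh
  have hhm : Measurable h := by
    apply Measurable.mul _ hf
    exact RCLike.measurable_ofReal.comp hσ.coe_nnreal_real
  set A : ℕ → Set (Fin d → ℝ) := fun k => {y | ‖h y‖ ≤ k} ∩ closedBall 0 k with hA
  have hAm : ∀ k, MeasurableSet (A k) := fun k =>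
    (measurableSet_le hhm.norm measurable_const).inter measurableSet_closedBall
  have hev : ∀ x, ∀ᶠ k in atTop, x ∈ A k := by
    intro x
    obtain ⟨N, hN⟩ := exists_nat_ge (max ‖h x‖ ‖x‖)
    filter_upwards [eventually_ge_atTop N] with k hk
    have hk' : (N : ℝ) ≤ k := by exact_mod_cast hk
    refine ⟨?_, ?_⟩
    · exact (le_max_left _ _).trans (hN.trans hk')
    · rw [mem_closedBall, dist_zero_right]
      exact (le_max_right _ _).trans (hN.trans hk')
  set hk : ℕ → (Fin d → ℝ) → 𝕜 := fun k => (A k).indicator h with hhk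
  set gk : ℕ → (Fin d → ℝ) → ℝ≥0∞ := fun k => (A k).indicator (fun y => ‖f y‖ₑ) with hgk
  have hgkm : ∀ k, Measurable (gk k) := fun k => hf.enorm.indicator (hAm k)
  have hhkm : ∀ k, Measurable (hk k) := fun k => hhm.indicator (hAm k)
  have hnorm : ∀ y, ‖h y‖ₑ = (σ y : ℝ≥0∞) * ‖f y‖ₑ := by
    intro y
    simp only [hh]
    rw [enorm_mul]
    congr 1
    rw [← ofReal_norm, RCLike.norm_ofReal, abs_of_nonneg (NNReal.coe_nonneg _),
      ENNReal.ofReal_coe_nnreal]
  have hrel : ∀ k y, ‖hk k y‖ₑ = (σ y : ℝ≥0∞) * gk k y := by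
    intro k y
    by_cases hy : y ∈ A k
    · simp only [hhk, hgk]
      rw [Set.indicator_of_mem hy, Set.indicator_of_mem hy, hnorm]
    · simp only [hhk, hgk]
      rw [Set.indicator_of_notMem hy, Set.indicator_of_notMem hy, enorm_zero, mul_zero]
  have hbd : ∀ k y, ‖hk k y‖ ≤ ((k : ℝ≥0) : ℝ) := by
    intro k y
    by_cases hy : y ∈ A k
    · simp only [hhk]
      rw [Set.indicator_of_mem hy]
      have := hy.1
      simpa using this
    · simp only [hhk]
      rw [Set.indicator_of_notMem hy, norm_zero]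
      exact NNReal.coe_nonneg _
  have hsupp : ∀ (k : ℕ) y, y ∉ closedBall (0 : Fin d → ℝ) (k : ℝ) → hk k y = 0 := by
    intro k y hy
    simp only [hhk]
    exact Set.indicator_of_notMem (fun h' => hy h'.2) _
  have hball : ∀ k : ℕ, ∃ j : ℕ, closedBall (0 : Fin d → ℝ) (k : ℝ) ⊆
      gq (fun _ => true) (ix (fun _ => true) (j:ℤ) 0) := by
    intro k
    obtain ⟨N, hN⟩ := exists_ball (d := d) (k : ℝ) (Nat.cast_nonneg k)
    exact ⟨N, hN N le_rfl⟩
  choose j hj using hball
  have hW := fun k : ℕ => hC u σ hu hσ hσf huf τ hτ (gk k) (hk k) (hgkm k) (hhkm k) (hrel k)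
    (k : ℝ≥0) (hbd k) (k : ℝ) (hsupp k) (fun _ => true) (ix (fun _ => true) (j k : ℤ) 0) (hj k)
  choose W hWm hWae hWweak hWstrong using hW
  have hgle : ∀ k, ∫⁻ y, gk k y ^ p ∂(wm volume σ) ≤ ∫⁻ y, ‖f y‖ₑ ^ p ∂(wm volume σ) := by
    intro k
    apply lintegral_mono
    intro y
    apply ENNReal.rpow_le_rpow _ hp.le
    exact Set.indicator_le_self _ _ y
  have hac : wm volume u ≪ volume := withDensity_absolutelyContinuous _ _
  have hae : ∀ᵐ x ∂(wm volume u), ∀ lam : ℝ≥0∞, lam < TS K h x → ∀ᶠ k in atTop, lam < W k x := by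
    have h1 : ∀ᵐ x, ∀ k, x ∈ gq (fun _ => true) (ix (fun _ => true) (j k : ℤ) 0) →
        TS K (hk k) x ≤ W k x := ae_all_iff.2 hWae
    filter_upwards [hac.ae_le h1] with x hx lam hlam
    have h2 := TS_approx K h A hAm hev x lam hlam
    filter_upwards [h2, hev x] with k hk1 hk2
    exact lt_of_lt_of_le hk1 (hx k (hj k hk2.2))
  constructor
  · intro lam
    set Bs : ℕ → Set (Fin d → ℝ) := fun N => {x | ∀ k, N ≤ k → lam < W k x} with hBs
    have hBmono : Monotone Bs := by
      intro N M hNM x hx k hk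
      exact hx k (hNM.trans hk)
    have h1 : wm volume u {x | lam < TS K h x} ≤ wm volume u (⋃ N, Bs N) := by
      apply measure_mono_ae
      filter_upwards [hae] with x hx
      intro hx1
      obtain ⟨N, hN⟩ := eventually_atTop.1 (hx lam hx1)
      exact Set.mem_iUnion.2 ⟨N, hN⟩
    calc lam ^ p * wm volume u {x | lam < TS K h x}
        ≤ lam ^ p * wm volume u (⋃ N, Bs N) := mul_le_mul' le_rfl h1
      _ = ⨆ N, lam ^ p * wm volume u (Bs N) := by
          rw [hBmono.measure_iUnion, ENNReal.mul_iSup]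
      _ ≤ _ := by
          apply iSup_le
          intro N
          calc lam ^ p * wm volume u (Bs N) ≤ lam ^ p * wm volume u {x | lam < W N x} := by
                apply mul_le_mul' le_rfl
                apply measure_mono
                intro x hx
                exact hx N le_rfl
            _ ≤ _ := (hWweak N lam).trans (mul_le_mul' le_rfl (hgle N))
  · intro hτ'
    have h1 : ∀ᵐ x ∂(wm volume u), TS K h x ^ p ≤ liminf (fun k => W k x ^ p) atTop := by
      filter_upwards [hae] with x hx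
      apply le_of_forall_lt_imp_le_of_dense
      intro c hc
      have hc' : c ^ p⁻¹ < TS K h x := by
        rw [ENNReal.rpow_inv_lt_iff hp]
        exact hc
      apply le_liminf_of_le
      · isBoundedDefault
      · filter_upwards [hx _ hc'] with k hk1
        rw [ENNReal.rpow_inv_lt_iff hp] at hk1
        exact hk1.le
    calc ∫⁻ x, TS K h x ^ p ∂(wm volume u)
        ≤ ∫⁻ x, liminf (fun k => W k x ^ p) atTop ∂(wm volume u) := lintegral_mono_ae h1
      _ ≤ liminf (fun k => ∫⁻ x, W k x ^ p ∂(wm volume u)) atTop :=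
          lintegral_liminf_le (fun k => (hWm k).pow_const p)
      _ ≤ liminf (fun _ : ℕ => C * (τ : ℝ≥0∞) ^ p * ∫⁻ y, ‖f y‖ₑ ^ p ∂(wm volume σ)) atTop := by
          exact liminf_le_liminf (Eventually.of_forall (fun k =>
            (hWstrong k hτ').trans (mul_le_mul' le_rfl (hgle k))))
      _ = _ := by rw [liminf_const]

end Pool.Agent.TH279.RI
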