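import Pool.Agent.TH279.RI.Asm1
import Pool.Agent.H433R3.Sep21

set_option autoImplicit false
set_option linter.unusedSectionVars false
set_option linter.unusedVariables false

namespace Pool.Agent.TH279.RI

open MeasureTheory Metric Filter Topology
open scoped ENNReal NNReal
open Pool.Agent.H433R3.Sep (Idx gq gq_meas gq_vol_pos gq_lam gq_nonempty gq_inj wm SLam cor
  ix gq_nest mem_gq_ix gq_vol zero_mem_grid exists_ball exhaust)

variable {d : ℕ}

/-- nested grid cubes around the origin -/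
noncomputable def Gc (d : ℕ) (k : ℕ) : Set (Fin d → ℝ) := gq (fun _ => true) (ix (fun _ => true) (k:ℤ) 0)

lemma Gc_meas (k : ℕ) : MeasurableSet (Gc d k) := gq_meas _ _

lemma Gc_mono : Monotone (Gc d) := zero_mem_grid _

lemma Gc_vol (k : ℕ) : volume (Gc d k) = ENNReal.ofReal (2 ^ k) ^ d := by
  unfold Gc
  rw [gq_vol]
  rfl

lemma Gc_vol_pos (k : ℕ) : 0 < volume (Gc d k) ∧ volume (Gc d k) < ∞ := gq_vol_pos _ _

lemma Gc_union : ⋃ k, Gc d k = Set.univ := by
  apply Set.eq_univ_of_forall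
  intro x
  obtain ⟨N, hN⟩ := exists_ball (d := d) ‖x‖ (norm_nonneg x)
  have hx : x ∈ closedBall (0 : Fin d → ℝ) ‖x‖ := by
    rw [mem_closedBall, dist_zero_right]
  exact Set.mem_iUnion.2 ⟨N, hN N le_rfl hx⟩

/-- summed bound for the associate norms of a fixed function over the nested cubes -/
lemma assoc_Gc_sum (hd : 0 < d) (X : RINorm d) {q : ℝ} (hq : 0 < q) {B : ℝ≥0} (hM : X.MBound q B)
    (h : (Fin d → ℝ) → ℝ≥0∞) (hh : Measurable h) (N : ℕ) :
    ∑ k ∈ Finset.range N, volume (Gc d k) * X.assoc (tau (2 ^ (k:ℤ)) (Gc d k) h) ^ q ≤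
      2 * ((B : ℝ≥0∞) ^ q * ∫⁻ x, h x ^ q) := by
  classical
  set tt : Fin d → Bool := fun _ => true with htt
  set i : ℕ → Idx d := fun k => ix tt (k:ℤ) 0 with hi
  have hi1 : ∀ k, (i k).1 = (k:ℤ) := fun k => rfl
  have hinj : Function.Injective i := by
    intro k l hkl
    have h1 := congrArg Prod.fst hkl
    rw [hi1, hi1] at h1
    exact_mod_cast h1
  set E : Idx d → Set (Fin d → ℝ) := fun I => gq tt I \ gq tt (ix tt (I.1 - 1) 0) with hE
  have hEi : ∀ k, E (i k) = gq tt (i k) \ gq tt (ix tt ((k:ℤ) - 1) 0) := fun k => rfl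
  have hnest : ∀ j j' : ℤ, j ≤ j' → gq tt (ix tt j 0) ⊆ gq tt (ix tt j' 0) := by
    intro j j' hjj
    exact gq_nest tt (I := ix tt j 0) (J := ix tt j' 0) hjj (mem_gq_ix tt j 0) (mem_gq_ix tt j' 0)
  have hvol2 : ∀ k : ℕ, 2 * volume (gq tt (ix tt ((k:ℤ) - 1) 0)) ≤ volume (gq tt (i k)) := by
    intro k
    rw [gq_vol, gq_vol]
    have e1 : (ix tt ((k:ℤ) - 1) (0 : Fin d → ℝ)).1 = (k:ℤ) - 1 := rfl
    rw [e1, hi1]
    have e2 : (2:ℝ) ^ (k:ℤ) = 2 * 2 ^ ((k:ℤ) - 1) := by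
      rw [zpow_sub_one₀ (by norm_num)]
      ring
    rw [e2, ENNReal.ofReal_mul (by norm_num), mul_pow]
    apply mul_le_mul' _ le_rfl
    rw [show ENNReal.ofReal 2 = 2 by norm_num]
    calc (2:ℝ≥0∞) = 2 ^ 1 := by rw [pow_one]
      _ ≤ 2 ^ d := pow_le_pow_right₀ (by norm_num) hd
  have main := assoc_sum_le X hq hM tt ((Finset.range N).image i) E
    (by
      intro I hI
      exact (gq_meas _ _).diff (gq_meas _ _))
    (fun I _ => Set.sdiff_subset)
    (by
      intro I hI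
      obtain ⟨k, _, rfl⟩ := Finset.mem_image.1 hI
      rw [hEi]
      have hv := gq_vol_pos tt (i k)
      have hv' := gq_vol_pos tt (ix tt ((k:ℤ) - 1) 0)
      have hsub : gq tt (ix tt ((k:ℤ) - 1) 0) ⊆ gq tt (i k) := hnest _ _ (by linarith)
      rw [measure_sdiff hsub (gq_meas _ _).nullMeasurableSet hv'.2.ne]
      have h2 := hvol2 k
      set a := volume (gq tt (i k)) with ha
      set b := volume (gq tt (ix tt ((k:ℤ) - 1) 0)) with hb
      have hba : b ≤ a := measure_mono hsub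
      have h3 : b ≤ a - b := by
        apply ENNReal.le_sub_of_add_le_left hv'.2.ne
        rw [← two_mul]; exact h2
      calc a = b + (a - b) := (add_tsub_cancel_of_le hba).symm
        _ ≤ (a - b) + (a - b) := add_le_add h3 le_rfl
        _ = 2 * (a - b) := (two_mul _).symm)
    (by
      intro I hI J hJ hIJ
      obtain ⟨k, _, rfl⟩ := Finset.mem_image.1 hI
      obtain ⟨l, _, rfl⟩ := Finset.mem_image.1 hJ
      have hkl : k ≠ l := fun h => hIJ (by rw [h])
      rw [hEi, hEi]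
      rcases lt_or_gt_of_ne hkl with hlt | hlt
      · have h1 : gq tt (i k) ⊆ gq tt (ix tt ((l:ℤ) - 1) 0) := hnest _ _ (by
          have : (k:ℤ) < l := by exact_mod_cast hlt
          linarith)
        rw [Set.disjoint_left]
        intro x hx hx'
        exact hx'.2 (h1 hx.1)
      · have h1 : gq tt (i l) ⊆ gq tt (ix tt ((k:ℤ) - 1) 0) := hnest _ _ (by
          have : (l:ℤ) < k := by exact_mod_cast hlt
          linarith)
        rw [Set.disjoint_left]
        intro x hx hx'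
        exact hx.2 (h1 hx'.1)) h hh
  rw [Finset.sum_image (fun k _ l _ hkl => hinj hkl)] at main
  exact main

/-- decay of `σ` at infinity forced by the bump condition -/
lemma sigma_decay (hd : 0 < d) {p q : ℝ} (hpq : p.HolderConjugate q) (X : RINorm d) {B : ℝ≥0}
    (hM : X.MBound q B) {κ : ℝ≥0} {u σ : (Fin d → ℝ) → ℝ≥0} (hu : Measurable u) (hσ : Measurable σ)
    (hσf : ∀ (t : Fin d → Bool) (I : Idx d), wm volume σ (gq t I) < ∞)
    (hb : ∀ a l, 0 < l → X.ρ (tau l (cube a l) (fun x => (u x : ℝ≥0∞) ^ (1 / p))) *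
      ((∫⁻ x in cube a l, (σ x : ℝ≥0∞)) / volume (cube a l)) ^ (1 / q) ≤ κ)
    (hu0 : ¬ (∀ᵐ x, u x = 0)) :
    ∃ (k₀ : ℕ) (D : ℝ≥0), ∀ N : ℕ, ∑ k ∈ Finset.Ico k₀ N, wm volume σ (Gc d k) *
      (volume (Gc d k)) ^ (-q) ≤ D := by
  classical
  have hp := hpq.pos
  have hq := hpq.symm.pos
  -- a set where u is positive
  have hpos : 0 < volume {x | u x ≠ 0} := by
    rw [pos_iff_ne_zero]
    intro h0
    exact hu0 (ae_iff.2 h0)
  have hsu : MeasurableSet {x | u x ≠ 0} := hu (measurableSet_singleton 0).compl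
  have hex : ∃ k₀, 0 < volume ({x | u x ≠ 0} ∩ Gc d k₀) := by
    by_contra hc
    push Not at hc
    have h1 : {x | u x ≠ 0} = ⋃ k, ({x | u x ≠ 0} ∩ Gc d k) := by
      rw [← Set.inter_iUnion, Gc_union, Set.inter_univ]
    rw [h1] at hpos
    have h2 : volume (⋃ k, ({x | u x ≠ 0} ∩ Gc d k)) = 0 :=
      measure_iUnion_null (fun k => le_antisymm (hc k) bot_le)
    rw [h2] at hpos
    exact lt_irrefl _ hpos
  obtain ⟨k₀, hk₀⟩ := hex
  set E₀ : Set (Fin d → ℝ) := {x | u x ≠ 0} ∩ Gc d k₀ with hE₀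
  have hE₀m : MeasurableSet E₀ := hsu.inter (Gc_meas k₀)
  have hE₀f : volume E₀ < ∞ := lt_of_le_of_lt (measure_mono Set.inter_subset_right) (Gc_vol_pos k₀).2
  set h : (Fin d → ℝ) → ℝ≥0∞ := E₀.indicator (fun _ => 1) with hh
  have hhm : Measurable h := measurable_const.indicator hE₀m
  have hum : Measurable (fun x => (u x : ℝ≥0∞) ^ (1 / p)) := hu.coe_nnreal_ennreal.pow_const _
  have hhq : ∫⁻ x, h x ^ q = volume E₀ := by
    have : ∀ x, h x ^ q = E₀.indicator (fun _ => 1) x := by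
      intro x
      by_cases hx : x ∈ E₀
      · simp only [hh, Set.indicator_of_mem hx, ENNReal.one_rpow]
      · simp only [hh, Set.indicator_of_notMem hx, ENNReal.zero_rpow_of_pos hq]
    simp_rw [this]
    rw [lintegral_indicator hE₀m]
    simp
  set m : ℝ≥0∞ := ∫⁻ x in E₀, (u x : ℝ≥0∞) ^ (1 / p) with hm
  have hmpos : m ≠ 0 := by
    rw [hm, ← pos_iff_ne_zero, setLIntegral_pos_iff hum]
    refine lt_of_lt_of_le hk₀ (measure_mono ?_)
    intro x hx
    refine ⟨?_, hx⟩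
    rw [Function.mem_support]
    have : (u x : ℝ≥0∞) ≠ 0 := by exact_mod_cast hx.1
    exact (ENNReal.rpow_pos_of_nonneg (pos_iff_ne_zero.2 this) (by positivity)).ne'
  -- replace m by something finite
  set m' : ℝ≥0∞ := min m 1 with hm'
  have hm'0 : m' ≠ 0 := by
    rw [hm', ← pos_iff_ne_zero, lt_min_iff]
    exact ⟨pos_iff_ne_zero.2 hmpos, one_pos⟩
  have hm't : m' ≠ ∞ := (lt_of_le_of_lt (min_le_right _ _) ENNReal.one_lt_top).ne
  have key : ∀ k, k₀ ≤ k → m' ^ q * (wm volume σ (Gc d k) * (volume (Gc d k)) ^ (-q)) ≤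
      (κ : ℝ≥0∞) ^ q * (volume (Gc d k) * X.assoc (tau (2 ^ (k:ℤ)) (Gc d k) h) ^ q) := by
    intro k hk
    have hV := Gc_vol_pos (d := d) k
    set V := volume (Gc d k) with hVdef
    set s := wm volume σ (Gc d k) with hs
    have hsfin : s ≠ ∞ := (hσf _ _).ne
    set ρk := X.ρ (tau (2 ^ (k:ℤ)) (Gc d k) (fun x => (u x : ℝ≥0∞) ^ (1 / p))) with hρk
    set αk := X.assoc (tau (2 ^ (k:ℤ)) (Gc d k) h) with hαk
    have hbk : ρk * (s / V) ^ (1 / q) ≤ κ :=
      bump_gq X hp hq hu hb (fun _ => true) (ix (fun _ => true) (k:ℤ) 0)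
    rcases eq_or_ne s 0 with hs0 | hs0
    · rw [hs0, zero_mul, mul_zero]
      exact bot_le
    · have hsV : (s / V) ^ (1 / q) ≠ 0 := by
        have : s / V ≠ 0 := ENNReal.div_ne_zero.2 ⟨hs0, hV.2.ne⟩
        exact (ENNReal.rpow_pos_of_nonneg (pos_iff_ne_zero.2 this) (by positivity)).ne'
      have hρfin : ρk ≠ ∞ := by
        intro hc
        rw [hc, ENNReal.top_mul hsV] at hbk
        exact absurd hbk (by simp)
      have hhol := local_holder X (fun _ => true) (ix (fun _ => true) (k:ℤ) 0) hum hhm hρfin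
      have hsub : E₀ ⊆ Gc d k := Set.inter_subset_right.trans (Gc_mono hk)
      have hml : ∫⁻ y in Gc d k, (u y : ℝ≥0∞) ^ (1 / p) * h y = m := by
        have : ∀ y, (u y : ℝ≥0∞) ^ (1 / p) * h y =
            E₀.indicator (fun y => (u y : ℝ≥0∞) ^ (1 / p)) y := by
          intro y
          by_cases hy : y ∈ E₀
          · simp only [hh, Set.indicator_of_mem hy, mul_one]
          · simp only [hh, Set.indicator_of_notMem hy, mul_zero]
        simp_rw [this]
        rw [lintegral_indicator hE₀m, Measure.restrict_restrict hE₀m, Set.inter_eq_left.2 hsub]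
      have h1 : m' ≤ V * (ρk * αk) := by
        refine (min_le_left _ _).trans ?_
        rw [← hml]
        exact hhol
      have h2 : m' * (s / V) ^ (1 / q) ≤ κ * (V * αk) := by
        calc m' * (s / V) ^ (1 / q) ≤ V * (ρk * αk) * (s / V) ^ (1 / q) := mul_le_mul' h1 le_rfl
          _ = (ρk * (s / V) ^ (1 / q)) * (V * αk) := by ring
          _ ≤ κ * (V * αk) := mul_le_mul' hbk le_rfl
      have h3 : m' ^ q * (s / V) ≤ (κ : ℝ≥0∞) ^ q * (V ^ q * αk ^ q) := by
        have h4 := ENNReal.rpow_le_rpow h2 hq.le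
        rw [ENNReal.mul_rpow_of_nonneg _ _ hq.le, ← ENNReal.rpow_mul,
          one_div_mul_cancel hq.ne', ENNReal.rpow_one, ENNReal.mul_rpow_of_nonneg _ _ hq.le,
          ENNReal.mul_rpow_of_nonneg _ _ hq.le] at h4
        exact h4
      have hV1 : V ^ (1 - q) = V * V ^ (-q) := by
        rw [show 1 - q = 1 + -q by ring, ENNReal.rpow_add _ _ hV.1.ne' hV.2.ne, ENNReal.rpow_one]
      have hV2 : V ^ q * V ^ (1 - q) = V := by
        rw [← ENNReal.rpow_add _ _ hV.1.ne' hV.2.ne, show q + (1 - q) = 1 by ring, ENNReal.rpow_one]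
      have hsV2 : s / V * V ^ (1 - q) = s * V ^ (-q) := by
        rw [hV1, ← mul_assoc, ENNReal.div_mul_cancel hV.1.ne' hV.2.ne]
      calc m' ^ q * (s * V ^ (-q)) = m' ^ q * (s / V) * V ^ (1 - q) := by
            rw [← hsV2]; ring
        _ ≤ (κ : ℝ≥0∞) ^ q * (V ^ q * αk ^ q) * V ^ (1 - q) := mul_le_mul' h3 le_rfl
        _ = (κ : ℝ≥0∞) ^ q * ((V ^ q * V ^ (1 - q)) * αk ^ q) := by ring
        _ = (κ : ℝ≥0∞) ^ q * (V * αk ^ q) := by rw [hV2]
  have hm'q0 : m' ^ q ≠ 0 := (ENNReal.rpow_pos_of_nonneg (pos_iff_ne_zero.2 hm'0) hq.le).ne'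
  have hm'qt : m' ^ q ≠ ∞ := ENNReal.rpow_ne_top_of_nonneg hq.le hm't
  set D : ℝ≥0∞ := (κ : ℝ≥0∞) ^ q * (2 * ((B : ℝ≥0∞) ^ q * volume E₀)) / m' ^ q with hD
  have hDfin : D ≠ ∞ := by
    apply (ENNReal.div_lt_top _ hm'q0).ne
    apply ENNReal.mul_ne_top (ENNReal.rpow_ne_top_of_nonneg hq.le ENNReal.coe_ne_top)
    apply ENNReal.mul_ne_top (by norm_num)
    exact ENNReal.mul_ne_top (ENNReal.rpow_ne_top_of_nonneg hq.le ENNReal.coe_ne_top) hE₀f.ne
  refine ⟨k₀, D.toNNReal, ?_⟩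
  intro N
  rw [ENNReal.coe_toNNReal hDfin, hD, ENNReal.le_div_iff_mul_le (Or.inl hm'q0) (Or.inl hm'qt),
    mul_comm, Finset.mul_sum]
  calc ∑ k ∈ Finset.Ico k₀ N, m' ^ q * (wm volume σ (Gc d k) * (volume (Gc d k)) ^ (-q))
      ≤ ∑ k ∈ Finset.Ico k₀ N, (κ : ℝ≥0∞) ^ q *
          (volume (Gc d k) * X.assoc (tau (2 ^ (k:ℤ)) (Gc d k) h) ^ q) :=
        Finset.sum_le_sum (fun k hk => key k (Finset.mem_Ico.1 hk).1)
    _ ≤ ∑ k ∈ Finset.range N, (κ : ℝ≥0∞) ^ q *
          (volume (Gc d k) * X.assoc (tau (2 ^ (k:ℤ)) (Gc d k) h) ^ q) := by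
        apply Finset.sum_le_sum_of_subset
        intro k hk
        exact Finset.mem_range.2 (Finset.mem_Ico.1 hk).2
    _ = (κ : ℝ≥0∞) ^ q * ∑ k ∈ Finset.range N,
          volume (Gc d k) * X.assoc (tau (2 ^ (k:ℤ)) (Gc d k) h) ^ q := by rw [Finset.mul_sum]
    _ ≤ _ := by
        apply mul_le_mul' le_rfl
        rw [← hhq]
        exact assoc_Gc_sum hd X hq hM h hhm N

end Pool.Agent.TH279.RI
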