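import Pool.Agent.TH279.RI.Conv1
import Pool.Agent.TH304.RI.TSBase

set_option autoImplicit false
set_option linter.unusedSectionVars false
set_option linter.unusedVariables false

namespace Pool.Agent.TH279.RI

open MeasureTheory Metric Filter Topology
open scoped ENNReal NNReal
open Pool.Agent.H433R3.Sep (Idx gq gq_meas gq_vol_pos gq_lam gq_nonempty gq_inj wm SLam cor
  ix gq_nest mem_gq_ix gq_vol zero_mem_grid exists_ball exhaust IsCZO el norm_le_el el_nonneg)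

variable {d : ℕ} {𝕜 : Type*} [RCLike 𝕜]
variable {T : Lp 𝕜 2 (volume : Measure (Fin d → ℝ)) →L[𝕜] Lp 𝕜 2 (volume : Measure (Fin d → ℝ))}
variable {K : (Fin d → ℝ) → (Fin d → ℝ) → 𝕜}

/-- the size bound of the kernel is `L^q(σ)` away from the pole -/
lemma kernel_Lq (hd : 0 < d) {p q : ℝ} (hpq : p.HolderConjugate q) (X : RINorm d) {B : ℝ≥0}
    (hM : X.MBound q B) {κ : ℝ≥0} {u σ : (Fin d → ℝ) → ℝ≥0} (hu : Measurable u) (hσ : Measurable σ)
    (hσf : ∀ (t : Fin d → Bool) (I : Idx d), wm volume σ (gq t I) < ∞)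
    (hb : ∀ a l, 0 < l → X.ρ (tau l (cube a l) (fun x => (u x : ℝ≥0∞) ^ (1 / p))) *
      ((∫⁻ x in cube a l, (σ x : ℝ≥0∞)) / volume (cube a l)) ^ (1 / q) ≤ κ)
    (hu0 : ¬ (∀ᵐ x, u x = 0)) (Cs : ℝ) (hCs : 0 ≤ Cs) (x : Fin d → ℝ) {ε : ℝ} (hε : 0 < ε) :
    ∫⁻ y in {y | ε < el (x - y)}, ENNReal.ofReal (Cs / el (x - y) ^ d) ^ q ∂(wm volume σ) ≠ ∞ := by
  classical
  have hq := hpq.symm.pos
  obtain ⟨k₀, D, hD⟩ := sigma_decay hd hpq X hM hu hσ hσf hb hu0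
  obtain ⟨N, hN⟩ := pow_unbounded_of_one_lt (8 * ‖x‖) (by norm_num : (1:ℝ) < 2)
  set k₁ := max k₀ N with hk₁
  set U : Set (Fin d → ℝ) := {y | ε < el (x - y)} with hU
  set F : (Fin d → ℝ) → ℝ≥0∞ := fun y => ENNReal.ofReal (Cs / el (x - y) ^ d) ^ q with hF
  have hcov : U ⊆ (U ∩ Gc d k₁) ∪ ⋃ k : ℕ, (Gc d (k₁ + k + 1) \ Gc d (k₁ + k)) := by
    intro y hy
    by_cases hy1 : y ∈ Gc d k₁
    · exact Or.inl ⟨hy, hy1⟩
    · right
      have hex : ∃ k : ℕ, y ∈ Gc d (k₁ + k) := by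
        obtain ⟨m, hm⟩ := Set.mem_iUnion.1 ((Gc_union (d := d)).symm ▸ Set.mem_univ y :
          y ∈ ⋃ k, Gc d k)
        exact ⟨m, Gc_mono (by omega) hm⟩
      have h1 := Nat.find_spec hex
      have h2 : Nat.find hex ≠ 0 := by
        intro h0
        rw [h0] at h1
        exact hy1 h1
      obtain ⟨k, hk⟩ := Nat.exists_eq_succ_of_ne_zero h2
      refine Set.mem_iUnion.2 ⟨k, ?_, ?_⟩
      · rw [hk] at h1
        exact h1
      · exact Nat.find_min hex (by omega)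
  have hfar : ∀ k : ℕ, ∀ y ∈ Gc d (k₁ + k + 1) \ Gc d (k₁ + k),
      F y ≤ ENNReal.ofReal (Cs * 16 ^ d) ^ q * (volume (Gc d (k₁ + k + 1))) ^ (-q) := by
    intro k y hy
    have hy2 : y ∉ closedBall (0 : Fin d → ℝ) (2 ^ (k₁ + k) / 4) := by
      intro hc
      apply hy.2
      refine exhaust ((k₁ + k : ℕ) : ℤ) (2 ^ (k₁ + k) / 4) (by positivity) ?_ hc
      rw [zpow_natCast]
      have : (0:ℝ) < 2 ^ (k₁ + k) := by positivity
      linarith
    rw [mem_closedBall, dist_zero_right, not_le] at hy2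
    have hx : ‖x‖ ≤ 2 ^ (k₁ + k) / 8 := by
      have h3 : (2:ℝ) ^ N ≤ 2 ^ (k₁ + k) := pow_le_pow_right₀ (by norm_num) (by omega)
      linarith
    have h4 : (2:ℝ) ^ (k₁ + k + 1) / 16 ≤ el (x - y) := by
      have h5 : ‖y‖ - ‖x‖ ≤ ‖x - y‖ := by
        have := norm_sub_norm_le y x
        rwa [norm_sub_rev] at this
      have h6 := norm_le_el (x - y)
      rw [pow_succ]
      linarith
    have h7 : Cs / el (x - y) ^ d ≤ Cs * 16 ^ d / (2 ^ (k₁ + k + 1)) ^ d := by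
      have h8 : 0 < (2:ℝ) ^ (k₁ + k + 1) / 16 := by positivity
      calc Cs / el (x - y) ^ d ≤ Cs / ((2:ℝ) ^ (k₁ + k + 1) / 16) ^ d :=
            div_le_div_of_nonneg_left hCs (by positivity) (pow_le_pow_left₀ h8.le h4 d)
        _ = Cs * 16 ^ d / (2 ^ (k₁ + k + 1)) ^ d := by
            rw [div_pow]
            field_simp
    have hV := Gc_vol_pos (d := d) (k₁ + k + 1)
    have h9 : ENNReal.ofReal (Cs / el (x - y) ^ d) ≤
        ENNReal.ofReal (Cs * 16 ^ d) * (volume (Gc d (k₁ + k + 1)))⁻¹ := by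
      refine (ENNReal.ofReal_le_ofReal h7).trans (le_of_eq ?_)
      rw [Gc_vol, ENNReal.ofReal_div_of_pos (by positivity), ENNReal.ofReal_pow (by positivity) d,
        ENNReal.div_eq_inv_mul, mul_comm]
    simp only [hF]
    calc ENNReal.ofReal (Cs / el (x - y) ^ d) ^ q
        ≤ (ENNReal.ofReal (Cs * 16 ^ d) * (volume (Gc d (k₁ + k + 1)))⁻¹) ^ q :=
          ENNReal.rpow_le_rpow h9 hq.le
      _ = _ := by
          rw [ENNReal.mul_rpow_of_nonneg _ _ hq.le, ENNReal.inv_rpow, ENNReal.rpow_neg]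
  have hnear : ∀ y ∈ U ∩ Gc d k₁, F y ≤ ENNReal.ofReal (Cs / ε ^ d) ^ q := by
    intro y hy
    apply ENNReal.rpow_le_rpow _ hq.le
    apply ENNReal.ofReal_le_ofReal
    exact div_le_div_of_nonneg_left hCs (by positivity) (pow_le_pow_left₀ hε.le (le_of_lt hy.1) d)
  have hUm : MeasurableSet U := Pool.Agent.TH304.RI.trunc_meas x ε
  have h1 : ∫⁻ y in U ∩ Gc d k₁, F y ∂(wm volume σ) ≤
      ENNReal.ofReal (Cs / ε ^ d) ^ q * wm volume σ (Gc d k₁) := by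
    calc ∫⁻ y in U ∩ Gc d k₁, F y ∂(wm volume σ) ≤
        ∫⁻ y in U ∩ Gc d k₁, ENNReal.ofReal (Cs / ε ^ d) ^ q ∂(wm volume σ) :=
          setLIntegral_mono measurable_const hnear
      _ = ENNReal.ofReal (Cs / ε ^ d) ^ q * wm volume σ (U ∩ Gc d k₁) := by
          rw [lintegral_const, Measure.restrict_apply MeasurableSet.univ, Set.univ_inter]
      _ ≤ _ := mul_le_mul' le_rfl (measure_mono Set.inter_subset_right)
  set c := ENNReal.ofReal (Cs * 16 ^ d) ^ q with hc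
  have h2 : ∀ k : ℕ, ∫⁻ y in Gc d (k₁ + k + 1) \ Gc d (k₁ + k), F y ∂(wm volume σ) ≤
      c * (wm volume σ (Gc d (k₁ + 1 + k)) * (volume (Gc d (k₁ + 1 + k))) ^ (-q)) := by
    intro k
    have e : k₁ + 1 + k = k₁ + k + 1 := by ring
    rw [e]
    calc ∫⁻ y in Gc d (k₁ + k + 1) \ Gc d (k₁ + k), F y ∂(wm volume σ) ≤
        ∫⁻ y in Gc d (k₁ + k + 1) \ Gc d (k₁ + k),
          c * (volume (Gc d (k₁ + k + 1))) ^ (-q) ∂(wm volume σ) :=
          setLIntegral_mono measurable_const (hfar k)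
      _ = c * (volume (Gc d (k₁ + k + 1))) ^ (-q) *
          wm volume σ (Gc d (k₁ + k + 1) \ Gc d (k₁ + k)) := by
          rw [lintegral_const, Measure.restrict_apply MeasurableSet.univ, Set.univ_inter]
      _ ≤ c * (volume (Gc d (k₁ + k + 1))) ^ (-q) * wm volume σ (Gc d (k₁ + k + 1)) :=
          mul_le_mul' le_rfl (measure_mono Set.sdiff_subset)
      _ = _ := by ring
  have h3 : ∑' k : ℕ, wm volume σ (Gc d (k₁ + 1 + k)) * (volume (Gc d (k₁ + 1 + k))) ^ (-q) ≤ D := by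
    apply ENNReal.tsum_le_of_sum_range_le
    intro n
    refine le_trans ?_ (hD (k₁ + 1 + n))
    rw [Finset.range_eq_Ico]
    have e := Finset.sum_Ico_add (fun k => wm volume σ (Gc d k) * (volume (Gc d k)) ^ (-q)) 0 n
      (k₁ + 1)
    rw [e]
    apply Finset.sum_le_sum_of_subset
    intro k hk
    rw [Finset.mem_Ico] at hk ⊢
    omega
  have h4 : ∫⁻ y in U, F y ∂(wm volume σ) ≤
      ENNReal.ofReal (Cs / ε ^ d) ^ q * wm volume σ (Gc d k₁) + c * D := by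
    calc ∫⁻ y in U, F y ∂(wm volume σ)
        ≤ ∫⁻ y in (U ∩ Gc d k₁) ∪ ⋃ k : ℕ, (Gc d (k₁ + k + 1) \ Gc d (k₁ + k)),
            F y ∂(wm volume σ) := lintegral_mono_set hcov
      _ ≤ ∫⁻ y in U ∩ Gc d k₁, F y ∂(wm volume σ) +
            ∫⁻ y in ⋃ k : ℕ, (Gc d (k₁ + k + 1) \ Gc d (k₁ + k)), F y ∂(wm volume σ) :=
          lintegral_union_le _ _ _
      _ ≤ ENNReal.ofReal (Cs / ε ^ d) ^ q * wm volume σ (Gc d k₁) +
            ∑' k : ℕ, ∫⁻ y in Gc d (k₁ + k + 1) \ Gc d (k₁ + k), F y ∂(wm volume σ) :=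
          add_le_add h1 (lintegral_iUnion_le _ _)
      _ ≤ ENNReal.ofReal (Cs / ε ^ d) ^ q * wm volume σ (Gc d k₁) +
            ∑' k : ℕ, c * (wm volume σ (Gc d (k₁ + 1 + k)) *
              (volume (Gc d (k₁ + 1 + k))) ^ (-q)) :=
          add_le_add le_rfl (ENNReal.tsum_le_tsum h2)
      _ ≤ _ := by
          rw [ENNReal.tsum_mul_left]
          exact add_le_add le_rfl (mul_le_mul' le_rfl h3)
  refine (lt_of_le_of_lt h4 (ENNReal.add_lt_top.2 ⟨?_, ?_⟩)).ne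
  · exact ENNReal.mul_lt_top (ENNReal.rpow_lt_top_of_nonneg hq.le ENNReal.ofReal_ne_top) (hσf _ _)
  · exact ENNReal.mul_lt_top (ENNReal.rpow_lt_top_of_nonneg hq.le ENNReal.ofReal_ne_top)
      ENNReal.coe_lt_top

/-- the truncated integrals converge absolutely -/
theorem trunc_int (hd : 0 < d) {p q : ℝ} (hpq : p.HolderConjugate q) (hT : IsCZO T K)
    (X : RINorm d) {B : ℝ≥0}
    (hM : X.MBound q B) {κ : ℝ≥0} {u σ : (Fin d → ℝ) → ℝ≥0} (hu : Measurable u) (hσ : Measurable σ)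
    (hσf : ∀ (t : Fin d → Bool) (I : Idx d), wm volume σ (gq t I) < ∞)
    (hb : ∀ a l, 0 < l → X.ρ (tau l (cube a l) (fun x => (u x : ℝ≥0∞) ^ (1 / p))) *
      ((∫⁻ x in cube a l, (σ x : ℝ≥0∞)) / volume (cube a l)) ^ (1 / q) ≤ κ)
    (hu0 : ¬ (∀ᵐ x, u x = 0)) {f : (Fin d → ℝ) → 𝕜} (hf : Measurable f)
    (hfp : ∫⁻ y, ‖f y‖ₑ ^ p ∂(wm volume σ) ≠ ∞) (x : Fin d → ℝ) {ε : ℝ} (hε : 0 < ε) :
    IntegrableOn (fun y => K x y * (((σ y : ℝ) : 𝕜) * f y)) {y | ε < el (x - y)} volume := by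
  have hp := hpq.pos
  have hq := hpq.symm.pos
  obtain ⟨Cs, hCs⟩ := hT.size
  set U : Set (Fin d → ℝ) := {y | ε < el (x - y)} with hU
  have hUm : MeasurableSet U := Pool.Agent.TH304.RI.trunc_meas x ε
  have hhm : Measurable (fun y => ((σ y : ℝ) : 𝕜) * f y) := by
    apply Measurable.mul _ hf
    exact RCLike.measurable_ofReal.comp hσ.coe_nnreal_real
  set F : (Fin d → ℝ) → ℝ≥0∞ := fun y => ENNReal.ofReal (|Cs| / el (x - y) ^ d) with hF
  have hFm : Measurable F := by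
    apply ENNReal.measurable_ofReal.comp
    apply measurable_const.div
    apply Measurable.pow_const
    exact (Pool.Agent.TH304.RI.el_cont.comp (continuous_const.sub continuous_id)).measurable
  have hLq := kernel_Lq hd hpq X hM hu hσ hσf hb hu0 |Cs| (abs_nonneg _) x hε
  refine ⟨(((hT.ker_meas hd x).mul hhm.aestronglyMeasurable)).restrict, ?_⟩
  rw [hasFiniteIntegral_iff_enorm]
  have hpt : ∀ y ∈ U, ‖K x y * (((σ y : ℝ) : 𝕜) * f y)‖ₑ ≤ (σ y : ℝ≥0∞) * (F y * ‖f y‖ₑ) := by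
    intro y hy
    have hy' : ε < el (x - y) := hy
    have hne : x ≠ y := by
      rintro rfl
      have : el (x - x) = 0 := by
        rw [sub_self]
        unfold el
        simp
      rw [this] at hy'
      linarith
    rw [enorm_mul, enorm_mul]
    have e1 : ‖((σ y : ℝ) : 𝕜)‖ₑ = (σ y : ℝ≥0∞) := by
      rw [← ofReal_norm, RCLike.norm_ofReal, abs_of_nonneg (NNReal.coe_nonneg _),
        ENNReal.ofReal_coe_nnreal]
    have e2 : ‖K x y‖ₑ ≤ F y := by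
      rw [← ofReal_norm]
      apply ENNReal.ofReal_le_ofReal
      refine (hCs x y hne).trans ?_
      apply div_le_div_of_nonneg_right (le_abs_self _)
      exact pow_nonneg (el_nonneg _) d
    rw [e1]
    calc ‖K x y‖ₑ * ((σ y : ℝ≥0∞) * ‖f y‖ₑ) = (σ y : ℝ≥0∞) * (‖K x y‖ₑ * ‖f y‖ₑ) := by ring
      _ ≤ _ := by gcongr
  calc ∫⁻ y in U, ‖K x y * (((σ y : ℝ) : 𝕜) * f y)‖ₑ
      ≤ ∫⁻ y in U, (σ y : ℝ≥0∞) * (F y * ‖f y‖ₑ) :=
        setLIntegral_mono (hσ.coe_nnreal_ennreal.mul (hFm.mul hf.enorm)) hpt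
    _ = ∫⁻ y in U, F y * ‖f y‖ₑ ∂(wm volume σ) := by
        have hg : Measurable (fun y => F y * ‖f y‖ₑ) := hFm.mul hf.enorm
        unfold wm
        rw [setLIntegral_withDensity_eq_setLIntegral_mul volume hσ.coe_nnreal_ennreal hg hUm]
        rfl
    _ ≤ (∫⁻ y in U, F y ^ q ∂(wm volume σ)) ^ (1 / q) *
          (∫⁻ y in U, ‖f y‖ₑ ^ p ∂(wm volume σ)) ^ (1 / p) :=
        ENNReal.lintegral_mul_le_Lp_mul_Lq _ hpq.symm hFm.aemeasurable hf.enorm.aemeasurable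
    _ < ∞ := by
        apply ENNReal.mul_lt_top
        · exact ENNReal.rpow_lt_top_of_nonneg (by positivity) hLq
        · apply ENNReal.rpow_lt_top_of_nonneg (by positivity)
          exact (lt_of_le_of_lt (setLIntegral_le_lintegral _ _) (lt_top_iff_ne_top.2 hfp)).ne

end Pool.Agent.TH279.RI
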