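import Pool.Agent.H433R3.Sep3

set_option autoImplicit false
set_option linter.unusedSectionVars false
set_option linter.unusedVariables false

namespace Pool.Agent.TH279.RI

open Finset Pool.Agent.H433R3.Sep

variable {X : Type*} [Fintype X] [DecidableEq X]

/-- mass of a set -/
def ms (f : X → ℝ) (Q : Finset X) : ℝ := ∑ x ∈ Q, f x

lemma ms_nonneg {f : X → ℝ} (hf : ∀ x, 0 ≤ f x) (Q : Finset X) : 0 ≤ ms f Q :=
  Finset.sum_nonneg (fun x _ => hf x)

lemma ms_mono {f : X → ℝ} (hf : ∀ x, 0 ≤ f x) {P Q : Finset X} (h : P ⊆ Q) : ms f P ≤ ms f Q :=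
  Finset.sum_le_sum_of_subset_of_nonneg h (fun x _ _ => hf x)

lemma ms_sum_le {f : X → ℝ} (hf : ∀ x, 0 ≤ f x) (A : Finset (Finset X)) (Q : Finset X)
    (hsub : ∀ D ∈ A, D ⊆ Q) (hdis : ∀ D ∈ A, ∀ D' ∈ A, D ≠ D' → Disjoint D D') :
    ∑ D ∈ A, ms f D ≤ ms f Q := by
  classical
  unfold ms
  rw [← Finset.sum_biUnion (fun A hA B hB hAB => hdis A hA B hB hAB)]
  apply Finset.sum_le_sum_of_subset_of_nonneg
  · intro x hx
    obtain ⟨D, hD, hxD⟩ := Finset.mem_biUnion.1 hx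
    exact hsub D hD hxD
  · intro x _ _; exact hf x

/-- total weight -/
def ut (M : Finset ℤ) (v : ℤ → X → ℝ) (x : X) : ℝ := ∑ m ∈ M, v m x

lemma ut_nonneg {M : Finset ℤ} {v : ℤ → X → ℝ} (hv : ∀ m x, 0 ≤ v m x) (x : X) : 0 ≤ ut M v x :=
  Finset.sum_nonneg (fun m _ => hv m x)

lemma ms_ut (M : Finset ℤ) (v : ℤ → X → ℝ) (Q : Finset X) :
    ms (ut M v) Q = ∑ m ∈ M, ms (v m) Q := by
  unfold ms ut
  rw [Finset.sum_comm]

lemma ms_le_ut {M : Finset ℤ} {v : ℤ → X → ℝ} (hv : ∀ m x, 0 ≤ v m x) {m : ℤ} (hm : m ∈ M)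
    (Q : Finset X) : ms (v m) Q ≤ ms (ut M v) Q := by
  rw [ms_ut]
  exact Finset.single_le_sum (f := fun m => ms (v m) Q) (fun m _ => ms_nonneg (hv m) Q) hm

/-! ### The tangent inequality -/

lemma young_term {p q : ℝ} (hpq : p.HolderConjugate q) {v u g U : ℝ} (hv : 0 ≤ v) (hu : 0 ≤ u)
    (hg : 0 < g) (hU : 0 < U) :
    v ^ (1 / p) * u ^ (1 / q) ≤ g ^ (1 / p) * U ^ (1 / q) * ((1 / p) * (v / g) + (1 / q) * (u / U)) := by
  have hp := hpq.pos
  have hq := hpq.symm.pos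
  have h1 := Real.geom_mean_le_arith_mean2_weighted (w₁ := 1 / p) (w₂ := 1 / q) (p₁ := v / g)
    (p₂ := u / U) (by positivity) (by positivity) (by positivity) (by positivity)
    (by simpa using hpq.inv_add_inv_eq_one)
  have e1 : v ^ (1 / p) = g ^ (1 / p) * (v / g) ^ (1 / p) := by
    rw [← Real.mul_rpow hg.le (by positivity)]
    congr 1; field_simp
  have e2 : u ^ (1 / q) = U ^ (1 / q) * (u / U) ^ (1 / q) := by
    rw [← Real.mul_rpow hU.le (by positivity)]
    congr 1; field_simp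
  rw [e1, e2]
  calc g ^ (1 / p) * (v / g) ^ (1 / p) * (U ^ (1 / q) * (u / U) ^ (1 / q))
      = g ^ (1 / p) * U ^ (1 / q) * ((v / g) ^ (1 / p) * (u / U) ^ (1 / q)) := by ring
    _ ≤ _ := mul_le_mul_of_nonneg_left h1 (by positivity)

/-- the constant `C₀` -/
noncomputable def CZ (p q : ℝ) : ℝ := (2 * q) ^ p

lemma young_bad {p q : ℝ} (hpq : p.HolderConjugate q) {v u g U : ℝ} (hv : 0 ≤ v) (hu : 0 ≤ u)
    (hg : 0 < g) (hU : 0 < U) (h : CZ p q * (v * U) ≤ g * u) :
    v ^ (1 / p) * u ^ (1 / q) ≤ g ^ (1 / p) * U ^ (1 / q) *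
      ((1 / p) * (v / g) + (1 / q) * (u / U) - (1 / (2 * q)) * (u / U)) := by
  have hp := hpq.pos
  have hq := hpq.symm.pos
  have hq2 : 0 < 2 * q := by positivity
  have hC : 0 < CZ p q := Real.rpow_pos_of_pos hq2 _
  have h1 : v / g ≤ (CZ p q)⁻¹ * (u / U) := by
    rw [inv_mul_eq_div, div_div, div_le_div_iff₀ hg (by positivity)]
    nlinarith
  have h2 : (v / g) ^ (1 / p) ≤ (1 / (2 * q)) * (u / U) ^ (1 / p) := by
    calc (v / g) ^ (1 / p) ≤ ((CZ p q)⁻¹ * (u / U)) ^ (1 / p) :=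
          Real.rpow_le_rpow (by positivity) h1 (by positivity)
      _ = (1 / (2 * q)) * (u / U) ^ (1 / p) := by
          rw [Real.mul_rpow (by positivity) (by positivity)]
          congr 1
          unfold CZ
          rw [← Real.rpow_neg hq2.le, ← Real.rpow_mul hq2.le]
          have : -p * (1 / p) = -1 := by field_simp
          rw [this, Real.rpow_neg_one, one_div]
  have h3 : (u / U) ^ (1 / p) * (u / U) ^ (1 / q) = u / U := by
    rcases eq_or_lt_of_le (show 0 ≤ u / U by positivity) with h0 | h0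
    · rw [← h0, Real.zero_rpow (by positivity), zero_mul]
    · rw [← Real.rpow_add h0]
      have : 1 / p + 1 / q = 1 := by simpa using hpq.inv_add_inv_eq_one
      rw [this, Real.rpow_one]
  have e1 : v ^ (1 / p) = g ^ (1 / p) * (v / g) ^ (1 / p) := by
    rw [← Real.mul_rpow hg.le (by positivity)]
    congr 1; field_simp
  have e2 : u ^ (1 / q) = U ^ (1 / q) * (u / U) ^ (1 / q) := by
    rw [← Real.mul_rpow hU.le (by positivity)]
    congr 1; field_simp
  rw [e1, e2]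
  calc g ^ (1 / p) * (v / g) ^ (1 / p) * (U ^ (1 / q) * (u / U) ^ (1 / q))
      = g ^ (1 / p) * U ^ (1 / q) * ((v / g) ^ (1 / p) * (u / U) ^ (1 / q)) := by ring
    _ ≤ g ^ (1 / p) * U ^ (1 / q) * ((1 / (2 * q)) * (u / U)) := by
        apply mul_le_mul_of_nonneg_left _ (by positivity)
        calc (v / g) ^ (1 / p) * (u / U) ^ (1 / q)
            ≤ (1 / (2 * q)) * (u / U) ^ (1 / p) * (u / U) ^ (1 / q) :=
              mul_le_mul_of_nonneg_right h2 (by positivity)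
          _ = (1 / (2 * q)) * (u / U) := by rw [mul_assoc, h3]
    _ ≤ _ := by
        apply mul_le_mul_of_nonneg_left _ (by positivity)
        have a1 : 0 ≤ (1 / p) * (v / g) := by positivity
        have a2 : (1 / q) * (u / U) = 2 * ((1 / (2 * q)) * (u / U)) := by field_simp
        linarith

/-- the potential `u(Q) Φ(Q)` -/
noncomputable def Psi (M : Finset ℤ) (v : ℤ → X → ℝ) (p q : ℝ) (Q : Finset X) : ℝ :=
  ∑ m ∈ M, ms (v m) Q ^ (1 / p) * ms (ut M v) Q ^ (1 / q)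

lemma Psi_nonneg {M : Finset ℤ} {v : ℤ → X → ℝ} (hv : ∀ m x, 0 ≤ v m x) (p q : ℝ)
    (Q : Finset X) : 0 ≤ Psi M v p q Q := by
  apply Finset.sum_nonneg
  intro m _
  have := ms_nonneg (hv m) Q
  have := ms_nonneg (ut_nonneg (M := M) hv) Q
  positivity

/-- level `m` is bad for the pair `P ⊆ G` -/
def isBad (M : Finset ℤ) (v : ℤ → X → ℝ) (p q : ℝ) (P G : Finset X) (m : ℤ) : Prop :=
  CZ p q * (ms (v m) P * ms (ut M v) G) ≤ ms (v m) G * ms (ut M v) P

open Classical in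
lemma potential_step {p q : ℝ} (hpq : p.HolderConjugate q) {M : Finset ℤ} {v : ℤ → X → ℝ}
    (hv : ∀ m x, 0 ≤ v m x) (𝒟 : Finset (Finset X)) (Q : Finset X) (hQ : 0 < ms (ut M v) Q)
    (hsub : ∀ D ∈ 𝒟, D ⊆ Q) (hdis : ∀ D ∈ 𝒟, ∀ D' ∈ 𝒟, D ≠ D' → Disjoint D D')
    (ℬ : Finset (Finset X)) (hℬ : ℬ ⊆ 𝒟)
    (hbad : ∀ P ∈ ℬ, ms (ut M v) Q ≤ 2 * ∑ m ∈ M with isBad M v p q P Q m, ms (v m) Q) :
    ∑ D ∈ 𝒟, Psi M v p q D + (1 / (4 * q)) * ∑ P ∈ ℬ, ms (ut M v) P ≤ Psi M v p q Q := by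
  have hp := hpq.pos
  have hq := hpq.symm.pos
  set U := ms (ut M v) with hU
  have hU0 : ∀ D, 0 ≤ U D := ms_nonneg (ut_nonneg hv)
  have hV0 : ∀ m D, 0 ≤ ms (v m) D := fun m D => ms_nonneg (hv m) D
  have key : ∀ m ∈ M, ∑ D ∈ 𝒟, ms (v m) D ^ (1 / p) * U D ^ (1 / q) +
      (1 / (2 * q)) * ∑ P ∈ ℬ, (if isBad M v p q P Q m then ms (v m) Q * (U P / U Q) else 0) ≤
      ms (v m) Q ^ (1 / p) * U Q ^ (1 / q) := by
    intro m hm
    rcases eq_or_lt_of_le (hV0 m Q) with h0 | h0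
    · have h1 : ∀ D ∈ 𝒟, ms (v m) D ^ (1 / p) * U D ^ (1 / q) = 0 := by
        intro D hD
        have : ms (v m) D = 0 :=
          le_antisymm ((ms_mono (hv m) (hsub D hD)).trans h0.symm.le) (hV0 m D)
        rw [this, Real.zero_rpow (by positivity), zero_mul]
      rw [Finset.sum_eq_zero h1, ← h0]
      simp only [zero_mul, ite_self, Finset.sum_const_zero, mul_zero, add_zero]
      rw [Real.zero_rpow (by positivity), zero_mul]
    · set A := ms (v m) Q ^ (1 / p) * U Q ^ (1 / q) with hA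
      have hA0 : 0 < A := by positivity
      have hAge : ms (v m) Q ≤ A := by
        have h1 : ms (v m) Q ^ (1 / q) ≤ U Q ^ (1 / q) :=
          Real.rpow_le_rpow h0.le (ms_le_ut hv hm Q) (by positivity)
        calc ms (v m) Q = ms (v m) Q ^ (1 / p) * ms (v m) Q ^ (1 / q) := by
              rw [← Real.rpow_add h0]
              have : 1 / p + 1 / q = 1 := by simpa using hpq.inv_add_inv_eq_one
              rw [this, Real.rpow_one]
          _ ≤ A := mul_le_mul_of_nonneg_left h1 (by positivity)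
      have hterm : ∀ D ∈ 𝒟, ms (v m) D ^ (1 / p) * U D ^ (1 / q) ≤
          A * ((1 / p) * (ms (v m) D / ms (v m) Q) + (1 / q) * (U D / U Q) -
            (1 / (2 * q)) * (if D ∈ ℬ ∧ isBad M v p q D Q m then U D / U Q else 0)) := by
        intro D hD
        by_cases hb : D ∈ ℬ ∧ isBad M v p q D Q m
        · rw [if_pos hb]
          exact young_bad hpq (hV0 m D) (hU0 D) h0 hQ hb.2
        · rw [if_neg hb, mul_zero, sub_zero]
          exact young_term hpq (hV0 m D) (hU0 D) h0 hQ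
      have hs1 : ∑ D ∈ 𝒟, ms (v m) D / ms (v m) Q ≤ 1 := by
        rw [← Finset.sum_div, div_le_one h0]
        exact ms_sum_le (hv m) 𝒟 Q hsub hdis
      have hs2 : ∑ D ∈ 𝒟, U D / U Q ≤ 1 := by
        rw [← Finset.sum_div, div_le_one hQ]
        exact ms_sum_le (ut_nonneg hv) 𝒟 Q hsub hdis
      have hs3 : ∑ D ∈ 𝒟, (if D ∈ ℬ ∧ isBad M v p q D Q m then U D / U Q else 0) =
          ∑ P ∈ ℬ, (if isBad M v p q P Q m then U P / U Q else 0) := by
        rw [← Finset.sum_subset hℬ]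
        · apply Finset.sum_congr rfl
          intro P hP
          simp only [hP, true_and]
        · intro D _ hD
          rw [if_neg (fun h => hD h.1)]
      have hs4 : ∑ P ∈ ℬ, (if isBad M v p q P Q m then ms (v m) Q * (U P / U Q) else 0) ≤
          A * ∑ P ∈ ℬ, (if isBad M v p q P Q m then U P / U Q else 0) := by
        rw [Finset.mul_sum]
        apply Finset.sum_le_sum
        intro P _
        split_ifs
        · apply mul_le_mul_of_nonneg_right hAge
          have := hU0 P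
          positivity
        · simp
      have hs5 := Finset.sum_le_sum hterm
      have hs6 : ∑ D ∈ 𝒟, A * ((1 / p) * (ms (v m) D / ms (v m) Q) + (1 / q) * (U D / U Q) -
            (1 / (2 * q)) * (if D ∈ ℬ ∧ isBad M v p q D Q m then U D / U Q else 0)) =
          A * ((1 / p) * ∑ D ∈ 𝒟, (ms (v m) D / ms (v m) Q) + (1 / q) * ∑ D ∈ 𝒟, (U D / U Q) -
            (1 / (2 * q)) * ∑ D ∈ 𝒟, (if D ∈ ℬ ∧ isBad M v p q D Q m then U D / U Q else 0)) := by
        rw [← Finset.mul_sum, Finset.sum_sub_distrib, Finset.sum_add_distrib, ← Finset.mul_sum,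
          ← Finset.mul_sum, ← Finset.mul_sum]
      rw [hs6, hs3] at hs5
      set S1 := ∑ P ∈ ℬ, (if isBad M v p q P Q m then U P / U Q else 0)
      have h7 : A * ((1 / p) * ∑ D ∈ 𝒟, (ms (v m) D / ms (v m) Q) + (1 / q) * ∑ D ∈ 𝒟, (U D / U Q) -
            (1 / (2 * q)) * S1) ≤ A * (1 - (1 / (2 * q)) * S1) := by
        apply mul_le_mul_of_nonneg_left _ hA0.le
        have e1 : 1 / p + 1 / q = 1 := by simpa using hpq.inv_add_inv_eq_one
        have e2 : (1 / p) * ∑ D ∈ 𝒟, (ms (v m) D / ms (v m) Q) ≤ 1 / p := by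
          calc _ ≤ (1 / p) * 1 := mul_le_mul_of_nonneg_left hs1 (by positivity)
            _ = _ := mul_one _
        have e3 : (1 / q) * ∑ D ∈ 𝒟, (U D / U Q) ≤ 1 / q := by
          calc _ ≤ (1 / q) * 1 := mul_le_mul_of_nonneg_left hs2 (by positivity)
            _ = _ := mul_one _
        linarith
      have h8 : (1 / (2 * q)) * ∑ P ∈ ℬ, (if isBad M v p q P Q m then ms (v m) Q * (U P / U Q) else 0)
          ≤ (1 / (2 * q)) * (A * S1) := mul_le_mul_of_nonneg_left hs4 (by positivity)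
      nlinarith
  have hsum := Finset.sum_le_sum key
  rw [Finset.sum_add_distrib, ← Finset.mul_sum, Finset.sum_comm, Finset.sum_comm (s := M) (t := ℬ)] at hsum
  have h1 : ∑ D ∈ 𝒟, ∑ m ∈ M, ms (v m) D ^ (1 / p) * U D ^ (1 / q) = ∑ D ∈ 𝒟, Psi M v p q D := rfl
  have h2 : ∑ m ∈ M, ms (v m) Q ^ (1 / p) * U Q ^ (1 / q) = Psi M v p q Q := rfl
  rw [h1, h2] at hsum
  refine le_trans ?_ hsum
  apply add_le_add le_rfl
  have h3 : ∀ P ∈ ℬ, (1 / 2) * U P ≤
      ∑ m ∈ M, (if isBad M v p q P Q m then ms (v m) Q * (U P / U Q) else 0) := by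
    intro P hP
    rw [← Finset.sum_filter, ← Finset.sum_mul]
    have h4 := hbad P hP
    have h5 : (1 / 2) * U P = (1 / 2 * U Q) * (U P / U Q) := by field_simp
    rw [h5]
    apply mul_le_mul_of_nonneg_right _ (by have := hU0 P; positivity)
    linarith
  calc (1 / (4 * q)) * ∑ P ∈ ℬ, U P = (1 / (2 * q)) * ∑ P ∈ ℬ, (1 / 2) * U P := by
        rw [← Finset.mul_sum]
        field_simp
        ring
    _ ≤ _ := mul_le_mul_of_nonneg_left (Finset.sum_le_sum h3) (by positivity)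

end Pool.Agent.TH279.RI
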