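import Pool.Agent.TH279.RI.Core1

set_option autoImplicit false
set_option linter.unusedSectionVars false
set_option linter.unusedVariables false

namespace Pool.Agent.TH279.RI

open Finset Pool.Agent.H433R3.Sep

variable {X : Type*} [Fintype X] [DecidableEq X]

lemma sum_le_sum_cover {α : Type*} [DecidableEq α] (A B : Finset α) (c : α → Finset α)
    (f : α → ℝ) (hf : ∀ a, 0 ≤ f a) (hcov : ∀ a ∈ A, ∃ b ∈ B, a ∈ c b) :
    ∑ a ∈ A, f a ≤ ∑ b ∈ B, ∑ a ∈ c b, f a := by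
  calc ∑ a ∈ A, f a ≤ ∑ a ∈ B.biUnion c, f a := by
        apply Finset.sum_le_sum_of_subset_of_nonneg
        · intro a ha
          obtain ⟨b, hb, hab⟩ := hcov a ha
          exact Finset.mem_biUnion.2 ⟨b, hb, hab⟩
        · intro a _ _; exact hf a
    _ ≤ _ := by
        clear hcov
        induction B using Finset.induction_on with
        | empty => simp
        | insert b B hb ih =>
          rw [Finset.biUnion_insert, Finset.sum_insert hb]
          have h1 := Finset.sum_union_inter (s₁ := c b) (s₂ := B.biUnion c) (f := f)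
          have h2 : 0 ≤ ∑ a ∈ c b ∩ B.biUnion c, f a := Finset.sum_nonneg (fun a _ => hf a)
          linarith

open Classical in
lemma potential_ind {p q : ℝ} (hpq : p.HolderConjugate q) {M : Finset ℤ} {v : ℤ → X → ℝ}
    (hv : ∀ m x, 0 ≤ v m x) (S : Finset (Finset X)) (hS : Lam S)
    (hu : ∀ Q ∈ S, 0 < ms (ut M v) Q)
    (PP : Finset (Finset X)) (hPP : PP ⊆ S) (G : Finset X → Finset X)
    (hG : ∀ P ∈ PP, G P ∈ S ∧ P ⊂ G P)
    (hbad : ∀ P ∈ PP, ms (ut M v) (G P) ≤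
      2 * ∑ m ∈ M with isBad M v p q P (G P) m, ms (v m) (G P))
    (hA : ∀ P ∈ PP, ∀ P' ∈ PP, G P = G P' → P ≠ P' → Disjoint P P')
    (hB : ∀ P ∈ PP, ∀ P' ∈ PP, G P' ⊂ G P → G P' ⊆ P ∨ Disjoint (G P') P) :
    ∀ n : ℕ, ∀ Q ∈ S, Q.card ≤ n →
      (1 / (4 * q)) * ∑ P ∈ PP with G P ⊆ Q, ms (ut M v) P ≤ Psi M v p q Q := by
  have hq := hpq.symm.pos
  intro n
  induction n with
  | zero =>
    intro Q hQ hn
    have := hS.1 Q hQ
    rw [Nat.le_zero, Finset.card_eq_zero] at hn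
    exact absurd hn this.ne_empty
  | succ n ih =>
    intro Q hQ hn
    set ℬ := PP.filter (fun P => G P = Q) with hℬ
    set ℱ := ℬ ∪ (PP.filter (fun P => G P ⊂ Q)).image G with hℱ
    have hℱS : ℱ ⊆ S := by
      intro D hD
      rcases Finset.mem_union.1 hD with h | h
      · exact hPP (Finset.mem_filter.1 h).1
      · obtain ⟨P, hP, rfl⟩ := Finset.mem_image.1 h
        exact (hG P (Finset.mem_filter.1 hP).1).1
    have hℱQ : ∀ D ∈ ℱ, D ⊂ Q := by
      intro D hD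
      rcases Finset.mem_union.1 hD with h | h
      · have h' := Finset.mem_filter.1 h
        rw [← h'.2]
        exact (hG D h'.1).2
      · obtain ⟨P, hP, rfl⟩ := Finset.mem_image.1 h
        exact (Finset.mem_filter.1 hP).2
    obtain ⟨𝒟, h𝒟ℱ, h𝒟dis, h𝒟cov⟩ := maxels ℱ (hS.mono hℱS)
    have hℬ𝒟 : ℬ ⊆ 𝒟 := by
      intro P hP
      obtain ⟨hPPP, hGP⟩ := Finset.mem_filter.1 hP
      have hPne : P.Nonempty := hS.1 P (hPP hPPP)
      obtain ⟨D, hD, hPD⟩ := h𝒟cov P (Finset.mem_union_left _ hP)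
      have hPeq : P = D := by
        rcases Finset.mem_union.1 (h𝒟ℱ hD) with h | h
        · obtain ⟨hDPP, hGD⟩ := Finset.mem_filter.1 h
          by_contra hne
          have := hA P hPPP D hDPP (hGP.trans hGD.symm) hne
          obtain ⟨x, hx⟩ := hPne
          exact Finset.disjoint_left.1 this hx (hPD hx)
        · obtain ⟨P', hP', rfl⟩ := Finset.mem_image.1 h
          obtain ⟨hP'PP, hGP'⟩ := Finset.mem_filter.1 hP'
          rcases hB P hPPP P' hP'PP (by rw [hGP]; exact hGP') with h1 | h1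
          · exact Finset.Subset.antisymm hPD h1
          · obtain ⟨x, hx⟩ := hPne
            exact absurd hx (Finset.disjoint_left.1 h1 (hPD hx))
      rw [hPeq]; exact hD
    have hstep := potential_step hpq hv 𝒟 Q (hu Q hQ) (fun D hD => (hℱQ D (h𝒟ℱ hD)).1) h𝒟dis ℬ hℬ𝒟
      (by
        intro P hP
        obtain ⟨hPPP, hGP⟩ := Finset.mem_filter.1 hP
        have := hbad P hPPP
        rw [hGP] at this
        exact this)
    have hIH : ∀ D ∈ 𝒟, (1 / (4 * q)) * ∑ P ∈ PP with G P ⊆ D, ms (ut M v) P ≤ Psi M v p q D := by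
      intro D hD
      apply ih D (hℱS (h𝒟ℱ hD))
      have := Finset.card_lt_card (hℱQ D (h𝒟ℱ hD))
      omega
    have hsplit : ∑ P ∈ PP with G P ⊆ Q, ms (ut M v) P ≤
        ∑ P ∈ ℬ, ms (ut M v) P + ∑ D ∈ 𝒟, ∑ P ∈ PP with G P ⊆ D, ms (ut M v) P := by
      have h1 : PP.filter (fun P => G P ⊆ Q) = ℬ ∪ PP.filter (fun P => G P ⊂ Q) := by
        ext P
        simp only [hℬ, Finset.mem_union, Finset.mem_filter]
        constructor
        · rintro ⟨h2, h3⟩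
          rcases eq_or_ssubset_of_subset h3 with h4 | h4
          · exact Or.inl ⟨h2, h4⟩
          · exact Or.inr ⟨h2, h4⟩
        · rintro (⟨h2, h3⟩ | ⟨h2, h3⟩)
          · exact ⟨h2, h3 ▸ subset_rfl⟩
          · exact ⟨h2, h3.1⟩
      rw [h1, Finset.sum_union (by
        rw [Finset.disjoint_left]
        intro P hP hP'
        have h2 := (Finset.mem_filter.1 hP).2
        have h3 := (Finset.mem_filter.1 hP').2
        rw [h2] at h3
        exact (lt_irrefl _ h3))]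
      apply add_le_add le_rfl
      apply sum_le_sum_cover _ 𝒟 (fun D => PP.filter (fun P => G P ⊆ D)) _
        (fun P => ms_nonneg (ut_nonneg hv) P)
      intro P hP
      obtain ⟨hPPP, hGP⟩ := Finset.mem_filter.1 hP
      obtain ⟨D, hD, hsub⟩ := h𝒟cov (G P) (Finset.mem_union_right _ (Finset.mem_image_of_mem _ hP))
      exact ⟨D, hD, Finset.mem_filter.2 ⟨hPPP, hsub⟩⟩
    have hq4 : 0 < 1 / (4 * q) := by positivity
    calc (1 / (4 * q)) * ∑ P ∈ PP with G P ⊆ Q, ms (ut M v) P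
        ≤ (1 / (4 * q)) * (∑ P ∈ ℬ, ms (ut M v) P +
            ∑ D ∈ 𝒟, ∑ P ∈ PP with G P ⊆ D, ms (ut M v) P) :=
          mul_le_mul_of_nonneg_left hsplit hq4.le
      _ = (1 / (4 * q)) * ∑ P ∈ ℬ, ms (ut M v) P +
            ∑ D ∈ 𝒟, (1 / (4 * q)) * ∑ P ∈ PP with G P ⊆ D, ms (ut M v) P := by
          rw [mul_add, Finset.mul_sum (s := 𝒟)]
      _ ≤ (1 / (4 * q)) * ∑ P ∈ ℬ, ms (ut M v) P + ∑ D ∈ 𝒟, Psi M v p q D :=
          add_le_add le_rfl (Finset.sum_le_sum hIH)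
      _ ≤ Psi M v p q Q := by linarith

open Classical in
/-- The potential lemma. -/
lemma potential_total {p q : ℝ} (hpq : p.HolderConjugate q) {M : Finset ℤ} {v : ℤ → X → ℝ}
    (hv : ∀ m x, 0 ≤ v m x) (S : Finset (Finset X)) (hS : Lam S)
    (hu : ∀ Q ∈ S, 0 < ms (ut M v) Q)
    (PP : Finset (Finset X)) (hPP : PP ⊆ S) (G : Finset X → Finset X)
    (hG : ∀ P ∈ PP, G P ∈ S ∧ P ⊂ G P)
    (hbad : ∀ P ∈ PP, ms (ut M v) (G P) ≤
      2 * ∑ m ∈ M with isBad M v p q P (G P) m, ms (v m) (G P))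
    (hA : ∀ P ∈ PP, ∀ P' ∈ PP, G P = G P' → P ≠ P' → Disjoint P P')
    (hB : ∀ P ∈ PP, ∀ P' ∈ PP, G P' ⊂ G P → G P' ⊆ P ∨ Disjoint (G P') P)
    (hC : ∀ P ∈ PP, ∀ P' ∈ PP, P' ⊂ P → G P' ⊆ P)
    (R : Finset X) (hR : ∀ P ∈ PP, P ⊆ R) (L : ℝ) (hL0 : 0 ≤ L)
    (hL : ∀ P ∈ PP, Psi M v p q P ≤ L * ms (ut M v) P) :
    ∑ P ∈ PP, ms (ut M v) P ≤ (1 + 4 * q * L) * ms (ut M v) R := by
  have hq := hpq.symm.pos
  obtain ⟨𝒟, h𝒟PP, h𝒟dis, h𝒟cov⟩ := maxels PP (hS.mono hPP)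
  have hind := potential_ind hpq hv S hS hu PP hPP G hG hbad hA hB
  have h1 : ∑ P ∈ PP, ms (ut M v) P ≤
      ∑ D ∈ 𝒟, ∑ P ∈ insert D (PP.filter (fun P => G P ⊆ D)), ms (ut M v) P := by
    apply sum_le_sum_cover _ 𝒟 (fun D => insert D (PP.filter (fun P => G P ⊆ D))) _
      (fun P => ms_nonneg (ut_nonneg hv) P)
    intro P hP
    obtain ⟨D, hD, hPD⟩ := h𝒟cov P hP
    refine ⟨D, hD, ?_⟩
    rcases eq_or_ssubset_of_subset hPD with h | h
    · rw [h]; exact Finset.mem_insert_self _ _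
    · exact Finset.mem_insert_of_mem (Finset.mem_filter.2 ⟨hP, hC D (h𝒟PP hD) P hP h⟩)
  have h2 : ∀ D ∈ 𝒟, ∑ P ∈ insert D (PP.filter (fun P => G P ⊆ D)), ms (ut M v) P ≤
      (1 + 4 * q * L) * ms (ut M v) D := by
    intro D hD
    have hDPP := h𝒟PP hD
    have h3 : D ∉ PP.filter (fun P => G P ⊆ D) := by
      intro hc
      have := (Finset.mem_filter.1 hc).2
      exact (hG D hDPP).2.2 this
    rw [Finset.sum_insert h3]
    have h4 := hind D.card D (hPP hDPP) le_rfl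
    have h5 := h4.trans (hL D hDPP)
    have h6 : ∑ P ∈ PP with G P ⊆ D, ms (ut M v) P ≤ 4 * q * (L * ms (ut M v) D) := by
      rw [one_div, inv_mul_le_iff₀ (by positivity)] at h5
      exact h5
    linarith
  calc ∑ P ∈ PP, ms (ut M v) P
      ≤ ∑ D ∈ 𝒟, ∑ P ∈ insert D (PP.filter (fun P => G P ⊆ D)), ms (ut M v) P := h1
    _ ≤ ∑ D ∈ 𝒟, (1 + 4 * q * L) * ms (ut M v) D := Finset.sum_le_sum h2
    _ = (1 + 4 * q * L) * ∑ D ∈ 𝒟, ms (ut M v) D := by rw [Finset.mul_sum]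
    _ ≤ _ := mul_le_mul_of_nonneg_left
        (ms_sum_le (ut_nonneg hv) 𝒟 R (fun D hD => hR D (h𝒟PP hD)) h𝒟dis) (by positivity)

end Pool.Agent.TH279.RI
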