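import Pool.Agent.TH279.RI.Core2

set_option autoImplicit false
set_option linter.unusedSectionVars false
set_option linter.unusedVariables false

namespace Pool.Agent.TH279.RI

open Finset Pool.Agent.H433R3.Sep

variable {X : Type*} [Fintype X] [DecidableEq X]

/-- Exponential decay of the nesting function. -/
lemma decay2 (S : Finset (Finset X)) (hS : Lam S) (m : X → ℝ) (hm : ∀ x, 0 ≤ m x)
    (hH : ∀ Q ∈ S, 2 * ms m ((S.filter (fun A => A ⊂ Q)).biUnion id) ≤ ms m Q) :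
    ∀ n : ℕ, ∀ H ∈ S, 2 ^ n * ms m (H.filter (fun x => n ≤ (S.filter (fun Q => x ∈ Q ∧ Q ⊂ H)).card)) ≤
      ms m H := by
  classical
  intro n
  induction n with
  | zero =>
    intro H hH'
    simp
  | succ n ih =>
    intro H hHS
    obtain ⟨M, hMG, hMdis, hMcov⟩ := maxels (S.filter (fun A => A ⊂ H))
      (hS.mono (Finset.filter_subset _ _))
    have hMS : ∀ A ∈ M, A ∈ S := fun A hA => (Finset.mem_filter.1 (hMG hA)).1
    have hMH : ∀ A ∈ M, A ⊂ H := fun A hA => (Finset.mem_filter.1 (hMG hA)).2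
    -- inclusion of the level set
    have hincl : (H.filter (fun x => n + 1 ≤ (S.filter (fun Q => x ∈ Q ∧ Q ⊂ H)).card)) ⊆
        M.biUnion (fun A => A.filter (fun x => n ≤ (S.filter (fun Q => x ∈ Q ∧ Q ⊂ A)).card)) := by
      intro x hx
      simp only [Finset.mem_filter] at hx
      have hpos : 0 < (S.filter (fun Q => x ∈ Q ∧ Q ⊂ H)).card := by omega
      obtain ⟨Q, hQ⟩ := Finset.card_pos.1 hpos
      simp only [Finset.mem_filter] at hQ
      obtain ⟨A, hA, hQA⟩ := hMcov Q (by simp only [Finset.mem_filter]; exact ⟨hQ.1, hQ.2.2⟩)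
      have hxA : x ∈ A := hQA hQ.2.1
      refine Finset.mem_biUnion.2 ⟨A, hA, ?_⟩
      simp only [Finset.mem_filter]
      refine ⟨hxA, ?_⟩
      have hsub : S.filter (fun Q => x ∈ Q ∧ Q ⊂ H) ⊆
          insert A (S.filter (fun Q => x ∈ Q ∧ Q ⊂ A)) := by
        intro B hB
        simp only [Finset.mem_filter] at hB
        simp only [Finset.mem_insert, Finset.mem_filter]
        rcases hS.comp hB.1 (hMS A hA) hB.2.1 hxA with h | h
        · rcases eq_or_ssubset_of_subset h with h | h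
          · exact Or.inl h
          · exact Or.inr ⟨hB.1, hB.2.1, h⟩
        · exfalso
          obtain ⟨A', hA', hBA'⟩ := hMcov B (by
            simp only [Finset.mem_filter]; exact ⟨hB.1, hB.2.2⟩)
          have hAA' : A ⊂ A' := lt_of_lt_of_le h hBA'
          have hne : A ≠ A' := (Finset.ssubset_iff_subset_ne.1 hAA').2
          exact Finset.disjoint_left.1 (hMdis A hA A' hA' hne) hxA (hAA'.1 hxA)
      have h1 := Finset.card_le_card hsub
      have h2 := Finset.card_insert_le A (S.filter (fun Q => x ∈ Q ∧ Q ⊂ A))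
      omega
    have h1 : ms m (H.filter (fun x => n + 1 ≤ (S.filter (fun Q => x ∈ Q ∧ Q ⊂ H)).card)) ≤
        ∑ A ∈ M, ms m (A.filter (fun x => n ≤ (S.filter (fun Q => x ∈ Q ∧ Q ⊂ A)).card)) := by
      unfold ms
      rw [← Finset.sum_biUnion (fun A hA B hB hAB => Finset.disjoint_of_subset_left
        (Finset.filter_subset _ _) (Finset.disjoint_of_subset_right (Finset.filter_subset _ _)
          (hMdis A hA B hB hAB)))]
      exact Finset.sum_le_sum_of_subset_of_nonneg hincl (fun x _ _ => hm x)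
    have h2 : ∑ A ∈ M, ms m A ≤ ms m ((S.filter (fun A => A ⊂ H)).biUnion id) := by
      apply ms_sum_le hm M _ _ hMdis
      intro A hA x hx
      exact Finset.mem_biUnion.2 ⟨A, hMG hA, hx⟩
    have h3 := hH H hHS
    calc 2 ^ (n + 1) * ms m (H.filter (fun x => n + 1 ≤ (S.filter (fun Q => x ∈ Q ∧ Q ⊂ H)).card))
        ≤ 2 ^ (n + 1) * ∑ A ∈ M, ms m (A.filter
            (fun x => n ≤ (S.filter (fun Q => x ∈ Q ∧ Q ⊂ A)).card)) :=
          mul_le_mul_of_nonneg_left h1 (by positivity)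
      _ = 2 * ∑ A ∈ M, 2 ^ n * ms m (A.filter
            (fun x => n ≤ (S.filter (fun Q => x ∈ Q ∧ Q ⊂ A)).card)) := by
          rw [← Finset.mul_sum]; ring
      _ ≤ 2 * ∑ A ∈ M, ms m A := by
          apply mul_le_mul_of_nonneg_left _ (by norm_num)
          exact Finset.sum_le_sum (fun A hA => ih A (hMS A hA))
      _ ≤ ms m H := by linarith

/-- The data of the testing theorem, in discrete form. -/
structure Core (S : Finset (Finset X)) (M : Finset ℤ) (w : X → ℝ) (v : ℤ → X → ℝ) (s : X → ℝ)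
    (N : Finset X → Finset ℤ → ℝ) (p q C1 C2 C3 : ℝ) : Prop where
  hpq : p.HolderConjugate q
  lam : Lam S
  hw : ∀ x, 0 ≤ w x
  hv : ∀ m x, 0 ≤ v m x
  hs : ∀ x, 0 ≤ s x
  wpos : ∀ Q ∈ S, 0 < ms w Q
  upos : ∀ Q ∈ S, 0 < ms (ut M v) Q
  half : ∀ Q ∈ S, 2 * ms w ((S.filter (fun A => A ⊂ Q)).biUnion id) ≤ ms w Q
  C1pos : 0 < C1
  C2pos : 0 < C2
  C3pos : 0 < C3
  Npos : ∀ Q ∈ S, ∀ J ⊆ M, ms (ut M v) Q ≤ 2 * ∑ m ∈ J, ms (v m) Q → 0 < N Q J
  h1 : ∀ A ⊆ S, ∀ R : Finset X, (∀ Q ∈ A, Q ⊆ R) → ∀ J : Finset X → Finset ℤ,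
      (∀ Q ∈ A, J Q ⊆ M ∧ ms (ut M v) Q ≤ 2 * ∑ m ∈ J Q, ms (v m) Q) →
      ∑ Q ∈ A, ms w Q * (ms (ut M v) Q / ms w Q) ^ q / N Q (J Q) ^ q ≤ C1 * ms (ut M v) R
  h2 : ∀ Q ∈ S, ∑ m ∈ M, (ms (v m) Q) ^ (1 / p) ≤ C2 * N Q M * ms w Q ^ (1 / p)
  h3 : ∀ P ∈ S, ∀ G ∈ S, P ⊆ G → ∀ J ⊆ M,
      (∀ m ∈ J, ms (v m) G * ms w P ≤ (2 * CZ p q) * (ms (v m) P * ms w G)) → N G J ≤ C3 * N P M
  h4 : ∀ Q ∈ S, N Q M ^ q * ms s Q ≤ ms w Q

section facts

variable {S : Finset (Finset X)} {M : Finset ℤ} {w : X → ℝ} {v : ℤ → X → ℝ} {s : X → ℝ}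
    {N : Finset X → Finset ℤ → ℝ} {p q C1 C2 C3 : ℝ}

/-- average of `u` -/
noncomputable def aa (M : Finset ℤ) (w : X → ℝ) (v : ℤ → X → ℝ) (Q : Finset X) : ℝ :=
  ms (ut M v) Q / ms w Q

/-- level -/
noncomputable def lev (M : Finset ℤ) (w : X → ℝ) (v : ℤ → X → ℝ) (Q : Finset X) : ℤ :=
  Int.log 2 (aa M w v Q)

/-- generation within a level -/
noncomputable def gn (S : Finset (Finset X)) (M : Finset ℤ) (w : X → ℝ) (v : ℤ → X → ℝ)
    (Q : Finset X) : ℕ := (anc S (fun _ => ∅) (lev M w v) Q).card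

lemma Core.aa_pos (h : Core S M w v s N p q C1 C2 C3) {Q : Finset X} (hQ : Q ∈ S) :
    0 < aa M w v Q := div_pos (h.upos Q hQ) (h.wpos Q hQ)

lemma Core.aa_mul (h : Core S M w v s N p q C1 C2 C3) {Q : Finset X} (hQ : Q ∈ S) :
    aa M w v Q * ms w Q = ms (ut M v) Q := by
  unfold aa
  have := (h.wpos Q hQ).ne'
  field_simp

lemma Core.le_aa (h : Core S M w v s N p q C1 C2 C3) {Q : Finset X} (hQ : Q ∈ S) :
    (2 : ℝ) ^ lev M w v Q ≤ aa M w v Q := by
  have := Int.zpow_log_le_self (b := 2) (by norm_num) (h.aa_pos hQ)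
  push_cast at this
  exact this

lemma aa_le (M : Finset ℤ) (w : X → ℝ) (v : ℤ → X → ℝ) (Q : Finset X) :
    aa M w v Q ≤ 2 * (2 : ℝ) ^ lev M w v Q := by
  have := (Int.lt_zpow_succ_log_self (b := 2) (by norm_num) (aa M w v Q)).le
  rw [zpow_add₀ (by norm_num)] at this
  push_cast at this
  unfold lev
  linarith

lemma Core.aa_cmp (h : Core S M w v s N p q C1 C2 C3) {P Q : Finset X} (hQ : Q ∈ S)
    (hl : lev M w v P = lev M w v Q) : aa M w v P ≤ 2 * aa M w v Q := by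
  have h1 := aa_le M w v P
  have h2 := h.le_aa hQ
  rw [hl] at h1
  linarith

lemma Core.q_pos (h : Core S M w v s N p q C1 C2 C3) : 0 < q := h.hpq.symm.pos

lemma Core.NM_pos (h : Core S M w v s N p q C1 C2 C3) {Q : Finset X} (hQ : Q ∈ S) :
    0 < N Q M := by
  apply h.Npos Q hQ M subset_rfl
  rw [ms_ut]
  have : 0 ≤ ∑ m ∈ M, ms (v m) Q := Finset.sum_nonneg (fun m _ => ms_nonneg (h.hv m) Q)
  linarith

lemma Core.s_le (h : Core S M w v s N p q C1 C2 C3) {Q : Finset X} (hQ : Q ∈ S) :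
    ms s Q ≤ ms w Q / N Q M ^ q := by
  rw [le_div_iff₀ (Real.rpow_pos_of_pos (h.NM_pos hQ) _), mul_comm]
  exact h.h4 Q hQ

/-- the maximal function bound -/
lemma Core.max_le (h : Core S M w v s N p q C1 C2 C3) (A : Finset (Finset X)) (hA : A ⊆ S)
    (R : Finset X) (hR : ∀ Q ∈ A, Q ⊆ R) :
    ∑ Q ∈ A, aa M w v Q ^ q * ms s Q ≤ C1 * ms (ut M v) R := by
  have h1 := h.h1 A hA R hR (fun _ => M) (by
    intro Q hQ
    refine ⟨subset_rfl, ?_⟩
    rw [ms_ut]
    have : 0 ≤ ∑ m ∈ M, ms (v m) Q := Finset.sum_nonneg (fun m _ => ms_nonneg (h.hv m) Q)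
    linarith)
  refine le_trans (Finset.sum_le_sum ?_) h1
  intro Q hQ
  have h2 := h.s_le (hA hQ)
  have h3 : 0 ≤ aa M w v Q ^ q := Real.rpow_nonneg (h.aa_pos (hA hQ)).le _
  calc aa M w v Q ^ q * ms s Q ≤ aa M w v Q ^ q * (ms w Q / N Q M ^ q) :=
        mul_le_mul_of_nonneg_left h2 h3
    _ = _ := by unfold aa; ring

lemma Core.gam_le (h : Core S M w v s N p q C1 C2 C3) {Q : Finset X} (hQ : Q ∈ S) :
    aa M w v Q ^ q * ms s Q ≤ C1 * ms (ut M v) Q := by
  have := h.max_le {Q} (by simpa using hQ) Q (by simp)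
  simpa using this

/-- `Ψ` is controlled by the normalised testing quantity -/
lemma Core.psi_le (h : Core S M w v s N p q C1 C2 C3) {Q : Finset X} (hQ : Q ∈ S) {L : ℝ}
    (hL : 0 < L) (hγ : ms (ut M v) Q ≤ L ^ q * (aa M w v Q ^ q * ms s Q)) :
    Psi M v p q Q ≤ (C2 * L) * ms (ut M v) Q := by
  have hp := h.hpq.pos
  have hq := h.hpq.symm.pos
  have hu := h.upos Q hQ
  have hw := h.wpos Q hQ
  have ha := h.aa_pos hQ
  have hN := h.NM_pos hQ
  have hu' := h.aa_mul hQ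
  set U := ms (ut M v) Q with hU
  set W := ms w Q with hW
  set a := aa M w v Q with hadef
  have hs : 0 ≤ ms s Q := ms_nonneg h.hs Q
  have e0 : Psi M v p q Q = (∑ m ∈ M, ms (v m) Q ^ (1 / p)) * U ^ (1 / q) := by
    unfold Psi; rw [Finset.sum_mul]
  rw [e0]
  have h2 := h.h2 Q hQ
  -- N^q * U ≤ L^q a^q W
  have h3 : N Q M ^ q * U ≤ (L * a) ^ q * W := by
    calc N Q M ^ q * U ≤ N Q M ^ q * (L ^ q * (a ^ q * ms s Q)) :=
          mul_le_mul_of_nonneg_left hγ (by positivity)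
      _ = (L ^ q * a ^ q) * (N Q M ^ q * ms s Q) := by ring
      _ ≤ (L ^ q * a ^ q) * W := mul_le_mul_of_nonneg_left (h.h4 Q hQ) (by positivity)
      _ = _ := by rw [Real.mul_rpow hL.le ha.le]
  have h4 : N Q M * U ^ (1 / q) ≤ (L * a) * W ^ (1 / q) := by
    have h5 := Real.rpow_le_rpow (by positivity) h3 (by positivity : 0 ≤ 1 / q)
    rw [Real.mul_rpow (by positivity) (by positivity),
      Real.mul_rpow (by positivity) (by positivity), ← Real.rpow_mul hN.le,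
      ← Real.rpow_mul (by positivity), mul_one_div_cancel hq.ne', Real.rpow_one,
      Real.rpow_one] at h5
    exact h5
  have h6 : W ^ (1 / q) * W ^ (1 / p) = W := by
    rw [← Real.rpow_add hw]
    have : 1 / q + 1 / p = 1 := by simpa using h.hpq.symm.inv_add_inv_eq_one
    rw [this, Real.rpow_one]
  calc (∑ m ∈ M, ms (v m) Q ^ (1 / p)) * U ^ (1 / q)
      ≤ (C2 * N Q M * W ^ (1 / p)) * U ^ (1 / q) :=
        mul_le_mul_of_nonneg_right h2 (by positivity)
    _ = C2 * W ^ (1 / p) * (N Q M * U ^ (1 / q)) := by ring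
    _ ≤ C2 * W ^ (1 / p) * ((L * a) * W ^ (1 / q)) :=
        mul_le_mul_of_nonneg_left h4 (by have := h.C2pos; positivity)
    _ = (C2 * L) * (a * (W ^ (1 / q) * W ^ (1 / p))) := by ring
    _ = (C2 * L) * U := by rw [h6, hu']

/-- members of a level and generation inside `G` have small volume -/
lemma Core.gen_decay (h : Core S M w v s N p q C1 C2 C3) {G : Finset X} (hG : G ∈ S) (n : ℕ) :
    ∑ P ∈ S with P ⊆ G ∧ lev M w v P = lev M w v G ∧ gn S M w v P = gn S M w v G + n, ms w P ≤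
      (1 / 2) ^ n * ms w G := by
  classical
  set A := S.filter (fun P => P ⊆ G ∧ lev M w v P = lev M w v G ∧
    gn S M w v P = gn S M w v G + n) with hA
  have hAm : ∀ P ∈ A, P ∈ S ∧ P ⊆ G ∧ lev M w v P = lev M w v G ∧
      gn S M w v P = gn S M w v G + n := fun P hP => by
    have := Finset.mem_filter.1 hP
    exact ⟨this.1, this.2.1, this.2.2.1, this.2.2.2⟩
  have hcount : ∀ P ∈ A, ∀ x ∈ P, n ≤ (S.filter (fun Q => x ∈ Q ∧ Q ⊂ G)).card := by
    intro P hP x hx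
    obtain ⟨hPS, hPG, hPl, hPg⟩ := hAm P hP
    rcases Nat.eq_zero_or_pos n with rfl | hn
    · exact Nat.zero_le _
    have hne : P ≠ G := by
      rintro rfl
      omega
    have hPG' : P ⊂ G := Finset.ssubset_iff_subset_ne.2 ⟨hPG, hne⟩
    -- ancestors of P: those of G, and those between
    set Bt := S.filter (fun Q => P ⊂ Q ∧ Q ⊆ G) with hBt
    have h1 : anc S (fun _ => ∅) (lev M w v) P ⊆ anc S (fun _ => ∅) (lev M w v) G ∪ Bt := by
      intro Q hQ
      obtain ⟨hQS, hPQ, _, hQl⟩ := mem_anc.1 hQ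
      rw [Finset.mem_union]
      rcases h.lam.comp hQS hG (hPQ.1 hx) (hPG hx) with h2 | h2
      · exact Or.inr (Finset.mem_filter.2 ⟨hQS, hPQ, h2⟩)
      · exact Or.inl (mem_anc.2 ⟨hQS, h2, rfl, hQl.trans hPl⟩)
    have h2 := (Finset.card_le_card h1).trans (Finset.card_union_le _ _)
    have h3 : n ≤ Bt.card := by
      unfold gn at hPg
      omega
    -- swap G for P
    have hGBt : G ∈ Bt := Finset.mem_filter.2 ⟨hG, hPG', subset_rfl⟩
    have h4 : insert P (Bt.erase G) ⊆ S.filter (fun Q => x ∈ Q ∧ Q ⊂ G) := by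
      intro Q hQ
      rcases Finset.mem_insert.1 hQ with rfl | hQ
      · exact Finset.mem_filter.2 ⟨hPS, hx, hPG'⟩
      · have hQ1 := Finset.mem_erase.1 hQ
        have hQ2 := Finset.mem_filter.1 hQ1.2
        exact Finset.mem_filter.2 ⟨hQ2.1, hQ2.2.1.1 hx,
          Finset.ssubset_iff_subset_ne.2 ⟨hQ2.2.2, hQ1.1⟩⟩
    have h5 : P ∉ Bt.erase G := by
      intro hc
      have := (Finset.mem_filter.1 (Finset.mem_erase.1 hc).2).2.1
      exact lt_irrefl _ this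
    have h6 := Finset.card_le_card h4
    rw [Finset.card_insert_of_notMem h5, Finset.card_erase_of_mem hGBt] at h6
    omega
  have hdis : ∀ P ∈ A, ∀ P' ∈ A, P ≠ P' → Disjoint P P' := by
    intro P hP P' hP' hne
    obtain ⟨hPS, hPG, hPl, hPg⟩ := hAm P hP
    obtain ⟨hPS', hPG', hPl', hPg'⟩ := hAm P' hP'
    rw [Finset.disjoint_left]
    intro x hx hx'
    apply hne
    exact class_disj S h.lam (fun _ => ∅) (lev M w v) hPS hPS' rfl (hPl.trans hPl'.symm)
      (hPg.trans hPg'.symm) hx hx'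
  have hsum : ∑ P ∈ A, ms w P ≤
      ms w (G.filter (fun x => n ≤ (S.filter (fun Q => x ∈ Q ∧ Q ⊂ G)).card)) := by
    apply ms_sum_le h.hw A _ _ hdis
    intro P hP x hx
    exact Finset.mem_filter.2 ⟨(hAm P hP).2.1 hx, hcount P hP x hx⟩
  have hdec := decay2 S h.lam w h.hw h.half n G hG
  have h2n : (0:ℝ) < 2 ^ n := by positivity
  calc ∑ P ∈ A, ms w P ≤ ms w (G.filter (fun x => n ≤ (S.filter (fun Q => x ∈ Q ∧ Q ⊂ G)).card)) :=
        hsum
    _ ≤ (1 / 2) ^ n * ms w G := by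
        rw [one_div, inv_pow, inv_mul_eq_div, le_div_iff₀ h2n]
        linarith

end facts

end Pool.Agent.TH279.RI
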