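import Pool.Agent.TH279.RI.Core3

set_option autoImplicit false
set_option linter.unusedSectionVars false
set_option linter.unusedVariables false

namespace Pool.Agent.TH279.RI

open Finset Pool.Agent.H433R3.Sep

variable {X : Type*} [Fintype X] [DecidableEq X]

section facts

variable {S : Finset (Finset X)} {M : Finset ℤ} {w : X → ℝ} {v : ℤ → X → ℝ} {s : X → ℝ}
    {N : Finset X → Finset ℤ → ℝ} {p q C1 C2 C3 : ℝ}

open Classical in
/-- the largest cube of the same level above `P` -/
noncomputable def top (S : Finset (Finset X)) (M : Finset ℤ) (w : X → ℝ) (v : ℤ → X → ℝ)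
    (P : Finset X) : Finset X :=
  if h : ∃ H ∈ S, P ⊆ H ∧ lev M w v H = lev M w v P ∧ gn S M w v H = 0 then h.choose else P

lemma Core.top_spec (h : Core S M w v s N p q C1 C2 C3) {P : Finset X} (hP : P ∈ S) :
    top S M w v P ∈ S ∧ P ⊆ top S M w v P ∧ lev M w v (top S M w v P) = lev M w v P ∧
      gn S M w v (top S M w v P) = 0 := by
  have hex : ∃ H ∈ S, P ⊆ H ∧ lev M w v H = lev M w v P ∧ gn S M w v H = 0 := by
    obtain ⟨H, hH, hPH, _, hl, hg⟩ := exists_anc S h.lam (fun _ => ∅) (lev M w v) _ P hP rfl 0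
      (Nat.zero_le _)
    exact ⟨H, hH, hPH, hl, hg⟩
  unfold top
  rw [dif_pos hex]
  exact hex.choose_spec

lemma Core.gen_unique (h : Core S M w v s N p q C1 C2 C3) {P Q : Finset X} (hP : P ∈ S)
    (hQ : Q ∈ S) (hl : lev M w v P = lev M w v Q) (hg : gn S M w v P = gn S M w v Q) {x : X}
    (hxP : x ∈ P) (hxQ : x ∈ Q) : P = Q :=
  class_disj S h.lam (fun _ => ∅) (lev M w v) hP hQ rfl hl hg hxP hxQ

open Classical in
/-- levels where `G` does not dominate `P` -/
noncomputable def JJ (M : Finset ℤ) (v : ℤ → X → ℝ) (p q : ℝ) (P G : Finset X) : Finset ℤ :=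
  M.filter (fun m => ms (v m) G * ms (ut M v) P ≤ CZ p q * (ms (v m) P * ms (ut M v) G))

/-- good pairs -/
def isGood (M : Finset ℤ) (v : ℤ → X → ℝ) (p q : ℝ) (P G : Finset X) : Prop :=
  ms (ut M v) G ≤ 2 * ∑ m ∈ JJ M v p q P G, ms (v m) G

open Classical in
lemma bad_of_not_good (hv : ∀ m x, 0 ≤ v m x) {P G : Finset X} (hng : ¬ isGood M v p q P G) :
    ms (ut M v) G ≤ 2 * ∑ m ∈ M with isBad M v p q P G m, ms (v m) G := by
  unfold isGood at hng
  push Not at hng
  have h1 : ms (ut M v) G = ∑ m ∈ M, ms (v m) G := ms_ut M v G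
  have h2 : ∑ m ∈ M, ms (v m) G ≤ ∑ m ∈ JJ M v p q P G, ms (v m) G +
      ∑ m ∈ M with isBad M v p q P G m, ms (v m) G := by
    have h3 : M ⊆ JJ M v p q P G ∪ M.filter (fun m => isBad M v p q P G m) := by
      intro m hm
      rw [Finset.mem_union]
      by_cases hc : ms (v m) G * ms (ut M v) P ≤ CZ p q * (ms (v m) P * ms (ut M v) G)
      · exact Or.inl (Finset.mem_filter.2 ⟨hm, hc⟩)
      · exact Or.inr (Finset.mem_filter.2 ⟨hm, (not_le.1 hc).le⟩)
    refine (Finset.sum_le_sum_of_subset_of_nonneg h3 (fun m _ _ => ms_nonneg (hv m) G)).trans ?_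
    have h4 := Finset.sum_union_inter (s₁ := JJ M v p q P G)
      (s₂ := M.filter (fun m => isBad M v p q P G m)) (f := fun m => ms (v m) G)
    have h5 : 0 ≤ ∑ m ∈ JJ M v p q P G ∩ M.filter (fun m => isBad M v p q P G m), ms (v m) G :=
      Finset.sum_nonneg (fun m _ => ms_nonneg (hv m) G)
    linarith
  linarith

lemma Core.JJ_le (h : Core S M w v s N p q C1 C2 C3) {P G : Finset X} (hP : P ∈ S) (hG : G ∈ S)
    (hPG : P ⊆ G) (hl : lev M w v G = lev M w v P) :
    N G (JJ M v p q P G) ≤ C3 * N P M := by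
  classical
  apply h.h3 P hP G hG hPG
  · exact Finset.filter_subset _ _
  · intro m hm
    have hm' := (Finset.mem_filter.1 hm).2
    have ha := h.aa_cmp hP hl
    have hwP := h.wpos P hP
    have hwG := h.wpos G hG
    have huP := h.upos P hP
    have e1 := h.aa_mul hP
    have e2 := h.aa_mul hG
    set U := ms (ut M v) with hU
    -- u_G w_P ≤ 2 u_P w_G
    have h2 : U G * ms w P ≤ 2 * (U P * ms w G) := by
      rw [← e1, ← e2]
      calc aa M w v G * ms w G * ms w P = aa M w v G * (ms w G * ms w P) := by ring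
        _ ≤ (2 * aa M w v P) * (ms w G * ms w P) := mul_le_mul_of_nonneg_right ha (by positivity)
        _ = _ := by ring
    have hC : 0 < CZ p q := by
      unfold CZ
      have := h.q_pos
      positivity
    have hvP : 0 ≤ ms (v m) P := ms_nonneg (h.hv m) P
    have h3 : (ms (v m) G * ms w P) * U P ≤ ((2 * CZ p q) * (ms (v m) P * ms w G)) * U P := by
      calc (ms (v m) G * ms w P) * U P = (ms (v m) G * U P) * ms w P := by ring
        _ ≤ (CZ p q * (ms (v m) P * U G)) * ms w P := mul_le_mul_of_nonneg_right hm' hwP.le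
        _ = (CZ p q * ms (v m) P) * (U G * ms w P) := by ring
        _ ≤ (CZ p q * ms (v m) P) * (2 * (U P * ms w G)) :=
            mul_le_mul_of_nonneg_left h2 (by positivity)
        _ = _ := by ring
    exact le_of_mul_le_mul_right h3 huP

open Classical in
/-- The good part. -/
lemma Core.good_sum (h : Core S M w v s N p q C1 C2 C3) (κ : ℕ) (A : Finset (Finset X))
    (hA : A ⊆ S) (hAg : ∀ P ∈ A, gn S M w v P = κ ∧ isGood M v p q P (top S M w v P)) :
    ∑ P ∈ A, aa M w v P ^ q * ms s P ≤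
      ((2 * C3) ^ q * C1) * (1 / 2) ^ κ * ms (ut M v) Finset.univ := by
  have hq := h.q_pos
  have hC3 := h.C3pos
  set T := A.image (top S M w v) with hT
  have hTS : T ⊆ S := by
    intro G hG
    obtain ⟨P, hP, rfl⟩ := Finset.mem_image.1 hG
    exact (h.top_spec (hA hP)).1
  have hmin : ∀ G ∈ T, ∃ P0 ∈ A.filter (fun P => top S M w v P = G),
      ∀ P ∈ A.filter (fun P => top S M w v P = G),
        N G (JJ M v p q P0 G) ≤ N G (JJ M v p q P G) := by
    intro G hG
    obtain ⟨P, hP, hPG⟩ := Finset.mem_image.1 hG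
    exact Finset.exists_min_image (A.filter (fun P => top S M w v P = G))
      (fun P => N G (JJ M v p q P G)) ⟨P, Finset.mem_filter.2 ⟨hP, hPG⟩⟩
  choose! P0 hP0 hP0min using hmin
  set J : Finset X → Finset ℤ := fun G => JJ M v p q (P0 G) G with hJ
  have hJgood : ∀ G ∈ T, J G ⊆ M ∧ ms (ut M v) G ≤ 2 * ∑ m ∈ J G, ms (v m) G := by
    intro G hG
    refine ⟨Finset.filter_subset _ _, ?_⟩
    have h1 := Finset.mem_filter.1 (hP0 G hG)
    have h2 := (hAg _ h1.1).2
    rw [h1.2] at h2
    exact h2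
  have hmain : ∀ G ∈ T, ∑ P ∈ A with top S M w v P = G, aa M w v P ^ q * ms s P ≤
      ((2 * C3) ^ q * (1 / 2) ^ κ) * (ms w G * (ms (ut M v) G / ms w G) ^ q / N G (J G) ^ q) := by
    intro G hG
    have hGS := hTS hG
    have hNG : 0 < N G (J G) := h.Npos G hGS _ (hJgood G hG).1 (hJgood G hG).2
    have haG := h.aa_pos hGS
    obtain ⟨P1, hP1, hP1G⟩ := Finset.mem_image.1 hG
    have hgG : gn S M w v G = 0 := by rw [← hP1G]; exact (h.top_spec (hA hP1)).2.2.2
    have hterm : ∀ P ∈ A.filter (fun P => top S M w v P = G), aa M w v P ^ q * ms s P ≤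
        ((2 * C3) ^ q * (aa M w v G ^ q / N G (J G) ^ q)) * ms w P := by
      intro P hP
      have h1 := Finset.mem_filter.1 hP
      have hPS := hA h1.1
      obtain ⟨t1, t2, t3, t4⟩ := h.top_spec hPS
      rw [h1.2] at t1 t2 t3 t4
      have haP := h.aa_pos hPS
      have h2 : aa M w v P ≤ 2 * aa M w v G := h.aa_cmp hGS t3.symm
      have h3 : N G (J G) ≤ C3 * N P M := (hP0min G hG P hP).trans (h.JJ_le hPS hGS t2 t3)
      have hNP := h.NM_pos hPS
      have h4 : ms s P ≤ C3 ^ q * (ms w P / N G (J G) ^ q) := by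
        refine (h.s_le hPS).trans ?_
        have hwP := h.wpos P hPS
        rw [← mul_div_assoc, div_le_div_iff₀ (by positivity) (by positivity)]
        have h5 : N G (J G) ^ q ≤ C3 ^ q * N P M ^ q := by
          rw [← Real.mul_rpow hC3.le hNP.le]
          exact Real.rpow_le_rpow hNG.le h3 hq.le
        calc ms w P * N G (J G) ^ q ≤ ms w P * (C3 ^ q * N P M ^ q) :=
              mul_le_mul_of_nonneg_left h5 hwP.le
          _ = _ := by ring
      have h6 : aa M w v P ^ q ≤ 2 ^ q * aa M w v G ^ q := by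
        rw [← Real.mul_rpow (by norm_num) haG.le]
        exact Real.rpow_le_rpow haP.le h2 hq.le
      have hs0 : 0 ≤ ms s P := ms_nonneg h.hs P
      calc aa M w v P ^ q * ms s P ≤ (2 ^ q * aa M w v G ^ q) * (C3 ^ q * (ms w P / N G (J G) ^ q)) :=
            mul_le_mul h6 h4 hs0 (by positivity)
        _ = _ := by rw [Real.mul_rpow (by norm_num) hC3.le]; ring
    have hsub : A.filter (fun P => top S M w v P = G) ⊆ S.filter (fun P => P ⊆ G ∧
        lev M w v P = lev M w v G ∧ gn S M w v P = gn S M w v G + κ) := by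
      intro P hP
      have h1 := Finset.mem_filter.1 hP
      have hPS := hA h1.1
      obtain ⟨t1, t2, t3, t4⟩ := h.top_spec hPS
      rw [h1.2] at t1 t2 t3 t4
      refine Finset.mem_filter.2 ⟨hPS, t2, t3.symm, ?_⟩
      rw [hgG, zero_add]
      exact (hAg P h1.1).1
    have hdec := h.gen_decay hGS κ
    have hsw : ∑ P ∈ A with top S M w v P = G, ms w P ≤ (1 / 2) ^ κ * ms w G :=
      (Finset.sum_le_sum_of_subset_of_nonneg hsub (fun P _ _ => ms_nonneg h.hw P)).trans hdec
    calc ∑ P ∈ A with top S M w v P = G, aa M w v P ^ q * ms s P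
        ≤ ∑ P ∈ A with top S M w v P = G,
            ((2 * C3) ^ q * (aa M w v G ^ q / N G (J G) ^ q)) * ms w P := Finset.sum_le_sum hterm
      _ = ((2 * C3) ^ q * (aa M w v G ^ q / N G (J G) ^ q)) *
            ∑ P ∈ A with top S M w v P = G, ms w P := by rw [← Finset.mul_sum]
      _ ≤ ((2 * C3) ^ q * (aa M w v G ^ q / N G (J G) ^ q)) * ((1 / 2) ^ κ * ms w G) :=
          mul_le_mul_of_nonneg_left hsw (by positivity)
      _ = _ := by unfold aa; ring
  calc ∑ P ∈ A, aa M w v P ^ q * ms s P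
      = ∑ G ∈ T, ∑ P ∈ A with top S M w v P = G, aa M w v P ^ q * ms s P :=
        (Finset.sum_fiberwise_of_maps_to (fun P hP => Finset.mem_image_of_mem _ hP) _).symm
    _ ≤ ∑ G ∈ T, ((2 * C3) ^ q * (1 / 2) ^ κ) *
          (ms w G * (ms (ut M v) G / ms w G) ^ q / N G (J G) ^ q) := Finset.sum_le_sum hmain
    _ = ((2 * C3) ^ q * (1 / 2) ^ κ) *
          ∑ G ∈ T, ms w G * (ms (ut M v) G / ms w G) ^ q / N G (J G) ^ q := by
        rw [← Finset.mul_sum]
    _ ≤ ((2 * C3) ^ q * (1 / 2) ^ κ) * (C1 * ms (ut M v) Finset.univ) := by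
        apply mul_le_mul_of_nonneg_left _ (by positivity)
        exact h.h1 T hTS Finset.univ (fun Q _ => Finset.subset_univ Q) J hJgood
    _ = _ := by ring

end facts

end Pool.Agent.TH279.RI
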