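import Pool.Agent.TH279.RI.Core4

set_option autoImplicit false
set_option linter.unusedSectionVars false
set_option linter.unusedVariables false

namespace Pool.Agent.TH279.RI

open Finset Pool.Agent.H433R3.Sep

variable {X : Type*} [Fintype X] [DecidableEq X]

section facts

variable {S : Finset (Finset X)} {M : Finset ℤ} {w : X → ℝ} {v : ℤ → X → ℝ} {s : X → ℝ}
    {N : Finset X → Finset ℤ → ℝ} {p q C1 C2 C3 : ℝ}

lemma int_eq_of_close {a b : ℤ} {r : ℕ} (h1 : a ≤ b + r) (h2 : b ≤ a + r)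
    (h3 : a % (r + 1) = b % (r + 1)) : a = b := by
  have h4 : ((r : ℤ) + 1) ∣ a - b := Int.ModEq.dvd (h3.symm)
  have h5 : |a - b| < (r : ℤ) + 1 := by rw [abs_lt]; constructor <;> linarith
  have h6 := Int.eq_zero_of_abs_lt_dvd h4 h5
  linarith

open Classical in
lemma Core.bad_class (h : Core S M w v s N p q C1 C2 C3) (r κ : ℕ) (hκ : 0 < κ) (c : ℤ) (L : ℝ)
    (hL : 0 < L) (A : Finset (Finset X)) (hA : A ⊆ S)
    (hAg : ∀ P ∈ A, gn S M w v P = κ ∧ ¬ isGood M v p q P (top S M w v P) ∧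
      (∀ Q ∈ S, P ⊆ Q → lev M w v Q ≤ lev M w v P + r) ∧ lev M w v P % (r + 1) = c ∧
      ms (ut M v) P ≤ L ^ q * (aa M w v P ^ q * ms s P)) :
    ∑ P ∈ A, ms (ut M v) P ≤ (1 + 4 * q * (C2 * L)) * ms (ut M v) Finset.univ := by
  have hC2 := h.C2pos
  have hq := h.q_pos
  set G := top S M w v with hG
  have hspec : ∀ P ∈ A, G P ∈ S ∧ P ⊆ G P ∧ lev M w v (G P) = lev M w v P ∧
      gn S M w v (G P) = 0 := fun P hP => h.top_spec (hA hP)
  have hss : ∀ P ∈ A, P ⊂ G P := by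
    intro P hP
    refine Finset.ssubset_iff_subset_ne.2 ⟨(hspec P hP).2.1, fun he => ?_⟩
    have h1 := (hspec P hP).2.2.2
    rw [← he, (hAg P hP).1] at h1
    omega
  have hlev : ∀ P ∈ A, ∀ P' ∈ A, P ⊆ G P' → P' ⊆ G P → lev M w v P = lev M w v P' := by
    intro P hP P' hP' h1 h2
    have h3 := (hAg P hP).2.2.1 (G P') (hspec P' hP').1 h1
    have h4 := (hAg P' hP').2.2.1 (G P) (hspec P hP).1 h2
    rw [(hspec P' hP').2.2.1] at h3
    rw [(hspec P hP).2.2.1] at h4
    exact int_eq_of_close h4 h3 ((hAg P hP).2.2.2.1.trans (hAg P' hP').2.2.2.1.symm)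
  apply potential_total h.hpq h.hv S h.lam h.upos A hA G (fun P hP => ⟨(hspec P hP).1, hss P hP⟩)
    (fun P hP => bad_of_not_good h.hv (hAg P hP).2.1)
  · -- hA
    intro P hP P' hP' hGG hne
    rw [Finset.disjoint_left]
    intro x hx hx'
    apply hne
    apply h.gen_unique (hA hP) (hA hP') _ _ hx hx'
    · rw [← (hspec P hP).2.2.1, ← (hspec P' hP').2.2.1, hGG]
    · rw [(hAg P hP).1, (hAg P' hP').1]
  · -- hB
    intro P hP P' hP' hGG
    rcases h.lam.2 (G P') (hspec P' hP').1 P (hA hP) with h1 | h1 | h1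
    · exact Or.inl h1
    · -- P ⊆ G P'
      exfalso
      have h2 : P' ⊆ G P := (hspec P' hP').2.1.trans hGG.1
      have h3 := hlev P hP P' hP' h1 h2
      obtain ⟨x, hx⟩ := h.lam.1 P (hA hP)
      have h4 : G P = G P' := by
        apply h.gen_unique (hspec P hP).1 (hspec P' hP').1 _ _ (x := x) ((hspec P hP).2.1 hx)
          (h1 hx)
        · rw [(hspec P hP).2.2.1, (hspec P' hP').2.2.1, h3]
        · rw [(hspec P hP).2.2.2, (hspec P' hP').2.2.2]
      rw [h4] at hGG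
      exact lt_irrefl _ hGG
    · exact Or.inr h1
  · -- hC
    intro P hP P' hP' hPP
    obtain ⟨x, hx⟩ := h.lam.1 P' (hA hP')
    rcases h.lam.comp (hspec P' hP').1 (hA hP) ((hspec P' hP').2.1 hx) (hPP.1 hx) with h1 | h1
    · exact h1
    · exfalso
      have h2 : P' ⊆ G P := hPP.1.trans (hspec P hP).2.1
      have h3 := hlev P hP P' hP' h1.1 h2
      have h5 : P = P' := h.gen_unique (hA hP) (hA hP') h3
        (by rw [(hAg P hP).1, (hAg P' hP').1]) (hPP.1 hx) hx
      rw [h5] at hPP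
      exact lt_irrefl _ hPP
  · intro P _; exact Finset.subset_univ P
  · positivity
  · intro P hP
    exact h.psi_le (hA hP) hL (hAg P hP).2.2.2.2

open Classical in
lemma Core.bad_total (h : Core S M w v s N p q C1 C2 C3) (r κ : ℕ) (hκ : 0 < κ) (L : ℝ)
    (hL : 0 < L) (A : Finset (Finset X)) (hA : A ⊆ S)
    (hAg : ∀ P ∈ A, gn S M w v P = κ ∧ ¬ isGood M v p q P (top S M w v P) ∧
      (∀ Q ∈ S, P ⊆ Q → lev M w v Q ≤ lev M w v P + r) ∧
      ms (ut M v) P ≤ L ^ q * (aa M w v P ^ q * ms s P)) :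
    ∑ P ∈ A, ms (ut M v) P ≤ (r + 1) * ((1 + 4 * q * (C2 * L)) * ms (ut M v) Finset.univ) := by
  have hmaps : ∀ P ∈ A, lev M w v P % ((r : ℤ) + 1) ∈ Finset.Ico (0 : ℤ) (r + 1) := by
    intro P _
    rw [Finset.mem_Ico]
    exact ⟨Int.emod_nonneg _ (by positivity), Int.emod_lt_of_pos _ (by positivity)⟩
  rw [← Finset.sum_fiberwise_of_maps_to hmaps]
  have h1 : ∀ c ∈ Finset.Ico (0 : ℤ) (r + 1),
      ∑ P ∈ A with lev M w v P % ((r : ℤ) + 1) = c, ms (ut M v) P ≤
        (1 + 4 * q * (C2 * L)) * ms (ut M v) Finset.univ := by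
    intro c _
    apply h.bad_class r κ hκ c L hL _ ((Finset.filter_subset _ _).trans hA)
    intro P hP
    obtain ⟨hP1, hP2⟩ := Finset.mem_filter.1 hP
    obtain ⟨a1, a2, a3, a4⟩ := hAg P hP1
    exact ⟨a1, a2, a3, hP2, a4⟩
  refine (Finset.sum_le_sum h1).trans ?_
  rw [Finset.sum_const, Int.card_Ico, nsmul_eq_mul]
  apply le_of_eq
  congr 1
  have : ((r : ℤ) + 1 - 0).toNat = r + 1 := by omega
  rw [this]; push_cast; ring

open Classical in
/-- `σ`-mass of the `n`-th further generation of the same level inside `P` -/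
noncomputable def sn (S : Finset (Finset X)) (M : Finset ℤ) (w : X → ℝ) (v : ℤ → X → ℝ)
    (s : X → ℝ) (n : ℕ) (P : Finset X) : ℝ :=
  ∑ Q ∈ S with Q ⊆ P ∧ lev M w v Q = lev M w v P ∧ gn S M w v Q = gn S M w v P + n, ms s Q

lemma Core.sn_le (h : Core S M w v s N p q C1 C2 C3) {P : Finset X} (hP : P ∈ S) (n : ℕ) :
    sn S M w v s n P ≤ ms s P := by
  classical
  unfold sn
  apply ms_sum_le h.hs
  · intro Q hQ; exact (Finset.mem_filter.1 hQ).2.1
  · intro Q hQ Q' hQ' hne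
    have h1 := Finset.mem_filter.1 hQ
    have h2 := Finset.mem_filter.1 hQ'
    rw [Finset.disjoint_left]
    intro x hx hx'
    exact hne (h.gen_unique h1.1 h2.1 (h1.2.2.1.trans h2.2.2.1.symm)
      (h1.2.2.2.trans h2.2.2.2.symm) hx hx')

lemma Core.sn_nonneg (h : Core S M w v s N p q C1 C2 C3) (P : Finset X) (n : ℕ) :
    0 ≤ sn S M w v s n P := by
  unfold sn
  exact Finset.sum_nonneg (fun Q _ => ms_nonneg h.hs Q)

lemma Core.sn_decay (h : Core S M w v s N p q C1 C2 C3) {P : Finset X} (hP : P ∈ S) (n : ℕ) :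
    aa M w v P ^ q * sn S M w v s n P ≤ (2 * 2 ^ q * C1) * (1 / 2) ^ n * ms (ut M v) P := by
  classical
  have hq := h.q_pos
  have hC1 := h.C1pos
  have haP := h.aa_pos hP
  unfold sn
  set B := S.filter (fun Q => Q ⊆ P ∧ lev M w v Q = lev M w v P ∧
    gn S M w v Q = gn S M w v P + n) with hB
  rw [Finset.mul_sum]
  have hterm : ∀ Q ∈ B, aa M w v P ^ q * ms s Q ≤ (2 ^ q * C1 * (2 * aa M w v P)) * ms w Q := by
    intro Q hQ
    obtain ⟨hQS, hQP, hl, hg⟩ := Finset.mem_filter.1 hQ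
    have haQ := h.aa_pos hQS
    have h1 : aa M w v P ≤ 2 * aa M w v Q := h.aa_cmp hQS hl.symm
    have h2 : aa M w v Q ≤ 2 * aa M w v P := h.aa_cmp hP hl
    have h3 : aa M w v P ^ q ≤ 2 ^ q * aa M w v Q ^ q := by
      rw [← Real.mul_rpow (by norm_num) haQ.le]
      exact Real.rpow_le_rpow haP.le h1 hq.le
    have hsQ : 0 ≤ ms s Q := ms_nonneg h.hs Q
    calc aa M w v P ^ q * ms s Q ≤ (2 ^ q * aa M w v Q ^ q) * ms s Q :=
          mul_le_mul_of_nonneg_right h3 hsQ
      _ = 2 ^ q * (aa M w v Q ^ q * ms s Q) := by ring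
      _ ≤ 2 ^ q * (C1 * ms (ut M v) Q) :=
          mul_le_mul_of_nonneg_left (h.gam_le hQS) (by positivity)
      _ = (2 ^ q * C1) * (aa M w v Q * ms w Q) := by rw [h.aa_mul hQS]; ring
      _ ≤ (2 ^ q * C1) * ((2 * aa M w v P) * ms w Q) := by
          apply mul_le_mul_of_nonneg_left _ (by positivity)
          exact mul_le_mul_of_nonneg_right h2 (h.wpos Q hQS).le
      _ = _ := by ring
  refine (Finset.sum_le_sum hterm).trans ?_
  rw [← Finset.mul_sum]
  have hdec := h.gen_decay hP n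
  calc (2 ^ q * C1 * (2 * aa M w v P)) * ∑ Q ∈ B, ms w Q
      ≤ (2 ^ q * C1 * (2 * aa M w v P)) * ((1 / 2) ^ n * ms w P) :=
        mul_le_mul_of_nonneg_left hdec (by positivity)
    _ = (2 * 2 ^ q * C1) * (1 / 2) ^ n * (aa M w v P * ms w P) := by ring
    _ = _ := by rw [h.aa_mul hP]

/-- the ratio `τ = 2^{1/q}` -/
noncomputable def tt (q : ℝ) : ℝ := (2 : ℝ) ^ (1 / q)

lemma tt_pos (q : ℝ) : 0 < tt q := Real.rpow_pos_of_pos (by norm_num) _

lemma one_le_tt {q : ℝ} (hq : 0 < q) : 1 ≤ tt q :=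
  Real.one_le_rpow (by norm_num) (by positivity)

lemma tt_lt {q : ℝ} (hq : 1 < q) : tt q < 2 := by
  unfold tt
  calc (2:ℝ) ^ (1 / q) < 2 ^ (1:ℝ) := by
        apply Real.rpow_lt_rpow_of_exponent_lt (by norm_num)
        rw [div_lt_one (by linarith)]; exact hq
    _ = 2 := Real.rpow_one 2

lemma tt_pow_q {q : ℝ} (hq : 0 < q) (j : ℕ) : (tt q ^ j) ^ q = 2 ^ j := by
  have h1 : tt q ^ q = 2 := by
    unfold tt
    rw [← Real.rpow_mul (by norm_num), one_div_mul_cancel hq.ne', Real.rpow_one]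
  calc (tt q ^ j) ^ q = (tt q ^ q) ^ j := by
        rw [← Real.rpow_natCast, ← Real.rpow_natCast, ← Real.rpow_mul (tt_pos q).le,
          ← Real.rpow_mul (tt_pos q).le, mul_comm]
    _ = 2 ^ j := by rw [h1]

/-- constant in the bad sum -/
noncomputable def Cbad (q C1 C2 : ℝ) : ℝ :=
  (2 * 2 ^ q * C1 + 2 / (1 - tt q / 2)) * (1 + 4 * q * C2)

open Classical in
lemma Core.bad_sum (h : Core S M w v s N p q C1 C2 C3) (r κ : ℕ) (hκ : 0 < κ) (n : ℕ)
    (A : Finset (Finset X)) (hA : A ⊆ S)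
    (hAg : ∀ P ∈ A, gn S M w v P = κ ∧ ¬ isGood M v p q P (top S M w v P) ∧
      (∀ Q ∈ S, P ⊆ Q → lev M w v Q ≤ lev M w v P + r)) :
    ∑ P ∈ A, aa M w v P ^ q * sn S M w v s n P ≤
      Cbad q C1 C2 * (r + 1) * (tt q / 2) ^ n * ms (ut M v) Finset.univ := by
  have hq := h.q_pos
  have hq1 : 1 < q := h.hpq.symm.lt
  have hC1 := h.C1pos
  have hC2 := h.C2pos
  have hτ := tt_pos q
  have hτ1 := one_le_tt hq
  have hτ2 := tt_lt hq1
  set τ := tt q with hτdef
  have hρ1 : τ / 2 < 1 := by linarith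
  have hUn : 0 ≤ ms (ut M v) Finset.univ := ms_nonneg (ut_nonneg h.hv) _
  set U := ms (ut M v) with hU
  have hu0 : ∀ P, 0 ≤ U P := ms_nonneg (ut_nonneg h.hv)
  -- bound for sums of masses
  have hmass : ∀ j : ℕ, ∀ B ⊆ A, (∀ P ∈ B, U P ≤ 2 ^ j * (aa M w v P ^ q * ms s P)) →
      ∑ P ∈ B, U P ≤ (r + 1) * (((1 + 4 * q * C2) * τ ^ j) * U Finset.univ) := by
    intro j B hB hBg
    have h1 := h.bad_total r κ hκ (τ ^ j) (by positivity) B (hB.trans hA) (by
      intro P hP
      obtain ⟨a1, a2, a3⟩ := hAg P (hB hP)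
      refine ⟨a1, a2, a3, ?_⟩
      rw [tt_pow_q hq]
      exact hBg P hP)
    refine h1.trans ?_
    apply mul_le_mul_of_nonneg_left _ (by positivity)
    apply mul_le_mul_of_nonneg_right _ hUn
    have h2 : 1 ≤ τ ^ j := one_le_pow₀ hτ1
    nlinarith [mul_pos hq hC2]
  set Ab := A.filter (fun P => U P ≤ 2 ^ n * (aa M w v P ^ q * ms s P)) with hAb
  set As := A.filter (fun P => ¬ (U P ≤ 2 ^ n * (aa M w v P ^ q * ms s P))) with hAs
  have hsplit : ∑ P ∈ A, aa M w v P ^ q * sn S M w v s n P =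
      ∑ P ∈ Ab, aa M w v P ^ q * sn S M w v s n P + ∑ P ∈ As, aa M w v P ^ q * sn S M w v s n P :=
    (Finset.sum_filter_add_sum_filter_not A _ _).symm
  -- big part
  have hbig : ∑ P ∈ Ab, aa M w v P ^ q * sn S M w v s n P ≤
      (2 * 2 ^ q * C1) * ((1 + 4 * q * C2) * ((r + 1) * (τ / 2) ^ n * U Finset.univ)) := by
    have h1 : ∑ P ∈ Ab, aa M w v P ^ q * sn S M w v s n P ≤
        (2 * 2 ^ q * C1) * (1 / 2) ^ n * ∑ P ∈ Ab, U P := by
      rw [Finset.mul_sum]
      apply Finset.sum_le_sum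
      intro P hP
      exact h.sn_decay (hA (Finset.mem_filter.1 hP).1) n
    refine h1.trans ?_
    have h2 := hmass n Ab (Finset.filter_subset _ _) (fun P hP => (Finset.mem_filter.1 hP).2)
    calc (2 * 2 ^ q * C1) * (1 / 2) ^ n * ∑ P ∈ Ab, U P
        ≤ (2 * 2 ^ q * C1) * (1 / 2) ^ n * ((r + 1) * (((1 + 4 * q * C2) * τ ^ n) * U Finset.univ)) :=
          mul_le_mul_of_nonneg_left h2 (by positivity)
      _ = _ := by
          have : (τ / 2) ^ n = (1 / 2) ^ n * τ ^ n := by rw [← mul_pow]; congr 1; ring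
          rw [this]; ring
  -- small part
  have hsmall : ∑ P ∈ As, aa M w v P ^ q * sn S M w v s n P ≤
      (2 / (1 - τ / 2)) * ((1 + 4 * q * C2) * ((r + 1) * (τ / 2) ^ n * U Finset.univ)) := by
    set Ap := As.filter (fun P => 0 < aa M w v P ^ q * ms s P) with hAp
    have h0 : ∑ P ∈ As, aa M w v P ^ q * sn S M w v s n P =
        ∑ P ∈ Ap, aa M w v P ^ q * sn S M w v s n P := by
      symm
      apply Finset.sum_subset (Finset.filter_subset _ _)
      intro P hP hP'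
      have hPA := (Finset.mem_filter.1 hP).1
      have h1 : ¬ (0 < aa M w v P ^ q * ms s P) := fun hc => hP' (Finset.mem_filter.2 ⟨hP, hc⟩)
      have h2 : 0 ≤ aa M w v P ^ q := Real.rpow_nonneg (h.aa_pos (hA hPA)).le _
      have h3 := mul_le_mul_of_nonneg_left (h.sn_le (hA hPA) n) h2
      have h4 := mul_nonneg h2 (h.sn_nonneg P n)
      linarith
    rw [h0]
    -- dyadic size
    have hj : ∀ P ∈ Ap, ∃ j : ℕ, n ≤ j ∧ aa M w v P ^ q * ms s P ≤ (1 / 2) ^ j * U P ∧
        U P ≤ 2 ^ (j + 1) * (aa M w v P ^ q * ms s P) := by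
      intro P hP
      obtain ⟨hP1, hpos⟩ := Finset.mem_filter.1 hP
      obtain ⟨hPA, hnb⟩ := Finset.mem_filter.1 hP1
      have huP := h.upos P (hA hPA)
      push Not at hnb
      set y := aa M w v P ^ q * ms s P with hy
      have hx0 : 0 < y / U P := by positivity
      have hxn : y / U P < (1 / 2) ^ n := by
        rw [div_lt_iff₀ huP, one_div, inv_pow, inv_mul_eq_div, lt_div_iff₀ (by positivity)]
        linarith
      have hx1 : y / U P ≤ 1 := hxn.le.trans (pow_le_one₀ (by norm_num) (by norm_num))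
      obtain ⟨j, hj1, hj2⟩ := exists_nat_pow_near_of_lt_one hx0 hx1 (by norm_num : (0:ℝ) < 1 / 2)
        (by norm_num)
      refine ⟨j, ?_, ?_, ?_⟩
      · by_contra hcon
        push Not at hcon
        have h1 : (1 / 2 : ℝ) ^ n ≤ (1 / 2) ^ (j + 1) :=
          pow_le_pow_of_le_one (by norm_num) (by norm_num) hcon
        linarith
      · rwa [div_le_iff₀ huP] at hj2
      · rw [lt_div_iff₀ huP, one_div, inv_pow, inv_mul_eq_div, div_lt_iff₀ (by positivity)] at hj1
        linarith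
    choose! jj hj1 hj2 hj3 using hj
    obtain ⟨Nmax, hNmax⟩ : ∃ Nmax : ℕ, ∀ P ∈ Ap, jj P < Nmax := by
      refine ⟨Ap.sup jj + 1, fun P hP => ?_⟩
      have := Finset.le_sup (f := jj) hP
      omega
    have hmaps : ∀ P ∈ Ap, jj P ∈ Finset.Ico n Nmax := fun P hP =>
      Finset.mem_Ico.2 ⟨hj1 P hP, hNmax P hP⟩
    rw [← Finset.sum_fiberwise_of_maps_to hmaps]
    have hfib : ∀ j ∈ Finset.Ico n Nmax,
        ∑ P ∈ Ap with jj P = j, aa M w v P ^ q * sn S M w v s n P ≤
        (2 * ((1 + 4 * q * C2) * ((r + 1) * U Finset.univ))) * (τ / 2) ^ j := by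
      intro j _
      have h1 : ∑ P ∈ Ap with jj P = j, aa M w v P ^ q * sn S M w v s n P ≤
          (1 / 2) ^ j * ∑ P ∈ Ap with jj P = j, U P := by
        rw [Finset.mul_sum]
        apply Finset.sum_le_sum
        intro P hP
        obtain ⟨hP1, hPj⟩ := Finset.mem_filter.1 hP
        have hPA := (Finset.mem_filter.1 (Finset.mem_filter.1 hP1).1).1
        have h2 : 0 ≤ aa M w v P ^ q := Real.rpow_nonneg (h.aa_pos (hA hPA)).le _
        have h3 := mul_le_mul_of_nonneg_left (h.sn_le (hA hPA) n) h2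
        have h4 := hj2 P hP1
        rw [hPj] at h4
        exact h3.trans h4
      have h5 := hmass (j + 1) (Ap.filter (fun P => jj P = j))
        ((Finset.filter_subset _ _).trans ((Finset.filter_subset _ _).trans
          (Finset.filter_subset _ _))) (by
          intro P hP
          obtain ⟨hP1, hPj⟩ := Finset.mem_filter.1 hP
          have := hj3 P hP1
          rwa [hPj] at this)
      refine h1.trans ((mul_le_mul_of_nonneg_left h5 (by positivity)).trans ?_)
      have h6 : (1 / 2 : ℝ) ^ j * ((r + 1) * (((1 + 4 * q * C2) * τ ^ (j + 1)) * U Finset.univ)) =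
          τ * (((1 + 4 * q * C2) * ((r + 1) * U Finset.univ)) * (τ / 2) ^ j) := by
        have : (τ / 2) ^ j = (1 / 2) ^ j * τ ^ j := by rw [← mul_pow]; congr 1; ring
        rw [this]; ring
      rw [h6]
      calc τ * (((1 + 4 * q * C2) * ((r + 1) * U Finset.univ)) * (τ / 2) ^ j)
          ≤ 2 * (((1 + 4 * q * C2) * ((r + 1) * U Finset.univ)) * (τ / 2) ^ j) :=
            mul_le_mul_of_nonneg_right hτ2.le (by positivity)
        _ = _ := by ring
    refine (Finset.sum_le_sum hfib).trans ?_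
    rw [← Finset.mul_sum]
    have hgeo : ∑ j ∈ Finset.Ico n Nmax, (τ / 2) ^ j ≤ (τ / 2) ^ n / (1 - τ / 2) :=
      geom_sum_Ico_le_of_lt_one (by positivity) hρ1
    calc (2 * ((1 + 4 * q * C2) * ((r + 1) * U Finset.univ))) * ∑ j ∈ Finset.Ico n Nmax, (τ / 2) ^ j
        ≤ (2 * ((1 + 4 * q * C2) * ((r + 1) * U Finset.univ))) * ((τ / 2) ^ n / (1 - τ / 2)) :=
          mul_le_mul_of_nonneg_left hgeo (by positivity)
      _ = _ := by ring
  rw [hsplit]
  refine (add_le_add hbig hsmall).trans (le_of_eq ?_)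
  unfold Cbad
  rw [← hτdef]; ring

/-- constant in the main proposition -/
noncomputable def Cmain (q C1 C2 C3 : ℝ) : ℝ :=
  2 ^ q * ((2 * C3) ^ q * C1 + Cbad q C1 C2) + C1

open Classical in
/-- The main proposition. -/
lemma Core.main_prop (h : Core S M w v s N p q C1 C2 C3) (r g : ℕ) :
    ∑ Q ∈ S with gn S M w v Q = g ∧ (∀ Q' ∈ S, Q ⊆ Q' → lev M w v Q' ≤ lev M w v Q + r),
      aa M w v Q ^ q * ms s Q ≤
      Cmain q C1 C2 C3 * (r + 1) * (tt q / 2) ^ (g / 2) * ms (ut M v) Finset.univ := by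
  have hq := h.q_pos
  have hq1 : 1 < q := h.hpq.symm.lt
  have hC1 := h.C1pos
  have hC2 := h.C2pos
  have hC3 := h.C3pos
  have hτ := tt_pos q
  have hτ1 := one_le_tt hq
  have hτ2 := tt_lt hq1
  set τ := tt q with hτdef
  have hρ1 : 0 < 1 - τ / 2 := by linarith
  have hUn : 0 ≤ ms (ut M v) Finset.univ := ms_nonneg (ut_nonneg h.hv) _
  have hCbad : 0 ≤ Cbad q C1 C2 := by
    unfold Cbad
    rw [← hτdef]
    positivity
  set U := ms (ut M v) with hU
  set Z := S.filter (fun Q => gn S M w v Q = g ∧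
    (∀ Q' ∈ S, Q ⊆ Q' → lev M w v Q' ≤ lev M w v Q + r)) with hZ
  have hr1 : (1:ℝ) ≤ r + 1 := by
    have : (0:ℝ) ≤ r := Nat.cast_nonneg r
    linarith
  rcases Nat.eq_zero_or_pos g with hg | hg
  · have h1 := h.max_le Z (Finset.filter_subset _ _) Finset.univ (fun Q _ => Finset.subset_univ Q)
    refine h1.trans ?_
    rw [hg]
    simp only [Nat.zero_div, pow_zero, mul_one]
    apply mul_le_mul_of_nonneg_right _ hUn
    have h2 : C1 ≤ Cmain q C1 C2 C3 := by
      unfold Cmain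
      have : 0 ≤ 2 ^ q * ((2 * C3) ^ q * C1 + Cbad q C1 C2) := by positivity
      linarith
    nlinarith
  · set κ := g - g / 2 with hκ
    set n := g / 2 with hn
    have hκ0 : 0 < κ := by omega
    have hκn : n ≤ κ := by omega
    have hκng : κ + n = g := by omega
    set A := S.filter (fun P => gn S M w v P = κ ∧
      (∀ Q' ∈ S, P ⊆ Q' → lev M w v Q' ≤ lev M w v P + r)) with hA
    -- every Q in Z is below some P in A
    have hcov : ∀ Q ∈ Z, ∃ P ∈ A, Q ∈ S.filter (fun Q => Q ⊆ P ∧ lev M w v Q = lev M w v P ∧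
        gn S M w v Q = gn S M w v P + n) := by
      intro Q hQ
      obtain ⟨hQS, hQg, hQa⟩ := Finset.mem_filter.1 hQ
      obtain ⟨P, hP, hQP, _, hl, hgP⟩ := exists_anc S h.lam (fun _ => ∅) (lev M w v) g Q hQS hQg κ
        (by omega)
      have hgP' : gn S M w v P = κ := hgP
      refine ⟨P, Finset.mem_filter.2 ⟨hP, hgP', ?_⟩, Finset.mem_filter.2 ⟨hQS, hQP, hl.symm, ?_⟩⟩
      · intro Q' hQ' hPQ'
        rw [hl]
        exact hQa Q' hQ' (hQP.trans hPQ')
      · rw [hgP', hQg, hκng]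
    have h1 : ∑ Q ∈ Z, aa M w v Q ^ q * ms s Q ≤
        ∑ P ∈ A, ∑ Q ∈ S with Q ⊆ P ∧ lev M w v Q = lev M w v P ∧
          gn S M w v Q = gn S M w v P + n, (if Q ∈ S then aa M w v Q ^ q * ms s Q else 0) := by
      have h2 : ∑ Q ∈ Z, aa M w v Q ^ q * ms s Q =
          ∑ Q ∈ Z, (if Q ∈ S then aa M w v Q ^ q * ms s Q else 0) := by
        apply Finset.sum_congr rfl
        intro Q hQ
        rw [if_pos (Finset.mem_filter.1 hQ).1]
      rw [h2]
      apply sum_le_sum_cover Z A _ _ _ hcov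
      intro Q
      split_ifs with hQ
      · exact mul_nonneg (Real.rpow_nonneg (h.aa_pos hQ).le _) (ms_nonneg h.hs Q)
      · exact le_rfl
    have h2 : ∀ P ∈ A, ∑ Q ∈ S with Q ⊆ P ∧ lev M w v Q = lev M w v P ∧
          gn S M w v Q = gn S M w v P + n, (if Q ∈ S then aa M w v Q ^ q * ms s Q else 0) ≤
        2 ^ q * (aa M w v P ^ q * sn S M w v s n P) := by
      intro P hP
      have hPS := (Finset.mem_filter.1 hP).1
      unfold sn
      rw [Finset.mul_sum, Finset.mul_sum]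
      apply Finset.sum_le_sum
      intro Q hQ
      obtain ⟨hQS, hQP, hl, hgQ⟩ := Finset.mem_filter.1 hQ
      rw [if_pos hQS, ← mul_assoc]
      apply mul_le_mul_of_nonneg_right _ (ms_nonneg h.hs Q)
      rw [← Real.mul_rpow (by norm_num) (h.aa_pos hPS).le]
      exact Real.rpow_le_rpow (h.aa_pos hQS).le (h.aa_cmp hPS hl) hq.le
    have h3 : ∑ P ∈ A, aa M w v P ^ q * sn S M w v s n P =
        ∑ P ∈ A with isGood M v p q P (top S M w v P), aa M w v P ^ q * sn S M w v s n P +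
        ∑ P ∈ A with ¬ isGood M v p q P (top S M w v P), aa M w v P ^ q * sn S M w v s n P :=
      (Finset.sum_filter_add_sum_filter_not A _ _).symm
    have h4 : ∑ P ∈ A with isGood M v p q P (top S M w v P), aa M w v P ^ q * sn S M w v s n P ≤
        ((2 * C3) ^ q * C1) * (1 / 2) ^ κ * U Finset.univ := by
      refine le_trans (Finset.sum_le_sum ?_) (h.good_sum κ (A.filter (fun P =>
        isGood M v p q P (top S M w v P))) ((Finset.filter_subset _ _).trans
        (Finset.filter_subset _ _)) ?_)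
      · intro P hP
        have hPS := (Finset.mem_filter.1 (Finset.mem_filter.1 hP).1).1
        exact mul_le_mul_of_nonneg_left (h.sn_le hPS n) (Real.rpow_nonneg (h.aa_pos hPS).le _)
      · intro P hP
        obtain ⟨hP1, hP2⟩ := Finset.mem_filter.1 hP
        exact ⟨(Finset.mem_filter.1 hP1).2.1, hP2⟩
    have h5 : ∑ P ∈ A with ¬ isGood M v p q P (top S M w v P), aa M w v P ^ q * sn S M w v s n P ≤
        Cbad q C1 C2 * (r + 1) * (τ / 2) ^ n * U Finset.univ := by
      apply h.bad_sum r κ hκ0 n _ ((Finset.filter_subset _ _).trans (Finset.filter_subset _ _))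
      intro P hP
      obtain ⟨hP1, hP2⟩ := Finset.mem_filter.1 hP
      obtain ⟨_, hP3, hP4⟩ := Finset.mem_filter.1 hP1
      exact ⟨hP3, hP2, hP4⟩
    have h6 : (1 / 2 : ℝ) ^ κ ≤ (τ / 2) ^ n := by
      calc (1 / 2 : ℝ) ^ κ ≤ (1 / 2) ^ n := pow_le_pow_of_le_one (by norm_num) (by norm_num) hκn
        _ ≤ (τ / 2) ^ n := pow_le_pow_left₀ (by norm_num) (by linarith) n
    have hρn : 0 < (τ / 2) ^ n := by positivity
    calc ∑ Q ∈ Z, aa M w v Q ^ q * ms s Q
        ≤ ∑ P ∈ A, 2 ^ q * (aa M w v P ^ q * sn S M w v s n P) := h1.trans (Finset.sum_le_sum h2)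
      _ = 2 ^ q * ∑ P ∈ A, aa M w v P ^ q * sn S M w v s n P := by rw [← Finset.mul_sum]
      _ ≤ 2 ^ q * (((2 * C3) ^ q * C1) * (1 / 2) ^ κ * U Finset.univ +
            Cbad q C1 C2 * (r + 1) * (τ / 2) ^ n * U Finset.univ) := by
          apply mul_le_mul_of_nonneg_left _ (by positivity)
          rw [h3]; exact add_le_add h4 h5
      _ ≤ 2 ^ q * (((2 * C3) ^ q * C1) * ((r + 1) * (τ / 2) ^ n) * U Finset.univ +
            Cbad q C1 C2 * (r + 1) * (τ / 2) ^ n * U Finset.univ) := by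
          apply mul_le_mul_of_nonneg_left _ (by positivity)
          apply add_le_add _ le_rfl
          apply mul_le_mul_of_nonneg_right _ hUn
          apply mul_le_mul_of_nonneg_left _ (by positivity)
          calc (1 / 2 : ℝ) ^ κ ≤ 1 * (τ / 2) ^ n := by rw [one_mul]; exact h6
            _ ≤ (r + 1) * (τ / 2) ^ n := mul_le_mul_of_nonneg_right hr1 hρn.le
      _ = (2 ^ q * ((2 * C3) ^ q * C1 + Cbad q C1 C2)) * ((r + 1) * (τ / 2) ^ n * U Finset.univ) := by
          ring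
      _ ≤ Cmain q C1 C2 C3 * ((r + 1) * (τ / 2) ^ n * U Finset.univ) := by
          apply mul_le_mul_of_nonneg_right _ (by positivity)
          unfold Cmain
          linarith
      _ = _ := by ring

end facts

end Pool.Agent.TH279.RI
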