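import Pool.Agent.TH279.RI.Core5

set_option autoImplicit false
set_option linter.unusedSectionVars false
set_option linter.unusedVariables false

namespace Pool.Agent.TH279.RI

open Finset Pool.Agent.H433R3.Sep

/-- two bounds give a geometric mean -/
lemma interp {Y a κ θ : ℝ} (ha : 0 ≤ a) (hκ : 0 ≤ κ) (hθ0 : 0 < θ) (hθ1 : θ ≤ 1) (h1 : Y ≤ a)
    (h2 : Y ≤ a * κ) : Y ≤ a * κ ^ θ := by
  rcases le_total 1 κ with h | h
  · have : 1 ≤ κ ^ θ := Real.one_le_rpow h hθ0.le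
    nlinarith
  · have : κ ≤ κ ^ θ := by
      rcases eq_or_lt_of_le hκ with h0 | h0
      · rw [← h0, Real.zero_rpow hθ0.ne']
      · calc κ = κ ^ (1:ℝ) := (Real.rpow_one κ).symm
          _ ≤ κ ^ θ := Real.rpow_le_rpow_of_exponent_ge h0 h hθ1
    nlinarith

lemma geo_sum_le {x : ℝ} (h0 : 0 ≤ x) (h1 : x < 1) (n : ℕ) : ∑ i ∈ range n, x ^ i ≤ 1 / (1 - x) := by
  have h2 : 0 < 1 - x := by linarith
  rw [le_div_iff₀ h2, geom_sum_mul_neg]
  have : 0 ≤ x ^ n := by positivity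
  linarith

/-- Hölder with geometric weights for a family injectively indexed by two naturals. -/
lemma holder_geo {ι : Type*} {p q : ℝ} (hpq : p.HolderConjugate q) {β η : ℝ} (hβ0 : 0 < β)
    (hβ1 : β < 1) (hη0 : 0 < η) (hη1 : η < 1) (F : Finset ι) (r g : ι → ℕ)
    (hinj : ∀ i ∈ F, ∀ j ∈ F, r i = r j → g i = g j → i = j) :
    (∑ i ∈ F, (β ^ 2) ^ r i) ^ q ≤ (1 / (1 - β ^ p) * (1 / (1 - η ^ p))) ^ (q / p) *
      ∑ i ∈ F, (β ^ q) ^ r i * ((η ^ q)⁻¹) ^ g i := by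
  classical
  have hp := hpq.pos
  have hq := hpq.symm.pos
  have hβp : 0 < β ^ p := Real.rpow_pos_of_pos hβ0 _
  have hβp1 : β ^ p < 1 := Real.rpow_lt_one hβ0.le hβ1 hp
  have hηp : 0 < η ^ p := Real.rpow_pos_of_pos hη0 _
  have hηp1 : η ^ p < 1 := Real.rpow_lt_one hη0.le hη1 hp
  have h1 : ∑ i ∈ F, (β ^ 2) ^ r i = ∑ i ∈ F, (β ^ r i * η ^ g i) * (β ^ r i * (η⁻¹) ^ g i) := by
    apply Finset.sum_congr rfl
    intro i _
    have : η ^ g i * (η⁻¹) ^ g i = 1 := by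
      rw [← mul_pow, mul_inv_cancel₀ hη0.ne', one_pow]
    calc (β ^ 2) ^ r i = (β ^ r i) * (β ^ r i) := by rw [← pow_mul, mul_comm 2, pow_mul, sq]
      _ = (β ^ r i) * (β ^ r i) * (η ^ g i * (η⁻¹) ^ g i) := by rw [this, mul_one]
      _ = _ := by ring
  have h2 := Real.inner_le_Lp_mul_Lq_of_nonneg F hpq (f := fun i => β ^ r i * η ^ g i)
    (g := fun i => β ^ r i * (η⁻¹) ^ g i) (fun i _ => by positivity) (fun i _ => by positivity)
  have e1 : ∀ (x : ℝ) (t : ℝ) (n : ℕ), 0 ≤ x → (x ^ n) ^ t = (x ^ t) ^ n := by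
    intro x t n hx
    rw [← Real.rpow_natCast, ← Real.rpow_natCast, ← Real.rpow_mul hx, ← Real.rpow_mul hx, mul_comm]
  have h3 : ∑ i ∈ F, (β ^ r i * η ^ g i) ^ p ≤ 1 / (1 - β ^ p) * (1 / (1 - η ^ p)) := by
    obtain ⟨n, hn⟩ : ∃ n : ℕ, ∀ i ∈ F, r i < n ∧ g i < n := by
      refine ⟨F.sup r + F.sup g + 1, fun i hi => ?_⟩
      have a1 := Finset.le_sup (f := r) hi
      have a2 := Finset.le_sup (f := g) hi
      omega
    have h4 : ∑ i ∈ F, (β ^ r i * η ^ g i) ^ p =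
        ∑ z ∈ F.image (fun i => (r i, g i)), (β ^ p) ^ z.1 * (η ^ p) ^ z.2 := by
      rw [Finset.sum_image]
      · apply Finset.sum_congr rfl
        intro i _
        rw [Real.mul_rpow (by positivity) (by positivity), e1 β p _ hβ0.le, e1 η p _ hη0.le]
      · intro i hi j hj hij
        rw [Prod.mk.injEq] at hij
        exact hinj i hi j hj hij.1 hij.2
    rw [h4]
    have h5 : F.image (fun i => (r i, g i)) ⊆ (range n) ×ˢ (range n) := by
      intro z hz
      obtain ⟨i, hi, rfl⟩ := Finset.mem_image.1 hz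
      rw [Finset.mem_product, Finset.mem_range, Finset.mem_range]
      exact hn i hi
    refine (Finset.sum_le_sum_of_subset_of_nonneg h5 (fun z _ _ => by positivity)).trans ?_
    rw [Finset.sum_product, ← Finset.sum_mul_sum]
    exact mul_le_mul (geo_sum_le hβp.le hβp1 n) (geo_sum_le hηp.le hηp1 n)
      (Finset.sum_nonneg (fun _ _ => by positivity)) (by
        have : 0 < 1 - β ^ p := by linarith
        positivity)
  have h6 : ∑ i ∈ F, (β ^ r i * (η⁻¹) ^ g i) ^ q = ∑ i ∈ F, (β ^ q) ^ r i * ((η ^ q)⁻¹) ^ g i := by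
    apply Finset.sum_congr rfl
    intro i _
    rw [Real.mul_rpow (by positivity) (by positivity), e1 β q _ hβ0.le,
      e1 (η⁻¹) q _ (by positivity), Real.inv_rpow hη0.le]
  rw [h6] at h2
  have hD0 : 0 ≤ ∑ i ∈ F, (β ^ q) ^ r i * ((η ^ q)⁻¹) ^ g i :=
    Finset.sum_nonneg (fun _ _ => by positivity)
  have hE0 : 0 ≤ ∑ i ∈ F, (β ^ r i * η ^ g i) ^ p := Finset.sum_nonneg (fun _ _ => by positivity)
  have h7 : ∑ i ∈ F, (β ^ 2) ^ r i ≤ (1 / (1 - β ^ p) * (1 / (1 - η ^ p))) ^ (1 / p) *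
      (∑ i ∈ F, (β ^ q) ^ r i * ((η ^ q)⁻¹) ^ g i) ^ (1 / q) := by
    rw [h1]
    refine h2.trans ?_
    apply mul_le_mul_of_nonneg_right _ (by positivity)
    exact Real.rpow_le_rpow hE0 h3 (by positivity)
  have hS0 : 0 ≤ ∑ i ∈ F, (β ^ 2) ^ r i := Finset.sum_nonneg (fun _ _ => by positivity)
  have hC0 : 0 ≤ 1 / (1 - β ^ p) * (1 / (1 - η ^ p)) := by
    have a1 : 0 < 1 - β ^ p := by linarith
    have a2 : 0 < 1 - η ^ p := by linarith
    positivity
  calc (∑ i ∈ F, (β ^ 2) ^ r i) ^ q ≤ ((1 / (1 - β ^ p) * (1 / (1 - η ^ p))) ^ (1 / p) *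
      (∑ i ∈ F, (β ^ q) ^ r i * ((η ^ q)⁻¹) ^ g i) ^ (1 / q)) ^ q :=
        Real.rpow_le_rpow hS0 h7 hq.le
    _ = _ := by
        rw [Real.mul_rpow (by positivity) (by positivity), ← Real.rpow_mul hC0,
          ← Real.rpow_mul hD0, one_div_mul_cancel hq.ne', Real.rpow_one]
        congr 2
        ring

variable {X : Type*} [Fintype X] [DecidableEq X]

section facts

variable {S : Finset (Finset X)} {M : Finset ℤ} {w : X → ℝ} {v : ℤ → X → ℝ} {s : X → ℝ}
    {N : Finset X → Finset ℤ → ℝ} {p q C1 C2 C3 : ℝ}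

/-- cubes through a point -/
def Sx (S : Finset (Finset X)) (x : X) : Finset (Finset X) := S.filter (fun Q => x ∈ Q)

lemma mem_Sx {S : Finset (Finset X)} {x : X} {Q : Finset X} : Q ∈ Sx S x ↔ Q ∈ S ∧ x ∈ Q := by
  simp [Sx]

open Classical in
/-- maximal level of the cubes containing `x` -/
noncomputable def Lm (S : Finset (Finset X)) (M : Finset ℤ) (w : X → ℝ) (v : ℤ → X → ℝ) (x : X) : ℤ :=
  if h : (Sx S x).Nonempty then (Sx S x).sup' h (lev M w v) else 0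

lemma lev_le_Lm {x : X} {Q : Finset X} (hQ : Q ∈ Sx S x) : lev M w v Q ≤ Lm S M w v x := by
  unfold Lm
  rw [dif_pos ⟨Q, hQ⟩]
  exact Finset.le_sup' (lev M w v) hQ

lemma exists_Lm {x : X} (h : (Sx S x).Nonempty) : ∃ Q ∈ Sx S x, lev M w v Q = Lm S M w v x := by
  unfold Lm
  rw [dif_pos h]
  obtain ⟨Q, hQ, he⟩ := Finset.exists_mem_eq_sup' h (lev M w v)
  exact ⟨Q, hQ, he.symm⟩

/-- drop of the level -/
noncomputable def rr (S : Finset (Finset X)) (M : Finset ℤ) (w : X → ℝ) (v : ℤ → X → ℝ) (x : X)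
    (Q : Finset X) : ℕ := (Lm S M w v x - lev M w v Q).toNat

lemma rr_eq {x : X} {Q : Finset X} (hQ : Q ∈ Sx S x) :
    Lm S M w v x = lev M w v Q + (rr S M w v x Q : ℤ) := by
  have := lev_le_Lm (S := S) (M := M) (w := w) (v := v) hQ
  unfold rr
  omega

lemma pow_Lm {x : X} {Q : Finset X} (hQ : Q ∈ Sx S x) :
    (2:ℝ) ^ Lm S M w v x = 2 ^ rr S M w v x Q * 2 ^ lev M w v Q := by
  rw [rr_eq hQ, zpow_add₀ (by norm_num), zpow_natCast, mul_comm]

open Classical in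
/-- the contribution of drop `r` and generation `g` -/
noncomputable def YY (S : Finset (Finset X)) (M : Finset ℤ) (w : X → ℝ) (v : ℤ → X → ℝ)
    (s : X → ℝ) (q : ℝ) (r g : ℕ) : ℝ :=
  ∑ x, s x * ((2:ℝ) ^ Lm S M w v x) ^ q *
    ∑ Q ∈ Sx S x, (if rr S M w v x Q = r ∧ gn S M w v Q = g then 1 else 0)

lemma Core.YY_one (h : Core S M w v s N p q C1 C2 C3) (r g : ℕ) :
    YY S M w v s q r g ≤ ((2:ℝ) ^ r) ^ q *
      (Cmain q C1 C2 C3 * (r + 1) * (tt q / 2) ^ (g / 2) * ms (ut M v) Finset.univ) := by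
  classical
  have hq := h.q_pos
  refine le_trans ?_ (mul_le_mul_of_nonneg_left (h.main_prop r g) (by positivity))
  set Z := S.filter (fun Q => gn S M w v Q = g ∧
    (∀ Q' ∈ S, Q ⊆ Q' → lev M w v Q' ≤ lev M w v Q + r)) with hZ
  have h1 : ∀ x, s x * ((2:ℝ) ^ Lm S M w v x) ^ q *
      ∑ Q ∈ Sx S x, (if rr S M w v x Q = r ∧ gn S M w v Q = g then 1 else 0) ≤
      ∑ Q ∈ Z, (if x ∈ Q then ((2:ℝ) ^ r) ^ q * aa M w v Q ^ q * s x else 0) := by
    intro x
    have hs := h.hs x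
    rw [Finset.mul_sum]
    have h2 : ∀ Q ∈ Sx S x, s x * ((2:ℝ) ^ Lm S M w v x) ^ q *
        (if rr S M w v x Q = r ∧ gn S M w v Q = g then 1 else 0) ≤
        (if Q ∈ Z then (if x ∈ Q then ((2:ℝ) ^ r) ^ q * aa M w v Q ^ q * s x else 0) else 0) := by
      intro Q hQ
      have hQ' := mem_Sx.1 hQ
      by_cases hc : rr S M w v x Q = r ∧ gn S M w v Q = g
      · have hQZ : Q ∈ Z := by
          refine Finset.mem_filter.2 ⟨hQ'.1, hc.2, ?_⟩
          intro Q' hQ'S hQQ'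
          have h3 := lev_le_Lm (S := S) (M := M) (w := w) (v := v)
            (mem_Sx.2 ⟨hQ'S, hQQ' hQ'.2⟩)
          rw [rr_eq hQ, hc.1] at h3
          exact h3
        rw [if_pos hc, if_pos hQZ, if_pos hQ'.2, mul_one, pow_Lm hQ, hc.1,
          Real.mul_rpow (by positivity) (by positivity)]
        have h4 : ((2:ℝ) ^ lev M w v Q) ^ q ≤ aa M w v Q ^ q :=
          Real.rpow_le_rpow (by positivity) (h.le_aa hQ'.1) hq.le
        calc s x * (((2:ℝ) ^ r) ^ q * ((2:ℝ) ^ lev M w v Q) ^ q)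
            ≤ s x * (((2:ℝ) ^ r) ^ q * aa M w v Q ^ q) := by
              apply mul_le_mul_of_nonneg_left _ hs
              exact mul_le_mul_of_nonneg_left h4 (by positivity)
          _ = _ := by ring
      · rw [if_neg hc, mul_zero]
        split_ifs with hz hx
        · have := h.aa_pos (Finset.mem_filter.1 hz).1
          positivity
        · exact le_rfl
        · exact le_rfl
    refine (Finset.sum_le_sum h2).trans ?_
    rw [← Finset.sum_filter]
    apply Finset.sum_le_sum_of_subset_of_nonneg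
    · intro Q hQ; exact (Finset.mem_filter.1 hQ).2
    · intro Q hQ _
      split_ifs
      · have := h.aa_pos (Finset.mem_filter.1 hQ).1
        positivity
      · exact le_rfl
  unfold YY
  refine (Finset.sum_le_sum (fun x _ => h1 x)).trans ?_
  rw [Finset.sum_comm, Finset.mul_sum]
  apply Finset.sum_le_sum
  intro Q _
  apply le_of_eq
  unfold ms
  rw [Finset.sum_ite_mem, Finset.univ_inter, Finset.mul_sum, Finset.mul_sum]
  apply Finset.sum_congr rfl
  intro x _; ring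

lemma Core.YY_two (h : Core S M w v s N p q C1 C2 C3) (r g : ℕ) :
    YY S M w v s q r g ≤ C1 * ms (ut M v) Finset.univ := by
  classical
  have hq := h.q_pos
  refine le_trans ?_ (h.max_le S subset_rfl Finset.univ (fun Q _ => Finset.subset_univ Q))
  have h1 : ∀ x, s x * ((2:ℝ) ^ Lm S M w v x) ^ q *
      ∑ Q ∈ Sx S x, (if rr S M w v x Q = r ∧ gn S M w v Q = g then 1 else 0) ≤
      ∑ Q ∈ S, (if x ∈ Q then aa M w v Q ^ q * s x else 0) := by
    intro x
    have hs := h.hs x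
    by_cases hne : (Sx S x).Nonempty
    · have hcard : ∑ Q ∈ Sx S x, (if rr S M w v x Q = r ∧ gn S M w v Q = g then (1:ℝ) else 0) ≤ 1 := by
        rw [← Finset.sum_filter, Finset.sum_const, nsmul_eq_mul, mul_one]
        have : ((Sx S x).filter (fun Q => rr S M w v x Q = r ∧ gn S M w v Q = g)).card ≤ 1 := by
          rw [Finset.card_le_one]
          intro P hP Q hQ
          obtain ⟨hP1, hP2, hP3⟩ := Finset.mem_filter.1 hP
          obtain ⟨hQ1, hQ2, hQ3⟩ := Finset.mem_filter.1 hQ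
          have e1 := rr_eq (S := S) (M := M) (w := w) (v := v) hP1
          have e2 := rr_eq (S := S) (M := M) (w := w) (v := v) hQ1
          rw [hP2] at e1
          rw [hQ2] at e2
          exact h.gen_unique (mem_Sx.1 hP1).1 (mem_Sx.1 hQ1).1 (by omega) (by rw [hP3, hQ3])
            (mem_Sx.1 hP1).2 (mem_Sx.1 hQ1).2
        exact_mod_cast this
      obtain ⟨Q0, hQ0, hQ0l⟩ := exists_Lm (M := M) (w := w) (v := v) hne
      have hQ0' := mem_Sx.1 hQ0
      have h4 : ((2:ℝ) ^ Lm S M w v x) ^ q ≤ aa M w v Q0 ^ q := by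
        rw [← hQ0l]
        exact Real.rpow_le_rpow (by positivity) (h.le_aa hQ0'.1) hq.le
      calc s x * ((2:ℝ) ^ Lm S M w v x) ^ q *
            ∑ Q ∈ Sx S x, (if rr S M w v x Q = r ∧ gn S M w v Q = g then 1 else 0)
          ≤ s x * ((2:ℝ) ^ Lm S M w v x) ^ q * 1 :=
            mul_le_mul_of_nonneg_left hcard (by positivity)
        _ ≤ s x * aa M w v Q0 ^ q := by rw [mul_one]; exact mul_le_mul_of_nonneg_left h4 hs
        _ = (if x ∈ Q0 then aa M w v Q0 ^ q * s x else 0) := by rw [if_pos hQ0'.2]; ring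
        _ ≤ _ := Finset.single_le_sum (f := fun Q => if x ∈ Q then aa M w v Q ^ q * s x else 0)
            (fun Q hQ => by
              split_ifs
              · have := h.aa_pos hQ
                positivity
              · exact le_rfl) hQ0'.1
    · rw [Finset.not_nonempty_iff_eq_empty] at hne
      rw [hne, Finset.sum_empty, mul_zero]
      apply Finset.sum_nonneg
      intro Q hQ
      split_ifs
      · have := h.aa_pos hQ
        positivity
      · exact le_rfl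
  unfold YY
  refine (Finset.sum_le_sum (fun x _ => h1 x)).trans ?_
  rw [Finset.sum_comm]
  apply Finset.sum_le_sum
  intro Q _
  apply le_of_eq
  unfold ms
  rw [Finset.sum_ite_mem, Finset.univ_inter, Finset.mul_sum]

lemma Core.Cmain_pos (h : Core S M w v s N p q C1 C2 C3) : C1 ≤ Cmain q C1 C2 C3 := by
  have hq := h.q_pos
  have hq1 : 1 < q := h.hpq.symm.lt
  have hC1 := h.C1pos
  have hC2 := h.C2pos
  have hC3 := h.C3pos
  have hτ := tt_pos q
  have hτ2 := tt_lt hq1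
  have hρ1 : 0 < 1 - tt q / 2 := by linarith
  have hCbad : 0 ≤ Cbad q C1 C2 := by
    unfold Cbad
    positivity
  unfold Cmain
  have : 0 ≤ 2 ^ q * ((2 * C3) ^ q * C1 + Cbad q C1 C2) := by positivity
  linarith

/-- bound for `YY` -/
lemma Core.YY_le (h : Core S M w v s N p q C1 C2 C3) (r g : ℕ) :
    YY S M w v s q r g ≤ (Cmain q C1 C2 C3 * ms (ut M v) Finset.univ) *
      ((tt q / 2) ^ (-(1/16) : ℝ) * (((2:ℝ) ^ ((q + 1) / 8)) ^ r *
        (((tt q / 2) ^ ((1:ℝ)/16)) ^ g))) := by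
  have hq := h.q_pos
  have hq1 : 1 < q := h.hpq.symm.lt
  have hτ := tt_pos q
  have hτ2 := tt_lt hq1
  have hCm := h.Cmain_pos
  have hC1 := h.C1pos
  have hUn : 0 ≤ ms (ut M v) Finset.univ := ms_nonneg (ut_nonneg h.hv) _
  set ρ := tt q / 2 with hρ
  have hρ0 : 0 < ρ := by rw [hρ]; positivity
  have hρ1 : ρ < 1 := by rw [hρ]; linarith
  set C := Cmain q C1 C2 C3 with hC
  have hC0 : 0 < C := lt_of_lt_of_le hC1 hCm
  have h1 : YY S M w v s q r g ≤ C * ms (ut M v) Finset.univ :=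
    (h.YY_two r g).trans (mul_le_mul_of_nonneg_right hCm hUn)
  set κ := ((2:ℝ) ^ r) ^ q * ((r + 1) * ρ ^ (g / 2)) with hκ
  have h2 : YY S M w v s q r g ≤ (C * ms (ut M v) Finset.univ) * κ := by
    refine (h.YY_one r g).trans (le_of_eq ?_)
    rw [hκ]; ring
  have h3 := interp (mul_nonneg hC0.le hUn) (by positivity) (by norm_num : (0:ℝ) < 1 / 8)
    (by norm_num) h1 h2
  refine h3.trans ?_
  apply mul_le_mul_of_nonneg_left _ (mul_nonneg hC0.le hUn)
  -- κ^(1/8)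
  have e1 : ((2:ℝ) ^ r) ^ q * (r + 1) ≤ ((2:ℝ) ^ (q + 1)) ^ r := by
    have a1 : ((r : ℝ) + 1) ≤ 2 ^ r := by
      have : r + 1 ≤ 2 ^ r := Nat.lt_two_pow_self
      exact_mod_cast this
    have a2 : ((2:ℝ) ^ r) ^ q = ((2:ℝ) ^ q) ^ r := by
      rw [← Real.rpow_natCast, ← Real.rpow_natCast, ← Real.rpow_mul (by norm_num),
        ← Real.rpow_mul (by norm_num), mul_comm]
    rw [Real.rpow_add (by norm_num), Real.rpow_one, mul_pow, a2]
    exact mul_le_mul_of_nonneg_left a1 (by positivity)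
  have e2 : ρ ^ (g / 2) ≤ ((ρ⁻¹ * ρ ^ g)) ^ ((1:ℝ) / 2) := by
    have a1 : (ρ ^ (g / 2)) ^ 2 ≤ ρ⁻¹ * ρ ^ g := by
      rw [← pow_mul]
      have a2 : ρ * ρ ^ (g / 2 * 2) ≤ ρ ^ g := by
        rw [← pow_succ']
        exact pow_le_pow_of_le_one hρ0.le hρ1.le (by omega)
      rw [inv_mul_eq_div, le_div_iff₀ hρ0, mul_comm]
      exact a2
    have a3 : ρ ^ (g / 2) = ((ρ ^ (g / 2)) ^ 2) ^ ((1:ℝ) / 2) := by
      rw [← Real.sqrt_eq_rpow, Real.sqrt_sq (by positivity)]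
    rw [a3]
    exact Real.rpow_le_rpow (by positivity) a1 (by norm_num)
  have e3 : κ ≤ ((2:ℝ) ^ (q + 1)) ^ r * ((ρ⁻¹ * ρ ^ g)) ^ ((1:ℝ) / 2) := by
    rw [hκ, ← mul_assoc]
    exact mul_le_mul e1 e2 (by positivity) (by positivity)
  calc κ ^ ((1:ℝ) / 8) ≤ (((2:ℝ) ^ (q + 1)) ^ r * ((ρ⁻¹ * ρ ^ g)) ^ ((1:ℝ) / 2)) ^ ((1:ℝ) / 8) :=
        Real.rpow_le_rpow (by positivity) e3 (by norm_num)
    _ = _ := by
        rw [Real.mul_rpow (by positivity) (by positivity), ← Real.rpow_mul (by positivity),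
          Real.mul_rpow (by positivity) (by positivity)]
        have b1 : (((2:ℝ) ^ (q + 1)) ^ r) ^ ((1:ℝ) / 8) = ((2:ℝ) ^ ((q + 1) / 8)) ^ r := by
          rw [← Real.rpow_natCast, ← Real.rpow_natCast, ← Real.rpow_mul (by positivity),
            ← Real.rpow_mul (by positivity), ← Real.rpow_mul (by positivity)]
          congr 1; ring
        have b2 : (ρ⁻¹) ^ ((1:ℝ) / 2 * (1 / 8)) = ρ ^ (-(1/16) : ℝ) := by
          rw [← Real.rpow_neg_one, ← Real.rpow_mul hρ0.le]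
          congr 1; norm_num
        have b3 : (ρ ^ g) ^ ((1:ℝ) / 2 * (1 / 8)) = (ρ ^ ((1:ℝ)/16)) ^ g := by
          rw [← Real.rpow_natCast, ← Real.rpow_natCast, ← Real.rpow_mul hρ0.le,
            ← Real.rpow_mul hρ0.le]
          congr 1; ring
        rw [b1, b2, b3]; ring

/-- the final constant -/
noncomputable def Cfin (p q C1 C2 C3 : ℝ) : ℝ :=
  2 ^ q * ((1 / (1 - ((2:ℝ) ^ (-(1/2) : ℝ)) ^ p) *
    (1 / (1 - ((tt q / 2) ^ (1 / (32 * q))) ^ p))) ^ (q / p)) *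
  (Cmain q C1 C2 C3 * ((tt q / 2) ^ (-(1/16) : ℝ) *
    ((1 / (1 - (2:ℝ) ^ (-(q / 2) + (q + 1) / 8))) * (1 / (1 - (tt q / 2) ^ ((1:ℝ)/32))))))

/-- **The testing theorem**, discrete form. -/
theorem Core.testing (h : Core S M w v s N p q C1 C2 C3) :
    ∑ x, s x * (∑ Q ∈ S with x ∈ Q, aa M w v Q) ^ q ≤
      Cfin p q C1 C2 C3 * ms (ut M v) Finset.univ := by
  classical
  have hq := h.q_pos
  have hp := h.hpq.pos
  have hq1 : 1 < q := h.hpq.symm.lt
  have hτ := tt_pos q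
  have hτ2 := tt_lt hq1
  have hCm := h.Cmain_pos
  have hC1 := h.C1pos
  have hUn : 0 ≤ ms (ut M v) Finset.univ := ms_nonneg (ut_nonneg h.hv) _
  set ρ := tt q / 2 with hρ
  have hρ0 : 0 < ρ := by rw [hρ]; positivity
  have hρ1 : ρ < 1 := by rw [hρ]; linarith
  set C := Cmain q C1 C2 C3 with hC
  have hC0 : 0 < C := lt_of_lt_of_le hC1 hCm
  set β := (2:ℝ) ^ (-(1/2) : ℝ) with hβ
  set η := ρ ^ (1 / (32 * q)) with hη
  have hβ0 : 0 < β := by rw [hβ]; positivity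
  have hβ1 : β < 1 := by
    rw [hβ]
    exact Real.rpow_lt_one_of_one_lt_of_neg (by norm_num) (by norm_num)
  have hη0 : 0 < η := by rw [hη]; positivity
  have hη1 : η < 1 := by
    rw [hη]
    exact Real.rpow_lt_one hρ0.le hρ1 (by positivity)
  have hβ2 : β ^ 2 = 1 / 2 := by
    rw [hβ, ← Real.rpow_natCast, ← Real.rpow_mul (by norm_num)]
    have : (-(1/2) : ℝ) * ((2:ℕ) : ℝ) = -1 := by norm_num
    rw [this, Real.rpow_neg_one]; norm_num
  set Cb := (1 / (1 - β ^ p) * (1 / (1 - η ^ p))) ^ (q / p) with hCb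
  have hCb0 : 0 ≤ Cb := by
    rw [hCb]
    have a1 : 0 < 1 - β ^ p := by
      have := Real.rpow_lt_one hβ0.le hβ1 hp
      linarith
    have a2 : 0 < 1 - η ^ p := by
      have := Real.rpow_lt_one hη0.le hη1 hp
      linarith
    positivity
  -- pointwise
  have hpt : ∀ x, (∑ Q ∈ S with x ∈ Q, aa M w v Q) ^ q ≤ 2 ^ q * Cb * (((2:ℝ) ^ Lm S M w v x) ^ q *
      ∑ Q ∈ Sx S x, (β ^ q) ^ rr S M w v x Q * ((η ^ q)⁻¹) ^ gn S M w v Q) := by
    intro x
    have h1 : ∑ Q ∈ S with x ∈ Q, aa M w v Q ≤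
        2 * (2:ℝ) ^ Lm S M w v x * ∑ Q ∈ Sx S x, (β ^ 2) ^ rr S M w v x Q := by
      rw [Finset.mul_sum]
      apply Finset.sum_le_sum
      intro Q hQ
      have hQ' : Q ∈ Sx S x := hQ
      refine (aa_le M w v Q).trans (le_of_eq ?_)
      rw [pow_Lm hQ', hβ2]
      have : (2:ℝ) ^ rr S M w v x Q * (1 / 2) ^ rr S M w v x Q = 1 := by
        rw [← mul_pow]; norm_num
      calc 2 * (2:ℝ) ^ lev M w v Q =
            2 * (2:ℝ) ^ lev M w v Q * ((2:ℝ) ^ rr S M w v x Q * (1 / 2) ^ rr S M w v x Q) := by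
              rw [this, mul_one]
        _ = _ := by ring
    have h0 : 0 ≤ ∑ Q ∈ S with x ∈ Q, aa M w v Q :=
      Finset.sum_nonneg (fun Q hQ => (h.aa_pos (Finset.mem_filter.1 hQ).1).le)
    have h2 := holder_geo h.hpq hβ0 hβ1 hη0 hη1 (Sx S x) (fun Q => rr S M w v x Q)
      (fun Q => gn S M w v Q) (by
        intro P hP Q hQ hr hg
        have e1 := rr_eq (S := S) (M := M) (w := w) (v := v) hP
        have e2 := rr_eq (S := S) (M := M) (w := w) (v := v) hQ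
        have hr' : rr S M w v x P = rr S M w v x Q := hr
        rw [hr'] at e1
        exact h.gen_unique (mem_Sx.1 hP).1 (mem_Sx.1 hQ).1 (by omega) hg
          (mem_Sx.1 hP).2 (mem_Sx.1 hQ).2)
    calc (∑ Q ∈ S with x ∈ Q, aa M w v Q) ^ q
        ≤ (2 * (2:ℝ) ^ Lm S M w v x * ∑ Q ∈ Sx S x, (β ^ 2) ^ rr S M w v x Q) ^ q :=
          Real.rpow_le_rpow h0 h1 hq.le
      _ = 2 ^ q * ((2:ℝ) ^ Lm S M w v x) ^ q * (∑ Q ∈ Sx S x, (β ^ 2) ^ rr S M w v x Q) ^ q := by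
          rw [Real.mul_rpow (by positivity) (Finset.sum_nonneg (fun _ _ => by positivity)),
            Real.mul_rpow (by norm_num) (by positivity)]
      _ ≤ 2 ^ q * ((2:ℝ) ^ Lm S M w v x) ^ q * (Cb *
          ∑ Q ∈ Sx S x, (β ^ q) ^ rr S M w v x Q * ((η ^ q)⁻¹) ^ gn S M w v Q) :=
          mul_le_mul_of_nonneg_left h2 (by positivity)
      _ = _ := by ring
  -- ranges
  obtain ⟨n, hn⟩ : ∃ n : ℕ, ∀ x, ∀ Q ∈ Sx S x, rr S M w v x Q < n ∧ gn S M w v Q < n := by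
    refine ⟨Finset.univ.sup (fun x => (Sx S x).sup (fun Q => rr S M w v x Q + gn S M w v Q)) + 1,
      fun x Q hQ => ?_⟩
    have a1 : rr S M w v x Q + gn S M w v Q ≤
      (Sx S x).sup (fun Q => rr S M w v x Q + gn S M w v Q) :=
      Finset.le_sup (f := fun Q => rr S M w v x Q + gn S M w v Q) hQ
    have a2 : (Sx S x).sup (fun Q => rr S M w v x Q + gn S M w v Q) ≤
      Finset.univ.sup (fun x => (Sx S x).sup (fun Q => rr S M w v x Q + gn S M w v Q)) :=
      Finset.le_sup (f := fun x => (Sx S x).sup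
      (fun Q => rr S M w v x Q + gn S M w v Q)) (Finset.mem_univ x)
    omega
  have hgroup : ∀ x, ∑ Q ∈ Sx S x, (β ^ q) ^ rr S M w v x Q * ((η ^ q)⁻¹) ^ gn S M w v Q =
      ∑ r ∈ range n, ∑ g ∈ range n, ((β ^ q) ^ r * ((η ^ q)⁻¹) ^ g) *
        ∑ Q ∈ Sx S x, (if rr S M w v x Q = r ∧ gn S M w v Q = g then 1 else 0) := by
    intro x
    have e1 : ∀ Q ∈ Sx S x, (β ^ q) ^ rr S M w v x Q * ((η ^ q)⁻¹) ^ gn S M w v Q =
        ∑ r ∈ range n, ∑ g ∈ range n, ((β ^ q) ^ r * ((η ^ q)⁻¹) ^ g) *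
          (if rr S M w v x Q = r ∧ gn S M w v Q = g then 1 else 0) := by
      intro Q hQ
      obtain ⟨b1, b2⟩ := hn x Q hQ
      rw [Finset.sum_eq_single (rr S M w v x Q)]
      · rw [Finset.sum_eq_single (gn S M w v Q)]
        · simp
        · intro g _ hg
          rw [if_neg (fun hc => hg hc.2.symm), mul_zero]
        · intro hc; exact absurd (Finset.mem_range.2 b2) hc
      · intro r _ hr
        apply Finset.sum_eq_zero
        intro g _
        rw [if_neg (fun hc => hr hc.1.symm), mul_zero]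
      · intro hc; exact absurd (Finset.mem_range.2 b1) hc
    rw [Finset.sum_congr rfl e1, Finset.sum_comm]
    apply Finset.sum_congr rfl
    intro r _
    rw [Finset.sum_comm]
    apply Finset.sum_congr rfl
    intro g _
    rw [Finset.mul_sum]
  have hT : ∑ x, s x * (∑ Q ∈ S with x ∈ Q, aa M w v Q) ^ q ≤ 2 ^ q * Cb *
      ∑ r ∈ range n, ∑ g ∈ range n, ((β ^ q) ^ r * ((η ^ q)⁻¹) ^ g) * YY S M w v s q r g := by
    have e1 : ∑ r ∈ range n, ∑ g ∈ range n, ((β ^ q) ^ r * ((η ^ q)⁻¹) ^ g) * YY S M w v s q r g =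
        ∑ x, s x * (((2:ℝ) ^ Lm S M w v x) ^ q *
          ∑ Q ∈ Sx S x, (β ^ q) ^ rr S M w v x Q * ((η ^ q)⁻¹) ^ gn S M w v Q) := by
      unfold YY
      calc ∑ r ∈ range n, ∑ g ∈ range n, ((β ^ q) ^ r * ((η ^ q)⁻¹) ^ g) *
            ∑ x, s x * ((2:ℝ) ^ Lm S M w v x) ^ q *
              ∑ Q ∈ Sx S x, (if rr S M w v x Q = r ∧ gn S M w v Q = g then 1 else 0)
          = ∑ r ∈ range n, ∑ x, ∑ g ∈ range n, ((β ^ q) ^ r * ((η ^ q)⁻¹) ^ g) *
            (s x * ((2:ℝ) ^ Lm S M w v x) ^ q *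
              ∑ Q ∈ Sx S x, (if rr S M w v x Q = r ∧ gn S M w v Q = g then 1 else 0)) := by
            apply Finset.sum_congr rfl
            intro r _
            rw [Finset.sum_comm]
            apply Finset.sum_congr rfl
            intro g _
            rw [Finset.mul_sum]
        _ = ∑ x, ∑ r ∈ range n, ∑ g ∈ range n, ((β ^ q) ^ r * ((η ^ q)⁻¹) ^ g) *
            (s x * ((2:ℝ) ^ Lm S M w v x) ^ q *
              ∑ Q ∈ Sx S x, (if rr S M w v x Q = r ∧ gn S M w v Q = g then 1 else 0)) :=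
            Finset.sum_comm
        _ = _ := by
            apply Finset.sum_congr rfl
            intro x _
            rw [hgroup, Finset.mul_sum, Finset.mul_sum]
            apply Finset.sum_congr rfl
            intro r _
            rw [Finset.mul_sum, Finset.mul_sum]
            apply Finset.sum_congr rfl
            intro g _
            ring
    rw [e1, Finset.mul_sum]
    apply Finset.sum_le_sum
    intro x _
    calc s x * (∑ Q ∈ S with x ∈ Q, aa M w v Q) ^ q ≤ s x * (2 ^ q * Cb *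
          (((2:ℝ) ^ Lm S M w v x) ^ q *
          ∑ Q ∈ Sx S x, (β ^ q) ^ rr S M w v x Q * ((η ^ q)⁻¹) ^ gn S M w v Q)) :=
          mul_le_mul_of_nonneg_left (hpt x) (h.hs x)
      _ = _ := by ring
  refine hT.trans ?_
  have hx1 : β ^ q * (2:ℝ) ^ ((q + 1) / 8) = (2:ℝ) ^ (-(q / 2) + (q + 1) / 8) := by
    rw [hβ, ← Real.rpow_mul (by norm_num), ← Real.rpow_add (by norm_num)]
    congr 1; ring
  have hx2 : (η ^ q)⁻¹ * ρ ^ ((1:ℝ)/16) = ρ ^ ((1:ℝ)/32) := by
    rw [hη, ← Real.rpow_mul hρ0.le, ← Real.rpow_neg hρ0.le, ← Real.rpow_add hρ0]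
    congr 1
    field_simp
    ring
  have hx1lt : (2:ℝ) ^ (-(q / 2) + (q + 1) / 8) < 1 :=
    Real.rpow_lt_one_of_one_lt_of_neg (by norm_num) (by linarith)
  have hx2lt : ρ ^ ((1:ℝ)/32) < 1 := Real.rpow_lt_one hρ0.le hρ1 (by norm_num)
  have hterm : ∀ r g : ℕ, ((β ^ q) ^ r * ((η ^ q)⁻¹) ^ g) * YY S M w v s q r g ≤
      (C * ms (ut M v) Finset.univ * ρ ^ (-(1/16) : ℝ)) *
        (((2:ℝ) ^ (-(q / 2) + (q + 1) / 8)) ^ r * (ρ ^ ((1:ℝ)/32)) ^ g) := by
    intro r g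
    have h1 := h.YY_le r g
    rw [← hx1, ← hx2, mul_pow, mul_pow]
    calc ((β ^ q) ^ r * ((η ^ q)⁻¹) ^ g) * YY S M w v s q r g
        ≤ ((β ^ q) ^ r * ((η ^ q)⁻¹) ^ g) * ((C * ms (ut M v) Finset.univ) *
      (ρ ^ (-(1/16) : ℝ) * (((2:ℝ) ^ ((q + 1) / 8)) ^ r *
        ((ρ ^ ((1:ℝ)/16)) ^ g)))) := mul_le_mul_of_nonneg_left h1 (by positivity)
      _ = _ := by ring
  have hsum : ∑ r ∈ range n, ∑ g ∈ range n, ((β ^ q) ^ r * ((η ^ q)⁻¹) ^ g) * YY S M w v s q r g ≤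
      (C * ms (ut M v) Finset.univ * ρ ^ (-(1/16) : ℝ)) *
        ((1 / (1 - (2:ℝ) ^ (-(q / 2) + (q + 1) / 8))) * (1 / (1 - ρ ^ ((1:ℝ)/32)))) := by
    refine (Finset.sum_le_sum (fun r _ => Finset.sum_le_sum (fun g _ => hterm r g))).trans ?_
    simp only [← Finset.mul_sum]
    apply mul_le_mul_of_nonneg_left _ (by positivity)
    rw [← Finset.sum_mul]
    exact mul_le_mul (geo_sum_le (by positivity) hx1lt n) (geo_sum_le (by positivity) hx2lt n)
      (Finset.sum_nonneg (fun _ _ => by positivity)) (by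
        have : 0 < 1 - (2:ℝ) ^ (-(q / 2) + (q + 1) / 8) := by linarith
        positivity)
  refine (mul_le_mul_of_nonneg_left hsum (by positivity)).trans (le_of_eq ?_)
  unfold Cfin
  rw [← hρ, ← hβ, ← hη, ← hCb, ← hC]
  ring

end facts

end Pool.Agent.TH279.RI
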