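import Mathlib

/-!
Rearrangement-invariant Banach function spaces on `ℝ^d` (Bennett–Sharpley, Chapters 1 and 2).
-/

set_option autoImplicit false

namespace Pool.Agent.TH279.RI

open MeasureTheory
open scoped ENNReal NNReal

variable {d : ℕ}

/-- A rearrangement-invariant Banach function norm on `ℝ^d` (with Lebesgue measure), as a functional
on nonnegative measurable functions. -/
structure RINorm (d : ℕ) where
  /-- the norm of a nonnegative function -/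
  ρ : ((Fin d → ℝ) → ℝ≥0∞) → ℝ≥0∞
  zero_iff : ∀ f, Measurable f → (ρ f = 0 ↔ f =ᵐ[volume] fun _ => 0)
  smul : ∀ (c : ℝ≥0) f, Measurable f → ρ (fun x => c * f x) = c * ρ f
  add_le : ∀ f g, Measurable f → Measurable g → ρ (fun x => f x + g x) ≤ ρ f + ρ g
  mono : ∀ f g, Measurable f → Measurable g → (∀ᵐ x, f x ≤ g x) → ρ f ≤ ρ g
  fatou : ∀ f : ℕ → (Fin d → ℝ) → ℝ≥0∞, (∀ n, Measurable (f n)) → (∀ x, Monotone fun n => f n x) →
    ρ (fun x => ⨆ n, f n x) = ⨆ n, ρ (f n)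
  fin : ∀ E, MeasurableSet E → volume E < ∞ → ρ (E.indicator fun _ => 1) < ∞
  loc_int : ∀ E, MeasurableSet E → volume E < ∞ →
    ∃ C : ℝ≥0, ∀ f, Measurable f → ∫⁻ x in E, f x ≤ C * ρ f
  rearr : ∀ f g, Measurable f → Measurable g →
    (∀ t : ℝ≥0∞, volume {x | t < f x} = volume {x | t < g x}) → ρ f = ρ g

/-- The norm of the associate space `X'`. -/
noncomputable def RINorm.assoc (X : RINorm d) (g : (Fin d → ℝ) → ℝ≥0∞) : ℝ≥0∞ :=
  ⨆ (f : (Fin d → ℝ) → ℝ≥0∞) (_ : Measurable f ∧ X.ρ f ≤ 1), ∫⁻ x, f x * g x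

/-- The cube with lower corner `a` and side length `l`, sides parallel to the axes. -/
def cube (a : Fin d → ℝ) (l : ℝ) : Set (Fin d → ℝ) := {x | ∀ i, a i < x i ∧ x i < a i + l}

/-- `τ_l (f χ_A)`, that is `x ↦ (f χ_A) (l x)`. -/
noncomputable def tau (l : ℝ) (A : Set (Fin d → ℝ)) (f : (Fin d → ℝ) → ℝ≥0∞)
    (x : Fin d → ℝ) : ℝ≥0∞ := A.indicator f (l • x)

/-- The maximal operator `M_{X'}`, over all cubes with sides parallel to the axes. -/
noncomputable def RINorm.maxAssoc (X : RINorm d) (h : (Fin d → ℝ) → ℝ≥0∞) (x : Fin d → ℝ) : ℝ≥0∞ :=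
  ⨆ (a : Fin d → ℝ) (l : ℝ) (_ : 0 < l ∧ x ∈ cube a l), X.assoc (tau l (cube a l) h)

/-- `M_{X'}` is bounded on `L^q` with constant `B`. -/
def RINorm.MBound (X : RINorm d) (q : ℝ) (B : ℝ≥0) : Prop :=
  ∀ h : (Fin d → ℝ) → ℝ≥0∞, Measurable h →
    ∫⁻ x, X.maxAssoc h x ^ q ≤ (B : ℝ≥0∞) ^ q * ∫⁻ x, h x ^ q

end Pool.Agent.TH279.RI
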