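import Pool.Agent.TH279.RI.DefsT
import Pool.Agent.TH279.RI.DefsX

/-!
Weights, bump constants, the operator norm of the maximal operator, and the weak and strong norms.
-/

set_option autoImplicit false

namespace Pool.Agent.TH279.RI

open MeasureTheory
open scoped ENNReal NNReal ContDiff

variable {d : ℕ} {𝕜 : Type*} [RCLike 𝕜]

open Pool.Agent.H433R3.Sep (el)

/-- `T` is a bounded linear operator on `L²(ℝ^d)`, given by its action on square integrable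
functions, up to null sets. -/
structure IsL2Op (T : ((Fin d → ℝ) → 𝕜) → ((Fin d → ℝ) → 𝕜)) : Prop where
  mem : ∀ f, MemLp f 2 volume → MemLp (T f) 2 volume
  add : ∀ f g, MemLp f 2 volume → MemLp g 2 volume →
    T (fun x => f x + g x) =ᵐ[volume] fun x => T f x + T g x
  smul : ∀ (c : 𝕜) (f : (Fin d → ℝ) → 𝕜), MemLp f 2 volume →
    T (fun x => c * f x) =ᵐ[volume] fun x => c * T f x
  bound : ∃ A : ℝ≥0, ∀ f, MemLp f 2 volume → eLpNorm (T f) 2 volume ≤ A * eLpNorm f 2 volume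

/-- `K` represents `T` on smooth compactly supported functions, off their support. -/
def Represents (T : ((Fin d → ℝ) → 𝕜) → ((Fin d → ℝ) → 𝕜))
    (K : (Fin d → ℝ) → (Fin d → ℝ) → 𝕜) : Prop :=
  ∀ f : (Fin d → ℝ) → 𝕜, ContDiff ℝ ∞ f → HasCompactSupport f →
    ∀ᵐ x, x ∉ tsupport f → T f x = ∫ y, K x y * f y

/-- Size and smoothness conditions of a Calderon-Zygmund kernel. -/
structure IsCZKernel (K : (Fin d → ℝ) → (Fin d → ℝ) → 𝕜) : Prop where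
  size : ∃ C : ℝ, ∀ x y, x ≠ y → ‖K x y‖ ≤ C / el (x - y) ^ d
  reg : ∃ C ε : ℝ, 0 < ε ∧ ∀ x z y, 2 * el (x - z) < el (x - y) →
    ‖K x y - K z y‖ + ‖K y x - K y z‖ ≤ C * el (x - z) ^ ε / el (x - y) ^ ((d : ℝ) + ε)

/-- Calderon-Zygmund operators: bounded on `L²`, with a Calderon-Zygmund kernel. -/
structure IsCZOp (T : ((Fin d → ℝ) → 𝕜) → ((Fin d → ℝ) → 𝕜))
    (K : (Fin d → ℝ) → (Fin d → ℝ) → 𝕜) : Prop where
  l2 : IsL2Op T
  ker : IsCZKernel K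
  rep : Represents T K

/-- A weight: a nonnegative locally integrable function. -/
structure IsWeight (w : (Fin d → ℝ) → ℝ≥0) : Prop where
  meas : Measurable w
  loc : LocallyIntegrable (fun x => (w x : ℝ)) volume

/-- The measure `w dx`. -/
noncomputable def wt (w : (Fin d → ℝ) → ℝ≥0) : Measure (Fin d → ℝ) :=
  volume.withDensity fun x => (w x : ℝ≥0∞)

/-- The normalized local norm `‖w^s‖_{X,Q}` of a power of a weight, on the cube `Q` with lower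
corner `a` and side length `l`. -/
noncomputable def RINorm.pow (X : RINorm d) (w : (Fin d → ℝ) → ℝ≥0) (s : ℝ) (a : Fin d → ℝ)
    (l : ℝ) : ℝ≥0∞ :=
  X.ρ (tau l (cube a l) fun x => (w x : ℝ≥0∞) ^ s)

/-- The average of a weight over the cube with lower corner `a` and side length `l`. -/
noncomputable def ave (w : (Fin d → ℝ) → ℝ≥0) (a : Fin d → ℝ) (l : ℝ) : ℝ≥0∞ :=
  (∫⁻ x in cube a l, (w x : ℝ≥0∞)) / volume (cube a l)

/-- The one-sided bump constant `sup_Q ‖u^{1/p}‖_{X,Q} (avg_Q σ)^{1/q}`. -/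
noncomputable def bump (X : RINorm d) (p q : ℝ) (u σ : (Fin d → ℝ) → ℝ≥0) : ℝ≥0∞ :=
  ⨆ (a : Fin d → ℝ) (l : ℝ) (_ : 0 < l), X.pow u (1 / p) a l * ave σ a l ^ (1 / q)

/-- The separated bump constant
`sup_Q [‖u^{1/p}‖_{X,Q} (avg_Q σ)^{1/q} + (avg_Q u)^{1/p} ‖σ^{1/q}‖_{Y,Q}]`. -/
noncomputable def sepBump (X Y : RINorm d) (p q : ℝ) (u σ : (Fin d → ℝ) → ℝ≥0) : ℝ≥0∞ :=
  ⨆ (a : Fin d → ℝ) (l : ℝ) (_ : 0 < l),
    (X.pow u (1 / p) a l * ave σ a l ^ (1 / q) + ave u a l ^ (1 / p) * Y.pow σ (1 / q) a l)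

/-- The operator norm of `M_{X'}` on `L^q(ℝ^d)`. -/
noncomputable def RINorm.opNorm (X : RINorm d) (q : ℝ) : ℝ≥0∞ :=
  ⨅ (B : ℝ≥0) (_ : X.MBound q B), (B : ℝ≥0∞)

/-- The norm of `L^p(μ)`. -/
noncomputable def strongNorm (p : ℝ) (μ : Measure (Fin d → ℝ)) (g : (Fin d → ℝ) → ℝ≥0∞) : ℝ≥0∞ :=
  (∫⁻ x, g x ^ p ∂μ) ^ (1 / p)

/-- The weak norm `sup_{t > 0} t μ({g > t})^{1/p}`. -/
noncomputable def weakNorm (p : ℝ) (μ : Measure (Fin d → ℝ)) (g : (Fin d → ℝ) → ℝ≥0∞) : ℝ≥0∞ :=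
  ⨆ t : ℝ≥0, (t : ℝ≥0∞) * μ {x | (t : ℝ≥0∞) < g x} ^ (1 / p)

/-- The function `σ f`. -/
noncomputable def wmul (σ : (Fin d → ℝ) → ℝ≥0) (f : (Fin d → ℝ) → 𝕜) : (Fin d → ℝ) → 𝕜 :=
  fun y => ((σ y : ℝ) : 𝕜) * f y

/-- All the truncated integrals `∫_{|y - x| > ε} K(x,y) h(y) dy` converge absolutely. -/
def TruncConv (K : (Fin d → ℝ) → (Fin d → ℝ) → 𝕜) (h : (Fin d → ℝ) → 𝕜) : Prop :=
  ∀ (x : Fin d → ℝ) (ε : ℝ), 0 < ε → IntegrableOn (fun y => K x y * h y) {y | ε < el (x - y)} volume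

end Pool.Agent.TH279.RI
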