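import Pool.Agent.H433R3.Sep20

/-!
Calderon-Zygmund operators in the form of the problem MP_6bb8b9_an, and maximal truncations.
`el` is the Euclidean length on `Fin d → ℝ` (from `Pool.Agent.H433R3.Sep15`).
-/

set_option autoImplicit false

namespace Pool.Agent.TH279.RI

open MeasureTheory Metric Filter Topology
open scoped ENNReal NNReal ContDiff

variable {d : ℕ} {𝕜 : Type*} [RCLike 𝕜]

open Pool.Agent.H433R3.Sep (el IsCZO)

/-- Calderon-Zygmund operators: bounded on `L²`, with a kernel satisfying the size and smoothness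
conditions, and represented by it on smooth compactly supported functions off their support. -/
structure IsCZ (T : Lp 𝕜 2 (volume : Measure (Fin d → ℝ)) →L[𝕜]
      Lp 𝕜 2 (volume : Measure (Fin d → ℝ)))
    (K : (Fin d → ℝ) → (Fin d → ℝ) → 𝕜) : Prop where
  rep : ∀ (f : (Fin d → ℝ) → 𝕜) (hf : MemLp f 2 volume), ContDiff ℝ ∞ f → HasCompactSupport f →
    ∀ᵐ x, x ∉ tsupport f → T (hf.toLp f) x = ∫ y, K x y * f y
  size : ∃ C : ℝ, ∀ x y, x ≠ y → ‖K x y‖ ≤ C / el (x - y) ^ d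
  reg : ∃ C ε : ℝ, 0 < ε ∧ ∀ x z y, 2 * el (x - z) < el (x - y) →
    ‖K x y - K z y‖ + ‖K y x - K y z‖ ≤ C * el (x - z) ^ ε / el (x - y) ^ ((d : ℝ) + ε)

/-- The maximal singular integral `T^* f (x) = sup_{ε > 0} |∫_{|y - x| > ε} K(x,y) f(y) dy|`. -/
noncomputable def TS (K : (Fin d → ℝ) → (Fin d → ℝ) → 𝕜) (f : (Fin d → ℝ) → 𝕜)
    (x : Fin d → ℝ) : ℝ≥0∞ :=
  ⨆ (ε : ℝ) (_ : 0 < ε), ‖∫ y in {y | ε < el (x - y)}, K x y * f y‖ₑ

end Pool.Agent.TH279.RI
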