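import Pool.Agent.TH279.RI.DefsF
import Pool.Agent.TH279.RI.Asm4
import Pool.Agent.TH279.RI.Conv2
import Pool.Agent.TH266.RI.J592
import Pool.Agent.H433R3.Sep24

set_option autoImplicit false
set_option linter.unusedSectionVars false
set_option linter.unusedVariables false

namespace Pool.Agent.TH279.RI

open MeasureTheory Metric Filter Topology
open scoped ENNReal NNReal
open Pool.Agent.H433R3.Sep (Idx gq gq_meas gq_vol_pos gq_lam gq_nonempty gq_inj wm SLam cor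
  ix gq_nest mem_gq_ix gq_vol zero_mem_grid exists_ball exhaust IsCZO el norm_le_el el_nonneg
  gq_eq_pi)

variable {d : ℕ} {𝕜 : Type*} [RCLike 𝕜]
variable {T : Lp 𝕜 2 (volume : Measure (Fin d → ℝ)) →L[𝕜] Lp 𝕜 2 (volume : Measure (Fin d → ℝ))}
variable {K : (Fin d → ℝ) → (Fin d → ℝ) → 𝕜}

lemma IsCZOp.toIsCZ {T₀ : ((Fin d → ℝ) → 𝕜) → ((Fin d → ℝ) → 𝕜)} (h : IsCZOp T₀ K) :
    ∃ T' : Lp 𝕜 2 (volume : Measure (Fin d → ℝ)) →L[𝕜] Lp 𝕜 2 (volume : Measure (Fin d → ℝ)),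
      IsCZ T' K := by
  obtain ⟨T', hT'⟩ := Pool.Agent.H433R3.Sep.exists_clm h.l2.mem h.l2.add h.l2.smul h.l2.bound
  refine ⟨T', ⟨?_, h.ker.size, h.ker.reg⟩⟩
  intro f hf hfs hfc
  filter_upwards [hT' f hf, h.rep f hfs hfc] with x hx hx' hxs
  rw [hx, hx' hxs]

lemma IsWeight.fin {w : (Fin d → ℝ) → ℝ≥0} (hw : IsWeight w) (t : Fin d → Bool) (I : Idx d) :
    wm volume w (gq t I) < ∞ := by
  have h1 : gq t I ⊆ Set.Icc (cor t I) (fun i => cor t I i + 2 ^ I.1) := by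
    rw [gq_eq_pi]
    intro x hx
    rw [Set.mem_univ_pi] at hx
    exact ⟨fun i => (hx i).1, fun i => (hx i).2.le⟩
  have h2 := hw.loc.integrableOn_isCompact
    (isCompact_Icc (a := cor t I) (b := fun i => cor t I i + 2 ^ I.1))
  have h3 : IntegrableOn (fun x => (w x : ℝ)) (gq t I) volume := h2.mono_set h1
  unfold wm
  rw [withDensity_apply _ (gq_meas t I)]
  have h4 := h3.2
  rw [hasFiniteIntegral_iff_enorm] at h4
  refine lt_of_le_of_lt (lintegral_mono fun x => ?_) h4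
  rw [← ofReal_norm, Real.norm_of_nonneg (NNReal.coe_nonneg _), ENNReal.ofReal_coe_nnreal]

lemma DTest.mono {q : ℝ} (hq : 0 ≤ q) {μ ν : Measure (Fin d → ℝ)} {τ τ' : ℝ≥0} (h : τ ≤ τ')
    (H : DTest d q μ ν τ) : DTest d q μ ν τ' := by
  intro t SS hh R hR
  refine (H t SS hh R hR).trans ?_
  apply mul_le_mul' _ le_rfl
  apply ENNReal.rpow_le_rpow _ hq
  exact_mod_cast h

lemma exists_MBound {X : RINorm d} {q : ℝ} (h : X.opNorm q < ∞) : ∃ B : ℝ≥0, X.MBound q B := by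
  unfold RINorm.opNorm at h
  by_contra hc
  push Not at hc
  have : (⨅ (B : ℝ≥0) (_ : X.MBound q B), (B : ℝ≥0∞)) = ∞ := by
    rw [iInf_eq_top]
    intro B
    rw [iInf_eq_top]
    intro hB
    exact absurd hB (hc B)
  rw [this] at h
  exact lt_irrefl _ h

lemma le_mul_opNorm {X : RINorm d} {q : ℝ} (h : X.opNorm q < ∞) {a b : ℝ≥0∞} (ha : a ≠ ∞)
    (H : ∀ B : ℝ≥0, X.MBound q B → b ≤ a * B) : b ≤ a * X.opNorm q := by
  obtain ⟨B₀, hB₀⟩ := exists_MBound h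
  rcases eq_or_ne a 0 with h0 | h0
  · have := H B₀ hB₀
    rw [h0, zero_mul] at this ⊢
    exact this
  · have h1 : ∀ B : ℝ≥0, X.MBound q B → b / a ≤ B := by
      intro B hB
      rw [ENNReal.div_le_iff_le_mul (Or.inl h0) (Or.inl ha), mul_comm]
      exact H B hB
    have h2 : b / a ≤ X.opNorm q := le_iInf₂ h1
    rw [ENNReal.div_le_iff_le_mul (Or.inl h0) (Or.inl ha), mul_comm] at h2
    exact h2

lemma le_mul_opNorm₂ {X Y : RINorm d} {q p : ℝ} (hX : X.opNorm q < ∞) (hY : Y.opNorm p < ∞)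
    {a b : ℝ≥0∞} (ha : a ≠ ∞)
    (H : ∀ B : ℝ≥0, X.MBound q B → ∀ B' : ℝ≥0, Y.MBound p B' → b ≤ a * (B + B')) :
    b ≤ a * (X.opNorm q + Y.opNorm p) := by
  obtain ⟨B₀, hB₀⟩ := exists_MBound hX
  obtain ⟨B₁, hB₁⟩ := exists_MBound hY
  rcases eq_or_ne a 0 with h0 | h0
  · have := H B₀ hB₀ B₁ hB₁
    rw [h0, zero_mul] at this ⊢
    exact this
  · have h1 : ∀ B : ℝ≥0, X.MBound q B → ∀ B' : ℝ≥0, Y.MBound p B' → b / a ≤ B + B' := by
      intro B hB B' hB'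
      rw [ENNReal.div_le_iff_le_mul (Or.inl h0) (Or.inl ha), mul_comm]
      exact H B hB B' hB'
    have h2 : ∀ B : ℝ≥0, X.MBound q B → b / a ≤ B + Y.opNorm p := by
      intro B hB
      rw [← tsub_le_iff_left]
      refine le_iInf₂ (fun B' hB' => ?_)
      rw [tsub_le_iff_left]
      exact h1 B hB B' hB'
    have h3 : b / a ≤ X.opNorm q + Y.opNorm p := by
      rw [← tsub_le_iff_right]
      refine le_iInf₂ (fun B hB => ?_)
      rw [tsub_le_iff_right]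
      exact h2 B hB
    rw [ENNReal.div_le_iff_le_mul (Or.inl h0) (Or.inl ha), mul_comm] at h3
    exact h3

lemma bump_le {X : RINorm d} {p q : ℝ} {u σ : (Fin d → ℝ) → ℝ≥0} (hb : bump X p q u σ < ∞) :
    ∀ a l, 0 < l → X.ρ (tau l (cube a l) (fun x => (u x : ℝ≥0∞) ^ (1 / p))) *
      ((∫⁻ x in cube a l, (σ x : ℝ≥0∞)) / volume (cube a l)) ^ (1 / q) ≤
      ((bump X p q u σ).toNNReal : ℝ≥0∞) := by
  intro a l hl
  rw [ENNReal.coe_toNNReal hb.ne]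
  unfold bump RINorm.pow ave
  exact le_iSup_of_le a (le_iSup_of_le l (le_iSup_of_le hl le_rfl))

lemma sepBump_le₁ {X Y : RINorm d} {p q : ℝ} {u σ : (Fin d → ℝ) → ℝ≥0}
    (hb : sepBump X Y p q u σ < ∞) :
    ∀ a l, 0 < l → X.ρ (tau l (cube a l) (fun x => (u x : ℝ≥0∞) ^ (1 / p))) *
      ((∫⁻ x in cube a l, (σ x : ℝ≥0∞)) / volume (cube a l)) ^ (1 / q) ≤
      ((sepBump X Y p q u σ).toNNReal : ℝ≥0∞) := by
  intro a l hl
  rw [ENNReal.coe_toNNReal hb.ne]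
  unfold sepBump RINorm.pow ave
  exact le_iSup_of_le a (le_iSup_of_le l (le_iSup_of_le hl le_self_add))

lemma sepBump_le₂ {X Y : RINorm d} {p q : ℝ} {u σ : (Fin d → ℝ) → ℝ≥0}
    (hb : sepBump X Y p q u σ < ∞) :
    ∀ a l, 0 < l → Y.ρ (tau l (cube a l) (fun x => (σ x : ℝ≥0∞) ^ (1 / q))) *
      ((∫⁻ x in cube a l, (u x : ℝ≥0∞)) / volume (cube a l)) ^ (1 / p) ≤
      ((sepBump X Y p q u σ).toNNReal : ℝ≥0∞) := by
  intro a l hl
  rw [ENNReal.coe_toNNReal hb.ne, mul_comm]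
  unfold sepBump RINorm.pow ave
  exact le_iSup_of_le a (le_iSup_of_le l (le_iSup_of_le hl le_add_self))

lemma root_bound {p : ℝ} (hp : 0 < p) {C τ : ℝ≥0} {A F : ℝ≥0∞}
    (h : A ≤ C * (τ : ℝ≥0∞) ^ p * F) :
    A ^ (1 / p) ≤ ((C ^ (1 / p) : ℝ≥0) : ℝ≥0∞) * τ * F ^ (1 / p) := by
  have hp' : 0 ≤ 1 / p := by positivity
  calc A ^ (1 / p) ≤ (C * (τ : ℝ≥0∞) ^ p * F) ^ (1 / p) := ENNReal.rpow_le_rpow h hp'
    _ = _ := by
        rw [ENNReal.mul_rpow_of_nonneg _ _ hp', ENNReal.mul_rpow_of_nonneg _ _ hp',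
          ← ENNReal.rpow_mul, mul_one_div_cancel hp.ne', ENNReal.rpow_one,
          ENNReal.coe_rpow_of_nonneg _ hp']

lemma conv_of (hd : 0 < d) {p q : ℝ} (hpq : p.HolderConjugate q) (hT : IsCZO T K)
    (X : RINorm d) (hM : X.opNorm q < ∞) {κ : ℝ≥0} {u σ : (Fin d → ℝ) → ℝ≥0}
    (hu : IsWeight u) (hσ : IsWeight σ)
    (hb : ∀ a l, 0 < l → X.ρ (tau l (cube a l) (fun x => (u x : ℝ≥0∞) ^ (1 / p))) *
      ((∫⁻ x in cube a l, (σ x : ℝ≥0∞)) / volume (cube a l)) ^ (1 / q) ≤ κ)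
    (hu0 : ¬ (∀ᵐ x, u x = 0)) {f : (Fin d → ℝ) → 𝕜} (hf : Measurable f)
    (hfp : strongNorm p (wt σ) (fun y => ‖f y‖ₑ) < ∞) : TruncConv K (wmul σ f) := by
  obtain ⟨B, hB⟩ := exists_MBound hM
  intro x ε hε
  have hp := hpq.pos
  have h1 : ∫⁻ y, ‖f y‖ₑ ^ p ∂(wm volume σ) ≠ ∞ := by
    intro hc
    unfold strongNorm wt at hfp
    unfold wm at hc
    rw [hc, ENNReal.top_rpow_of_pos (by positivity)] at hfp
    exact lt_irrefl _ hfp
  exact trunc_int hd hpq hT X hB hu.meas hσ.meas hσ.fin hb hu0 hf h1 x hε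

theorem weakFinal (hd : 0 < d) {p q : ℝ} (hpq : p.HolderConjugate q)
    {T₀ : ((Fin d → ℝ) → 𝕜) → ((Fin d → ℝ) → 𝕜)} (hT₀ : IsCZOp T₀ K) :
    ∃ C : ℝ≥0, ∀ u σ : (Fin d → ℝ) → ℝ≥0, IsWeight u → IsWeight σ →
      ∀ X : RINorm d, X.opNorm q < ∞ → bump X p q u σ < ∞ →
      ∀ f : (Fin d → ℝ) → 𝕜, Measurable f → strongNorm p (wt σ) (fun y => ‖f y‖ₑ) < ∞ →
        (¬ (∀ᵐ x, u x = 0) → TruncConv K (wmul σ f)) ∧
        weakNorm p (wt u) (TS K (wmul σ f)) ≤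
          C * bump X p q u σ * X.opNorm q * strongNorm p (wt σ) (fun y => ‖f y‖ₑ) := by
  obtain ⟨T, hT⟩ := hT₀.toIsCZ
  have hT' : IsCZO T K := Pool.Agent.TH266.RI.IsCZ.isCZO hd hT
  obtain ⟨C₁, hC₁⟩ := dtest hd hpq
  obtain ⟨C₂, hC₂⟩ := genTS hd hpq hT'
  have hp := hpq.pos
  have hq := hpq.symm.pos
  refine ⟨C₂ ^ (1 / p) * C₁, ?_⟩
  intro u σ hu hσ X hX hb f hf hfp
  refine ⟨fun hu0 => conv_of hd hpq hT' X hX hu hσ (bump_le hb) hu0 hf hfp, ?_⟩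
  set κ : ℝ≥0 := (bump X p q u σ).toNNReal with hκ
  have hκe : (κ : ℝ≥0∞) = bump X p q u σ := ENNReal.coe_toNNReal hb.ne
  set F := strongNorm p (wt σ) (fun y => ‖f y‖ₑ) with hF
  have hFe : F = (∫⁻ y, ‖f y‖ₑ ^ p ∂(wm volume σ)) ^ (1 / p) := rfl
  rw [← hκe]
  have hfin : ((C₂ ^ (1 / p) * C₁ : ℝ≥0) : ℝ≥0∞) * κ * F ≠ ∞ :=
    ENNReal.mul_ne_top (ENNReal.mul_ne_top ENNReal.coe_ne_top ENNReal.coe_ne_top) hfp.ne
  have key : weakNorm p (wt u) (TS K (wmul σ f)) ≤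
      ((C₂ ^ (1 / p) * C₁ : ℝ≥0) : ℝ≥0∞) * κ * F * X.opNorm q := by
    apply le_mul_opNorm hX hfin
    intro B hB
    unfold weakNorm
    apply iSup_le
    intro t
    have h1 := (hC₂ u σ hu.meas hσ.meas hσ.fin hu.fin (C₁ * (B * κ))
      (hC₁ X B hB κ u σ hu.meas hσ.meas hσ.fin (bump_le hb)) f hf).1 t
    have h2 := root_bound hp h1
    rw [ENNReal.mul_rpow_of_nonneg _ _ (by positivity), ← ENNReal.rpow_mul,
      mul_one_div_cancel hp.ne', ENNReal.rpow_one] at h2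
    refine h2.trans (le_of_eq ?_)
    rw [← hFe]
    push_cast
    ring
  refine key.trans (le_of_eq ?_)
  ring

theorem strongFinal (hd : 0 < d) {p q : ℝ} (hpq : p.HolderConjugate q)
    {T₀ : ((Fin d → ℝ) → 𝕜) → ((Fin d → ℝ) → 𝕜)} (hT₀ : IsCZOp T₀ K) :
    ∃ C : ℝ≥0, ∀ u σ : (Fin d → ℝ) → ℝ≥0, IsWeight u → IsWeight σ →
      ∀ X Y : RINorm d, X.opNorm q < ∞ → Y.opNorm p < ∞ → sepBump X Y p q u σ < ∞ →
      ∀ f : (Fin d → ℝ) → 𝕜, Measurable f → strongNorm p (wt σ) (fun y => ‖f y‖ₑ) < ∞ →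
        (¬ (∀ᵐ x, u x = 0) → TruncConv K (wmul σ f)) ∧
        strongNorm p (wt u) (TS K (wmul σ f)) ≤
          C * sepBump X Y p q u σ * (X.opNorm q + Y.opNorm p) *
            strongNorm p (wt σ) (fun y => ‖f y‖ₑ) := by
  obtain ⟨T, hT⟩ := hT₀.toIsCZ
  have hT' : IsCZO T K := Pool.Agent.TH266.RI.IsCZ.isCZO hd hT
  obtain ⟨C₁, hC₁⟩ := dtest hd hpq
  obtain ⟨C₃, hC₃⟩ := dtest hd hpq.symm
  obtain ⟨C₂, hC₂⟩ := genTS hd hpq hT'
  have hp := hpq.pos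
  have hq := hpq.symm.pos
  refine ⟨C₂ ^ (1 / p) * (C₁ + C₃), ?_⟩
  intro u σ hu hσ X Y hX hY hb f hf hfp
  refine ⟨fun hu0 => conv_of hd hpq hT' X hX hu hσ (sepBump_le₁ hb) hu0 hf hfp, ?_⟩
  set κ : ℝ≥0 := (sepBump X Y p q u σ).toNNReal with hκ
  have hκe : (κ : ℝ≥0∞) = sepBump X Y p q u σ := ENNReal.coe_toNNReal hb.ne
  set F := strongNorm p (wt σ) (fun y => ‖f y‖ₑ) with hF
  have hFe : F = (∫⁻ y, ‖f y‖ₑ ^ p ∂(wm volume σ)) ^ (1 / p) := rfl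
  rw [← hκe]
  have hfin : ((C₂ ^ (1 / p) * (C₁ + C₃) : ℝ≥0) : ℝ≥0∞) * κ * F ≠ ∞ :=
    ENNReal.mul_ne_top (ENNReal.mul_ne_top ENNReal.coe_ne_top ENNReal.coe_ne_top) hfp.ne
  have key : strongNorm p (wt u) (TS K (wmul σ f)) ≤
      ((C₂ ^ (1 / p) * (C₁ + C₃) : ℝ≥0) : ℝ≥0∞) * κ * F * (X.opNorm q + Y.opNorm p) := by
    apply le_mul_opNorm₂ hX hY hfin
    intro B hB B' hB'
    unfold strongNorm
    have t1 : DTest d q (wm volume σ) (wm volume u) ((C₁ + C₃) * ((B + B') * κ)) := by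
      refine DTest.mono hq.le ?_ (hC₁ X B hB κ u σ hu.meas hσ.meas hσ.fin (sepBump_le₁ hb))
      gcongr
      · exact le_self_add
      · exact le_self_add
    have t2 : DTest d p (wm volume u) (wm volume σ) ((C₁ + C₃) * ((B + B') * κ)) := by
      refine DTest.mono hp.le ?_ (hC₃ Y B' hB' κ σ u hσ.meas hu.meas hu.fin (sepBump_le₂ hb))
      gcongr
      · exact le_add_self
      · exact le_add_self
    have h1 := (hC₂ u σ hu.meas hσ.meas hσ.fin hu.fin _ t1 f hf).2 t2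
    have h2 := root_bound hp h1
    refine h2.trans (le_of_eq ?_)
    rw [← hFe]
    push_cast
    ring
  refine key.trans (le_of_eq ?_)
  ring

end Pool.Agent.TH279.RI
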