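import Pool.Agent.TH279.RI.DefsX
import Pool.Agent.H433R3.Sep12
import Pool.Agent.TH484.J598

set_option autoImplicit false
set_option linter.unusedSectionVars false
set_option linter.unusedVariables false

namespace Pool.Agent.TH279.RI

open MeasureTheory
open scoped ENNReal NNReal
open Pool.Agent.H433R3.Sep (Idx gq cor gq_meas gq_vol gq_vol_pos gq_eq_pi)

variable {d : ℕ}

lemma vol_pre {l : ℝ} (hl : 0 < l) (A : Set (Fin d → ℝ)) :
    volume {y : Fin d → ℝ | l • y ∈ A} = volume A / ENNReal.ofReal l ^ d := by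
  have h := Measure.addHaar_preimage_smul (volume : Measure (Fin d → ℝ)) hl.ne' A
  have e : {y : Fin d → ℝ | l • y ∈ A} = (fun y => l • y) ⁻¹' A := rfl
  rw [e, h, Module.finrank_fin_fun, abs_of_pos (by positivity), ENNReal.ofReal_inv_of_pos
    (by positivity), ENNReal.ofReal_pow hl.le, mul_comm, div_eq_mul_inv]

lemma lint_pre {l : ℝ} (hl : 0 < l) (g : (Fin d → ℝ) → ℝ≥0∞) (hg : Measurable g) :
    ∫⁻ y, g (l • y) = (∫⁻ y, g y) / ENNReal.ofReal l ^ d := by
  have hm : Measurable (fun y : Fin d → ℝ => l • y) := measurable_const_smul l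
  have h1 : ∫⁻ y, g (l • y) = ∫⁻ y, g y ∂(Measure.map (fun y : Fin d → ℝ => l • y) volume) := by
    rw [lintegral_map hg hm]
  rw [h1, Measure.map_addHaar_smul _ hl.ne', lintegral_smul_measure, Module.finrank_fin_fun,
    abs_of_pos (by positivity), ENNReal.ofReal_inv_of_pos (by positivity),
    ENNReal.ofReal_pow hl.le, smul_eq_mul, mul_comm, div_eq_mul_inv]

lemma smul_meas {l : ℝ} {A : Set (Fin d → ℝ)} (hA : MeasurableSet A) :
    MeasurableSet {y : Fin d → ℝ | l • y ∈ A} := (measurable_const_smul l) hA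

lemma tau_meas {l : ℝ} {A : Set (Fin d → ℝ)} (hA : MeasurableSet A)
    {f : (Fin d → ℝ) → ℝ≥0∞} (hf : Measurable f) : Measurable (tau l A f) :=
  (hf.indicator hA).comp (measurable_const_smul l)

/-- grid cubes and open cubes agree up to a null set -/
lemma gq_ae_cube (t : Fin d → Bool) (I : Idx d) :
    gq t I =ᵐ[volume] cube (cor t I) (2 ^ I.1) := by
  have h1 : cube (cor t I) (2 ^ I.1) = Set.univ.pi
      (fun i => Set.Ioo (cor t I i) (cor t I i + 2 ^ I.1)) := by
    ext x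
    simp only [cube, Set.mem_ofPred_eq, Set.mem_univ_pi, Set.mem_Ioo]
  have hsub : cube (cor t I) (2 ^ I.1) ⊆ gq t I := by
    rw [h1, gq_eq_pi]
    exact Set.pi_mono (fun i _ => Set.Ioo_subset_Ico_self)
  symm
  apply ae_eq_of_subset_of_measure_ge hsub
  · rw [gq_vol, h1, Real.volume_pi_Ioo]
    simp
  · rw [h1]
    exact (MeasurableSet.univ_pi (fun i => measurableSet_Ioo)).nullMeasurableSet
  · exact (gq_vol_pos t I).2.ne

lemma cube_sub_gq (t : Fin d → Bool) (I : Idx d) : cube (cor t I) (2 ^ I.1) ⊆ gq t I := by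
  intro x hx
  rw [gq_eq_pi, Set.mem_univ_pi]
  intro i
  exact ⟨(hx i).1.le, (hx i).2⟩

lemma cube_meas (a : Fin d → ℝ) (l : ℝ) : MeasurableSet (cube a l) := by
  have h1 : cube a l = Set.univ.pi (fun i => Set.Ioo (a i) (a i + l)) := by
    ext x
    simp only [cube, Set.mem_ofPred_eq, Set.mem_univ_pi, Set.mem_Ioo]
  rw [h1]
  exact MeasurableSet.univ_pi (fun i => measurableSet_Ioo)

lemma smul_ae {l : ℝ} (hl : 0 < l) {p : (Fin d → ℝ) → Prop} (h : ∀ᵐ y, p y) :
    ∀ᵐ y : Fin d → ℝ, p (l • y) := by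
  rw [ae_iff] at h ⊢
  have := vol_pre hl {a | ¬ p a}
  rw [h, ENNReal.zero_div] at this
  exact this

lemma tau_gq_ae (t : Fin d → Bool) (I : Idx d) (f : (Fin d → ℝ) → ℝ≥0∞) :
    ∀ᵐ y, tau (2 ^ I.1) (gq t I) f y = tau (2 ^ I.1) (cube (cor t I) (2 ^ I.1)) f y := by
  have h : ∀ᵐ y, (gq t I).indicator f y = (cube (cor t I) (2 ^ I.1)).indicator f y := by
    have := gq_ae_cube t I
    filter_upwards [this] with y hy
    have hy' : (y ∈ gq t I) = (y ∈ cube (cor t I) (2 ^ I.1)) := hy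
    by_cases hy1 : y ∈ gq t I
    · rw [Set.indicator_of_mem hy1, Set.indicator_of_mem (hy' ▸ hy1 : y ∈ cube (cor t I) (2 ^ I.1))]
    · have hy2 : y ∉ cube (cor t I) (2 ^ I.1) := by rw [← hy']; exact hy1
      rw [Set.indicator_of_notMem hy1, Set.indicator_of_notMem hy2]
  exact smul_ae (by positivity) h

lemma assoc_congr (X : RINorm d) {g h : (Fin d → ℝ) → ℝ≥0∞} (H : ∀ᵐ x, g x = h x) :
    X.assoc g = X.assoc h := by
  unfold RINorm.assoc
  apply iSup_congr
  intro f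
  apply iSup_congr
  intro _
  apply lintegral_congr_ae
  filter_upwards [H] with x hx
  rw [hx]

lemma rho_congr (X : RINorm d) {g h : (Fin d → ℝ) → ℝ≥0∞} (hg : Measurable g) (hh : Measurable h)
    (H : ∀ᵐ x, g x = h x) : X.ρ g = X.ρ h :=
  le_antisymm (X.mono g h hg hh (H.mono (fun x hx => hx.le)))
    (X.mono h g hh hg (H.mono (fun x hx => hx.ge)))

/-- local Hölder inequality on a grid cube -/
lemma local_holder (X : RINorm d) (t : Fin d → Bool) (I : Idx d) {f h : (Fin d → ℝ) → ℝ≥0∞}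
    (hf : Measurable f) (hh : Measurable h) (hfin : X.ρ (tau (2 ^ I.1) (gq t I) f) ≠ ∞) :
    ∫⁻ y in gq t I, f y * h y ≤ volume (gq t I) *
      (X.ρ (tau (2 ^ I.1) (gq t I) f) * X.assoc (tau (2 ^ I.1) (gq t I) h)) := by
  have hl : (0:ℝ) < 2 ^ I.1 := by positivity
  have h1 := TH484.J598.holder X (g := tau (2 ^ I.1) (gq t I) h) (tau_meas (gq_meas t I) hf) hfin
  have h2 : ∫⁻ y, tau (2 ^ I.1) (gq t I) f y * tau (2 ^ I.1) (gq t I) h y =
      (∫⁻ y in gq t I, f y * h y) / volume (gq t I) := by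
    have h3 := lint_pre hl (fun y => (gq t I).indicator (fun y => f y * h y) y)
      ((hf.mul hh).indicator (gq_meas t I))
    rw [lintegral_indicator (gq_meas t I)] at h3
    rw [gq_vol, ← h3]
    apply lintegral_congr
    intro y
    unfold tau
    by_cases hy : (2:ℝ) ^ I.1 • y ∈ gq t I
    · simp only [Set.indicator_of_mem hy]
    · simp only [Set.indicator_of_notMem hy, zero_mul]
  rw [h2] at h1
  have hv := gq_vol_pos t I
  rw [ENNReal.div_le_iff_le_mul (Or.inl hv.1.ne') (Or.inl hv.2.ne), mul_comm] at h1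
  exact h1

lemma le_maxAssoc (X : RINorm d) (t : Fin d → Bool) (I : Idx d) (h : (Fin d → ℝ) → ℝ≥0∞)
    {y : Fin d → ℝ} (hy : y ∈ cube (cor t I) (2 ^ I.1)) :
    X.assoc (tau (2 ^ I.1) (gq t I) h) ≤ X.maxAssoc h y := by
  rw [assoc_congr X (tau_gq_ae t I h)]
  unfold RINorm.maxAssoc
  have hl : (0:ℝ) < 2 ^ I.1 := by positivity
  exact le_iSup_of_le (cor t I) (le_iSup_of_le ((2:ℝ) ^ I.1) (le_iSup_of_le ⟨hl, hy⟩ le_rfl))

/-- Carleson-type sum for the associate averages -/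
lemma assoc_sum_le (X : RINorm d) {q : ℝ} (hq : 0 < q) {B : ℝ≥0} (hM : X.MBound q B)
    (t : Fin d → Bool) (A : Finset (Idx d)) (E : Idx d → Set (Fin d → ℝ))
    (hEm : ∀ I ∈ A, MeasurableSet (E I)) (hEsub : ∀ I ∈ A, E I ⊆ gq t I)
    (hEv : ∀ I ∈ A, volume (gq t I) ≤ 2 * volume (E I))
    (hEd : ∀ I ∈ A, ∀ J ∈ A, I ≠ J → Disjoint (E I) (E J))
    (h : (Fin d → ℝ) → ℝ≥0∞) (hh : Measurable h) :
    ∑ I ∈ A, volume (gq t I) * X.assoc (tau (2 ^ I.1) (gq t I) h) ^ q ≤
      2 * ((B : ℝ≥0∞) ^ q * ∫⁻ x, h x ^ q) := by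
  have h1 : ∑ I ∈ A, volume (E I) * X.assoc (tau (2 ^ I.1) (gq t I) h) ^ q ≤
      ∫⁻ x, X.maxAssoc h x ^ q := by
    have h2 : ∀ I ∈ A, volume (E I) * X.assoc (tau (2 ^ I.1) (gq t I) h) ^ q =
        ∫⁻ x, (E I ∩ cube (cor t I) (2 ^ I.1)).indicator
          (fun _ => X.assoc (tau (2 ^ I.1) (gq t I) h) ^ q) x := by
      intro I hI
      rw [lintegral_indicator ((hEm I hI).inter (cube_meas _ _)), lintegral_const,
        Measure.restrict_apply MeasurableSet.univ, Set.univ_inter, mul_comm]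
      congr 1
      apply measure_congr
      have h3 := gq_ae_cube t I
      have h4 : (E I ∩ gq t I : Set (Fin d → ℝ)) = E I := Set.inter_eq_left.2 (hEsub I hI)
      have h5 : (E I ∩ gq t I : Set (Fin d → ℝ)) =ᵐ[volume]
          (E I ∩ cube (cor t I) (2 ^ I.1) : Set (Fin d → ℝ)) := (Filter.EventuallyEq.refl _ _).inter h3
      rw [h4] at h5
      exact h5
    rw [Finset.sum_congr rfl h2, ← lintegral_finsetSum]
    · apply lintegral_mono
      intro x
      show ∑ I ∈ A, (E I ∩ cube (cor t I) (2 ^ I.1)).indicator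
          (fun _ => X.assoc (tau (2 ^ I.1) (gq t I) h) ^ q) x ≤ X.maxAssoc h x ^ q
      by_cases hx : ∃ I ∈ A, x ∈ E I ∩ cube (cor t I) (2 ^ I.1)
      · obtain ⟨I, hI, hxI⟩ := hx
        rw [Finset.sum_eq_single I]
        · rw [Set.indicator_of_mem hxI]
          exact ENNReal.rpow_le_rpow (le_maxAssoc X t I h hxI.2) hq.le
        · intro J hJ hne
          apply Set.indicator_of_notMem
          intro hc
          exact Set.disjoint_left.1 (hEd J hJ I hI hne) hc.1 hxI.1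
        · intro hc; exact absurd hI hc
      · push Not at hx
        rw [Finset.sum_eq_zero]
        · exact bot_le
        · intro I hI
          exact Set.indicator_of_notMem (hx I hI) _
    · intro I hI
      exact measurable_const.indicator ((hEm I hI).inter (cube_meas _ _))
  calc ∑ I ∈ A, volume (gq t I) * X.assoc (tau (2 ^ I.1) (gq t I) h) ^ q
      ≤ ∑ I ∈ A, (2 * volume (E I)) * X.assoc (tau (2 ^ I.1) (gq t I) h) ^ q :=
        Finset.sum_le_sum (fun I hI => mul_le_mul' (hEv I hI) le_rfl)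
    _ = 2 * ∑ I ∈ A, volume (E I) * X.assoc (tau (2 ^ I.1) (gq t I) h) ^ q := by
        rw [Finset.mul_sum]
        apply Finset.sum_congr rfl
        intro I _; ring
    _ ≤ 2 * ((B : ℝ≥0∞) ^ q * ∫⁻ x, h x ^ q) := mul_le_mul' le_rfl (h1.trans (hM h hh))

end Pool.Agent.TH279.RI
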