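import Pool.Agent.TH279.RI.Meas1
import Pool.Agent.TH279.RI.Core6
import Pool.Agent.TH889.J597

set_option autoImplicit false
set_option linter.unusedSectionVars false
set_option linter.unusedVariables false

namespace Pool.Agent.TH279.RI

open MeasureTheory
open scoped ENNReal NNReal
open Pool.Agent.H433R3.Sep (Idx gq cor gq_meas gq_vol gq_vol_pos gq_eq_pi)

variable {d : ℕ}

/-- discretised weight -/
noncomputable def uf (J : Finset ℤ) (E : ℤ → Set (Fin d → ℝ)) (x : Fin d → ℝ) : ℝ≥0∞ :=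
  ∑ m ∈ J, (E m).indicator (fun _ => ENNReal.ofReal (2 ^ m)) x

/-- its `p`-th root -/
noncomputable def ff (p : ℝ) (J : Finset ℤ) (E : ℤ → Set (Fin d → ℝ)) (x : Fin d → ℝ) : ℝ≥0∞ :=
  ∑ m ∈ J, (E m).indicator (fun _ => ENNReal.ofReal ((2:ℝ) ^ ((m:ℝ) / p))) x

lemma sum_ind_mem {J : Finset ℤ} {E : ℤ → Set (Fin d → ℝ)} (hE : ∀ m n, m ≠ n → Disjoint (E m) (E n))
    (c : ℤ → ℝ≥0∞) {m : ℤ} {x : Fin d → ℝ} (hx : x ∈ E m) :
    ∑ k ∈ J, (E k).indicator (fun _ => c k) x = if m ∈ J then c m else 0 := by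
  split_ifs with hm
  · rw [Finset.sum_eq_single m, Set.indicator_of_mem hx]
    · intro k _ hk
      exact Set.indicator_of_notMem (fun hc => Set.disjoint_left.1 (hE k m hk) hc hx) _
    · intro hc; exact absurd hm hc
  · apply Finset.sum_eq_zero
    intro k hk
    apply Set.indicator_of_notMem
    intro hc
    by_cases hkm : k = m
    · rw [hkm] at hk; exact hm hk
    · exact Set.disjoint_left.1 (hE k m hkm) hc hx

lemma sum_ind_not {J : Finset ℤ} {E : ℤ → Set (Fin d → ℝ)} (c : ℤ → ℝ≥0∞) {x : Fin d → ℝ}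
    (hx : ∀ m, x ∉ E m) : ∑ k ∈ J, (E k).indicator (fun _ => c k) x = 0 :=
  Finset.sum_eq_zero (fun k _ => Set.indicator_of_notMem (hx k) _)

lemma uf_meas (J : Finset ℤ) {E : ℤ → Set (Fin d → ℝ)} (hE : ∀ m, MeasurableSet (E m)) :
    Measurable (uf J E) :=
  Finset.measurable_fun_sum _ (fun m _ => measurable_const.indicator (hE m))

lemma ff_meas (p : ℝ) (J : Finset ℤ) {E : ℤ → Set (Fin d → ℝ)} (hE : ∀ m, MeasurableSet (E m)) :
    Measurable (ff p J E) :=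
  Finset.measurable_fun_sum _ (fun m _ => measurable_const.indicator (hE m))

lemma ff_mul {p q : ℝ} (hpq : p.HolderConjugate q) {J M : Finset ℤ} (hJ : J ⊆ M)
    {E : ℤ → Set (Fin d → ℝ)} (hE : ∀ m n, m ≠ n → Disjoint (E m) (E n)) (x : Fin d → ℝ) :
    ff p J E x * uf M E x ^ (1 / q) = uf J E x := by
  by_cases hx : ∃ m, x ∈ E m
  · obtain ⟨m, hm⟩ := hx
    unfold ff uf
    rw [sum_ind_mem hE _ hm, sum_ind_mem hE _ hm, sum_ind_mem hE _ hm]
    by_cases hmJ : m ∈ J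
    · rw [if_pos hmJ, if_pos (hJ hmJ), if_pos hmJ, ENNReal.ofReal_rpow_of_pos (by positivity),
        ← ENNReal.ofReal_mul (by positivity)]
      congr 1
      rw [← Real.rpow_intCast, ← Real.rpow_mul (by norm_num), ← Real.rpow_add (by norm_num)]
      congr 1
      have h1 : p⁻¹ + q⁻¹ = 1 := hpq.inv_add_inv_eq_one
      calc (m:ℝ) / p + (m:ℝ) * (1 / q) = m * (p⁻¹ + q⁻¹) := by ring
        _ = m := by rw [h1, mul_one]
    · rw [if_neg hmJ, if_neg hmJ, zero_mul]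
  · push Not at hx
    unfold ff uf
    rw [sum_ind_not _ hx, sum_ind_not _ hx, zero_mul]
    exact (sum_ind_not _ hx).symm

lemma lint_uf (J : Finset ℤ) {E : ℤ → Set (Fin d → ℝ)} (hE : ∀ m, MeasurableSet (E m))
    {A : Set (Fin d → ℝ)} (hA : MeasurableSet A) :
    ∫⁻ x in A, uf J E x = ∑ m ∈ J, ENNReal.ofReal (2 ^ m) * volume (A ∩ E m) := by
  unfold uf
  rw [lintegral_finsetSum _ (fun m _ => measurable_const.indicator (hE m))]
  apply Finset.sum_congr rfl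
  intro m _
  rw [lintegral_indicator (hE m), lintegral_const, Measure.restrict_apply MeasurableSet.univ,
    Set.univ_inter, Measure.restrict_apply (hE m), Set.inter_comm]

lemma lint_uf_fin (J : Finset ℤ) {E : ℤ → Set (Fin d → ℝ)} (hE : ∀ m, MeasurableSet (E m))
    {A : Set (Fin d → ℝ)} (hA : MeasurableSet A) (hAv : volume A < ∞) :
    ∫⁻ x in A, uf J E x < ∞ := by
  rw [lint_uf J hE hA]
  apply ENNReal.sum_lt_top.2
  intro m _
  exact ENNReal.mul_lt_top ENNReal.ofReal_lt_top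
    (lt_of_le_of_lt (measure_mono Set.inter_subset_left) hAv)

lemma tau_ff (p : ℝ) (J : Finset ℤ) (E : ℤ → Set (Fin d → ℝ)) (l : ℝ) (A : Set (Fin d → ℝ)) :
    tau l A (ff p J E) = fun y => ∑ m ∈ J, ({y | l • y ∈ A ∩ E m}).indicator
      (fun _ => ((Real.toNNReal ((2:ℝ) ^ ((m:ℝ) / p)) : ℝ≥0) : ℝ≥0∞)) y := by
  funext y
  unfold tau ff
  by_cases hy : l • y ∈ A
  · rw [Set.indicator_of_mem hy]
    apply Finset.sum_congr rfl
    intro m _
    by_cases hm : l • y ∈ E m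
    · rw [Set.indicator_of_mem hm, Set.indicator_of_mem (show y ∈ {y | l • y ∈ A ∩ E m} from ⟨hy, hm⟩)]
      rfl
    · rw [Set.indicator_of_notMem hm, Set.indicator_of_notMem (fun hc => hm hc.2)]
  · rw [Set.indicator_of_notMem hy]
    symm
    apply Finset.sum_eq_zero
    intro m _
    exact Set.indicator_of_notMem (fun hc => hy hc.1) _

/-- `h = u^{1/q}` on a region -/
noncomputable def hh (q : ℝ) (M : Finset ℤ) (E : ℤ → Set (Fin d → ℝ)) (R : Set (Fin d → ℝ))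
    (x : Fin d → ℝ) : ℝ≥0∞ := R.indicator (fun x => uf M E x ^ (1 / q)) x

lemma hh_meas (q : ℝ) (M : Finset ℤ) {E : ℤ → Set (Fin d → ℝ)} (hE : ∀ m, MeasurableSet (E m))
    {R : Set (Fin d → ℝ)} (hR : MeasurableSet R) : Measurable (hh q M E R) :=
  ((uf_meas M hE).pow_const _).indicator hR

lemma hh_int {q : ℝ} (hq : 0 < q) (M : Finset ℤ) {E : ℤ → Set (Fin d → ℝ)}
    {R : Set (Fin d → ℝ)} (hR : MeasurableSet R) :
    ∫⁻ x, hh q M E R x ^ q = ∫⁻ x in R, uf M E x := by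
  rw [← lintegral_indicator hR]
  apply lintegral_congr
  intro x
  unfold hh
  by_cases hx : x ∈ R
  · rw [Set.indicator_of_mem hx, Set.indicator_of_mem hx, ← ENNReal.rpow_mul,
      one_div_mul_cancel hq.ne', ENNReal.rpow_one]
  · rw [Set.indicator_of_notMem hx, Set.indicator_of_notMem hx, ENNReal.zero_rpow_of_pos hq]

/-- the part of the mass on the levels `J` -/
lemma mass_le (X : RINorm d) {p q : ℝ} (hpq : p.HolderConjugate q) {J M : Finset ℤ} (hJ : J ⊆ M)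
    {E : ℤ → Set (Fin d → ℝ)} (hEm : ∀ m, MeasurableSet (E m))
    (hE : ∀ m n, m ≠ n → Disjoint (E m) (E n)) (t : Fin d → Bool) (I : Idx d)
    {R : Set (Fin d → ℝ)} (hR : MeasurableSet R) (hIR : gq t I ⊆ R)
    (hfin : X.ρ (tau (2 ^ I.1) (gq t I) (ff p J E)) ≠ ∞) :
    ∫⁻ x in gq t I, uf J E x ≤ volume (gq t I) *
      (X.ρ (tau (2 ^ I.1) (gq t I) (ff p J E)) * X.assoc (tau (2 ^ I.1) (gq t I) (hh q M E R))) := by
  refine le_trans (le_of_eq ?_) (local_holder X t I (ff_meas p J hEm) (hh_meas q M hEm hR) hfin)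
  apply setLIntegral_congr_fun (gq_meas t I)
  intro x hx
  simp only [hh]
  rw [Set.indicator_of_mem (hIR hx), ff_mul hpq hJ hE]

lemma rho_mono_J (X : RINorm d) (p : ℝ) {J M : Finset ℤ} (hJ : J ⊆ M)
    {E : ℤ → Set (Fin d → ℝ)} (hEm : ∀ m, MeasurableSet (E m)) (t : Fin d → Bool) (I : Idx d) :
    X.ρ (tau (2 ^ I.1) (gq t I) (ff p J E)) ≤ X.ρ (tau (2 ^ I.1) (gq t I) (ff p M E)) := by
  apply X.mono _ _ (tau_meas (gq_meas t I) (ff_meas p J hEm))
    (tau_meas (gq_meas t I) (ff_meas p M hEm))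
  refine Filter.Eventually.of_forall (fun y => ?_)
  unfold tau
  apply Set.indicator_le_indicator
  unfold ff
  exact Finset.sum_le_sum_of_subset_of_nonneg hJ (fun _ _ _ => bot_le)

/-- budget for a family of grid cubes -/
lemma budget (X : RINorm d) {p q : ℝ} (hpq : p.HolderConjugate q) {B : ℝ≥0} (hM : X.MBound q B)
    (hB : B ≠ 0)
    {M : Finset ℤ} {E : ℤ → Set (Fin d → ℝ)} (hEm : ∀ m, MeasurableSet (E m))
    (hE : ∀ m n, m ≠ n → Disjoint (E m) (E n)) (t : Fin d → Bool) (A : Finset (Idx d))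
    (F : Idx d → Set (Fin d → ℝ)) (hFm : ∀ I ∈ A, MeasurableSet (F I))
    (hFsub : ∀ I ∈ A, F I ⊆ gq t I) (hFv : ∀ I ∈ A, volume (gq t I) ≤ 2 * volume (F I))
    (hFd : ∀ I ∈ A, ∀ J ∈ A, I ≠ J → Disjoint (F I) (F J))
    (R : Set (Fin d → ℝ)) (hR : MeasurableSet R) (hAR : ∀ I ∈ A, gq t I ⊆ R)
    (J : Idx d → Finset ℤ) (hJM : ∀ I ∈ A, J I ⊆ M)
    (hJ : ∀ I ∈ A, ∫⁻ x in gq t I, uf M E x ≤ 2 * ∫⁻ x in gq t I, uf (J I) E x)
    (hfin : ∀ I ∈ A, X.ρ (tau (2 ^ I.1) (gq t I) (ff p (J I) E)) ≠ ∞) :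
    ∑ I ∈ A, volume (gq t I) * ((∫⁻ x in gq t I, uf M E x) / volume (gq t I)) ^ q /
      ((B : ℝ≥0∞) * X.ρ (tau (2 ^ I.1) (gq t I) (ff p (J I) E))) ^ q ≤
      (2 * 2 ^ q) * ∫⁻ x in R, uf M E x := by
  have hq := hpq.symm.pos
  have h1 : ∀ I ∈ A, volume (gq t I) * ((∫⁻ x in gq t I, uf M E x) / volume (gq t I)) ^ q /
      ((B : ℝ≥0∞) * X.ρ (tau (2 ^ I.1) (gq t I) (ff p (J I) E))) ^ q ≤
      (2 ^ q * ((B : ℝ≥0∞) ^ q)⁻¹) *
        (volume (gq t I) * X.assoc (tau (2 ^ I.1) (gq t I) (hh q M E R)) ^ q) := by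
    intro I hI
    set r := X.ρ (tau (2 ^ I.1) (gq t I) (ff p (J I) E)) with hr
    set a := X.assoc (tau (2 ^ I.1) (gq t I) (hh q M E R)) with ha
    have hv := gq_vol_pos t I
    have h2 : (∫⁻ x in gq t I, uf M E x) / volume (gq t I) ≤ 2 * (r * a) := by
      apply ENNReal.div_le_of_le_mul
      calc ∫⁻ x in gq t I, uf M E x ≤ 2 * ∫⁻ x in gq t I, uf (J I) E x := hJ I hI
        _ ≤ 2 * (volume (gq t I) * (r * a)) :=
            mul_le_mul' le_rfl (mass_le X hpq (hJM I hI) hEm hE t I hR (hAR I hI) (hfin I hI))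
        _ = _ := by ring
    have h3 : ((∫⁻ x in gq t I, uf M E x) / volume (gq t I)) ^ q ≤ 2 ^ q * (r ^ q * a ^ q) := by
      refine (ENNReal.rpow_le_rpow h2 hq.le).trans (le_of_eq ?_)
      rw [ENNReal.mul_rpow_of_nonneg _ _ hq.le, ENNReal.mul_rpow_of_nonneg _ _ hq.le]
    rw [ENNReal.mul_rpow_of_nonneg _ _ hq.le]
    rw [div_eq_mul_inv]
    have hBq0 : (B : ℝ≥0∞) ^ q ≠ 0 := by
      simp [hB, hq.not_gt]
    have hBqt : (B : ℝ≥0∞) ^ q ≠ ∞ := by
      apply ENNReal.rpow_ne_top_of_nonneg hq.le ENNReal.coe_ne_top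
    by_cases hr0 : r = 0
    · rw [hr0, zero_mul, mul_zero] at h2
      have h4 : (∫⁻ x in gq t I, uf M E x) / volume (gq t I) = 0 := le_antisymm h2 bot_le
      rw [h4, ENNReal.zero_rpow_of_pos hq, mul_zero, zero_mul]
      exact bot_le
    · have hrq0 : r ^ q ≠ 0 := by
        simp [hr0, hq.not_gt]
      have hrqt : r ^ q ≠ ∞ := ENNReal.rpow_ne_top_of_nonneg hq.le (hfin I hI)
      rw [ENNReal.mul_inv (Or.inl hBq0) (Or.inl hBqt)]
      calc volume (gq t I) * ((∫⁻ x in gq t I, uf M E x) / volume (gq t I)) ^ q *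
            (((B : ℝ≥0∞) ^ q)⁻¹ * (r ^ q)⁻¹)
          ≤ volume (gq t I) * (2 ^ q * (r ^ q * a ^ q)) * (((B : ℝ≥0∞) ^ q)⁻¹ * (r ^ q)⁻¹) :=
            mul_le_mul' (mul_le_mul' le_rfl h3) le_rfl
        _ = (2 ^ q * ((B : ℝ≥0∞) ^ q)⁻¹) * (volume (gq t I) * a ^ q) * (r ^ q * (r ^ q)⁻¹) := by ring
        _ = _ := by rw [ENNReal.mul_inv_cancel hrq0 hrqt, mul_one]
  have hBq0 : (B : ℝ≥0∞) ^ q ≠ 0 := by
    simp [hB, hq.not_gt]
  have hBqt : (B : ℝ≥0∞) ^ q ≠ ∞ := by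
    apply ENNReal.rpow_ne_top_of_nonneg hq.le ENNReal.coe_ne_top
  have h5 := assoc_sum_le X hq hM t A F hFm hFsub hFv hFd (hh q M E R) (hh_meas q M hEm hR)
  rw [hh_int hq M hR] at h5
  refine (Finset.sum_le_sum h1).trans ?_
  rw [← Finset.mul_sum]
  calc (2 ^ q * ((B : ℝ≥0∞) ^ q)⁻¹) *
        ∑ I ∈ A, volume (gq t I) * X.assoc (tau (2 ^ I.1) (gq t I) (hh q M E R)) ^ q
      ≤ (2 ^ q * ((B : ℝ≥0∞) ^ q)⁻¹) * (2 * ((B : ℝ≥0∞) ^ q * ∫⁻ x in R, uf M E x)) :=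
        mul_le_mul' le_rfl h5
    _ = (2 * 2 ^ q) * (((B : ℝ≥0∞) ^ q)⁻¹ * (B : ℝ≥0∞) ^ q) * ∫⁻ x in R, uf M E x := by ring
    _ = _ := by rw [ENNReal.inv_mul_cancel hBq0 hBqt, mul_one]

lemma vol_pre_gq (t : Fin d → Bool) (I : Idx d) (A : Set (Fin d → ℝ)) :
    volume {y : Fin d → ℝ | (2:ℝ) ^ I.1 • y ∈ A} = volume A / volume (gq t I) := by
  rw [vol_pre (by positivity), gq_vol]

/-- potential bound on a grid cube -/
lemma potential_gq (hd : 0 < d) {p q : ℝ} (hpq : p.HolderConjugate q) : ∃ C : ℝ≥0, 0 < C ∧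
    ∀ (X : RINorm d) (B : ℝ≥0), X.MBound q B → ∀ (M : Finset ℤ) (E : ℤ → Set (Fin d → ℝ)),
    (∀ m, MeasurableSet (E m)) → (∀ m n, m ≠ n → Disjoint (E m) (E n)) →
    ∀ (t : Fin d → Bool) (I : Idx d),
    ∑ m ∈ M, (ENNReal.ofReal (2 ^ m) * (volume (gq t I ∩ E m) / volume (gq t I))) ^ (1 / p) ≤
      C * B * X.ρ (tau (2 ^ I.1) (gq t I) (ff p M E)) := by
  obtain ⟨C, hC⟩ := RINorm.potential hd hpq
  refine ⟨C + 1, by positivity, ?_⟩
  intro X B hM M E hEm hE t I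
  have hv := gq_vol_pos t I
  have h1 := hC X B hM M (fun m => {y | (2:ℝ) ^ I.1 • y ∈ gq t I ∩ E m})
    (fun m => smul_meas ((gq_meas t I).inter (hEm m)))
    (fun m _ n _ hmn => by
      rw [Set.disjoint_left]
      intro y hy hy'
      exact Set.disjoint_left.1 (hE m n hmn) hy.2 hy'.2) (by
      have h2 : ∀ m, volume {y : Fin d → ℝ | (2:ℝ) ^ I.1 • y ∈ gq t I ∩ E m} =
          volume (gq t I ∩ E m) / volume (gq t I) := fun m => vol_pre_gq t I _
      simp only [h2]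
      have h3 : ∑ m ∈ M, volume (gq t I ∩ E m) / volume (gq t I) =
          (∑ m ∈ M, volume (gq t I ∩ E m)) / volume (gq t I) := by
        simp only [div_eq_mul_inv]
        rw [Finset.sum_mul]
      rw [h3, ← measure_biUnion_finset (fun m _ n _ hmn => (hE m n hmn).mono
        Set.inter_subset_right Set.inter_subset_right) (fun m _ => (gq_meas t I).inter (hEm m))]
      apply ENNReal.div_le_of_le_mul
      rw [one_mul]
      exact measure_mono (Set.iUnion₂_subset (fun m _ => Set.inter_subset_left)))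
  have h4 : ∀ m, volume {y : Fin d → ℝ | (2:ℝ) ^ I.1 • y ∈ gq t I ∩ E m} =
      volume (gq t I ∩ E m) / volume (gq t I) := fun m => vol_pre_gq t I _
  simp only [h4] at h1
  rw [tau_ff]
  refine h1.trans ?_
  apply mul_le_mul' _ le_rfl
  apply mul_le_mul' _ le_rfl
  push_cast
  exact le_self_add

/-- comparison on two grid cubes -/
lemma compare_gq (hd : 0 < d) (X : RINorm d) (p : ℝ) (D : ℕ) {J M : Finset ℤ} (hJ : J ⊆ M)
    {E : ℤ → Set (Fin d → ℝ)} (hEm : ∀ m, MeasurableSet (E m))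
    (hE : ∀ m n, m ≠ n → Disjoint (E m) (E n)) (t : Fin d → Bool) (G P : Idx d)
    (h : ∀ m ∈ J, volume (gq t G ∩ E m) / volume (gq t G) ≤
      D * (volume (gq t P ∩ E m) / volume (gq t P))) :
    X.ρ (tau (2 ^ G.1) (gq t G) (ff p J E)) ≤ D * X.ρ (tau (2 ^ P.1) (gq t P) (ff p M E)) := by
  refine le_trans ?_ (mul_le_mul' le_rfl (rho_mono_J X p hJ hEm t P))
  rw [tau_ff, tau_ff]
  apply TH889.J597.RINorm.compare hd X D J _ _ _ (fun m => smul_meas ((gq_meas t G).inter (hEm m)))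
    (fun m => smul_meas ((gq_meas t P).inter (hEm m)))
  · intro m _ n _ hmn
    rw [Set.disjoint_left]
    intro y hy hy'
    exact Set.disjoint_left.1 (hE m n hmn) hy.2 hy'.2
  · intro m _ n _ hmn
    rw [Set.disjoint_left]
    intro y hy hy'
    exact Set.disjoint_left.1 (hE m n hmn) hy.2 hy'.2
  · intro m _
    rw [vol_pre_gq t P]
    exact ENNReal.div_lt_top (lt_of_le_of_lt (measure_mono Set.inter_subset_left)
      (gq_vol_pos t P).2).ne (gq_vol_pos t P).1.ne'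
  · intro m hm
    rw [vol_pre_gq t G, vol_pre_gq t P]
    exact h m hm

end Pool.Agent.TH279.RI
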