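import Pool.Agent.TH279.RI.Meas2
import Pool.Agent.H433R3.Sep13

set_option autoImplicit false
set_option linter.unusedSectionVars false
set_option linter.unusedVariables false

namespace Pool.Agent.TH279.RI

open MeasureTheory
open scoped ENNReal NNReal
open Pool.Agent.H433R3.Sep

variable {d : ℕ}

open Classical in
/-- index of a grid cube of the family -/
noncomputable def ci (t : Fin d → Bool) (S : Finset (Idx d)) (Q : Set (Fin d → ℝ)) : Idx d :=
  if h : ∃ I ∈ S, gq t I = Q then h.choose else (0, fun _ => 0)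

lemma ci_eq (hd : 0 < d) {t : Fin d → Bool} {S : Finset (Idx d)} {I : Idx d} (hI : I ∈ S) :
    ci t S (gq t I) = I := by
  have h : ∃ J ∈ S, gq t J = gq t I := ⟨I, hI, rfl⟩
  unfold ci
  rw [dif_pos h]
  exact gq_inj hd t h.choose_spec.2

open Classical in
theorem levelTest0 (hd : 0 < d) {p q : ℝ} (hpq : p.HolderConjugate q) : ∃ C : ℝ≥0,
    ∀ (X : RINorm d) (B : ℝ≥0), B ≠ 0 → X.MBound q B → ∀ (K : ℝ≥0), K ≠ 0 →
      ∀ (t : Fin d → Bool) (S : Finset (Idx d))
      (ν : Measure (Fin d → ℝ)) (M : Finset ℤ) (E : ℤ → Set (Fin d → ℝ)),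
      (∀ m, MeasurableSet (E m)) → (∀ m n, m ≠ n → Disjoint (E m) (E n)) →
      (∀ I ∈ S, 2 * volume (⋃ J ∈ {J ∈ (S : Set (Idx d)) | gq t J ⊂ gq t I}, gq t J) ≤
        volume (gq t I)) →
      (∀ I ∈ S, 0 < ν (gq t I) ∧ ν (gq t I) < ∞) →
      (∀ I ∈ S, 0 < ∫⁻ y in gq t I, uf M E y) →
      (∀ I ∈ S, X.ρ (tau (2 ^ I.1) (gq t I) (ff p M E)) *
        (ν (gq t I) / volume (gq t I)) ^ (1 / q) ≤ K) →
      ∫⁻ x, (∑ I ∈ S, (gq t I).indicator
        (fun _ => (∫⁻ y in gq t I, uf M E y) / volume (gq t I)) x) ^ q ∂ν ≤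
        C * ((B : ℝ≥0∞) * K) ^ q * ∫⁻ x in ⋃ I ∈ S, gq t I, uf M E x := by
  obtain ⟨C2, hC20, hC2⟩ := potential_gq hd hpq
  set D : ℕ := ⌈2 * CZ p q⌉₊ + 1 with hD
  refine ⟨(Cfin p q (2 * 2 ^ q) C2 D).toNNReal, ?_⟩
  intro X B hB0 hM K hK0 t S ν M E hEm hE hhalf hν hu hbump
  have hp := hpq.pos
  have hq := hpq.symm.pos
  have hBr : (0:ℝ) < B := by
    have : 0 < B := pos_iff_ne_zero.2 hB0
    exact_mod_cast this
  have hKr : (0:ℝ) < K := by
    have : 0 < K := pos_iff_ne_zero.2 hK0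
    exact_mod_cast this
  -- the laminar family of sets
  set 𝒮 : Finset (Set (Fin d → ℝ)) := S.image (gq t) with h𝒮
  have hmem : ∀ I ∈ S, gq t I ∈ 𝒮 := fun I hI => Finset.mem_image_of_mem _ hI
  have hSL : SLam 𝒮 := by
    refine ⟨?_, ?_, ?_⟩
    · intro A hA
      obtain ⟨I, _, rfl⟩ := Finset.mem_image.1 hA
      exact gq_meas t I
    · intro A hA
      obtain ⟨I, _, rfl⟩ := Finset.mem_image.1 hA
      exact gq_nonempty t I
    · intro A hA A' hA'
      obtain ⟨I, _, rfl⟩ := Finset.mem_image.1 hA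
      obtain ⟨J, _, rfl⟩ := Finset.mem_image.1 hA'
      exact gq_lam t I J
  have hvfin : ∀ x : {Q // Q ∈ 𝒮}, volume (atom 𝒮 x) < ∞ := by
    intro x
    obtain ⟨I, _, hI⟩ := Finset.mem_image.1 x.2
    refine lt_of_le_of_lt (measure_mono (fun y hy => (mem_atom.1 hy).1)) ?_
    rw [← hI]
    exact (gq_vol_pos t I).2
  have hνfin : ∀ x : {Q // Q ∈ 𝒮}, ν (atom 𝒮 x) < ∞ := by
    intro x
    obtain ⟨I, hIS, hI⟩ := Finset.mem_image.1 x.2
    refine lt_of_le_of_lt (measure_mono (fun y hy => (mem_atom.1 hy).1)) ?_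
    rw [← hI]
    exact (hν I hIS).2
  set DI : Idx d → Finset {Q // Q ∈ 𝒮} := fun I => DD 𝒮 (gq t I) with hDI
  set inv : Finset {Q // Q ∈ 𝒮} → Set (Fin d → ℝ) := fun A => ⋃ x ∈ A, (x : Set (Fin d → ℝ))
    with hinv
  set cD : Finset {Q // Q ∈ 𝒮} → Idx d := fun A => ci t S (inv A) with hcD
  have hcDI : ∀ I ∈ S, cD (DI I) = I := by
    intro I hI
    simp only [hcD, hinv, hDI]
    rw [DD_union (hmem I hI), ci_eq hd hI]
  have hDIinj : ∀ I ∈ S, ∀ J ∈ S, DI I = DI J → I = J := by
    intro I hI J hJ h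
    rw [← hcDI I hI, ← hcDI J hJ, h]
  set T : Finset (Finset {Q // Q ∈ 𝒮}) := S.image DI with hT
  -- discrete data
  set w : {Q // Q ∈ 𝒮} → ℝ := fun x => (volume (atom 𝒮 x)).toReal with hw
  set v : ℤ → {Q // Q ∈ 𝒮} → ℝ :=
    fun m x => (ENNReal.ofReal (2 ^ m) * volume (atom 𝒮 x ∩ E m)).toReal with hv
  set s : {Q // Q ∈ 𝒮} → ℝ := fun x => (ν (atom 𝒮 x)).toReal / ((B : ℝ) * K) ^ q with hs
  set ρρ : Idx d → Finset ℤ → ℝ≥0∞ := fun I J => X.ρ (tau (2 ^ I.1) (gq t I) (ff p J E)) with hρρ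
  set N : Finset {Q // Q ∈ 𝒮} → Finset ℤ → ℝ := fun A J => (B : ℝ) * (ρρ (cD A) J).toReal with hN
  have hv0 : ∀ m x, 0 ≤ v m x := fun m x => ENNReal.toReal_nonneg
  have hw0 : ∀ x, 0 ≤ w x := fun x => ENNReal.toReal_nonneg
  have hs0 : ∀ x, 0 ≤ s x := fun x => by simp only [hs]; positivity
  -- finiteness of norms
  have hρfin : ∀ I ∈ S, ∀ J ⊆ M, ρρ I J ≠ ∞ := by
    intro I hI J hJ
    have h1 : ρρ I J ≤ ρρ I M := rho_mono_J X p hJ hEm t I
    have h2 : ρρ I M ≠ ∞ := by
      intro h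
      have h3 := hbump I hI
      simp only [hρρ] at h
      rw [h, ENNReal.top_mul] at h3
      · exact absurd h3 (by simp)
      · have h4 : 0 < ν (gq t I) / volume (gq t I) :=
          ENNReal.div_pos (hν I hI).1.ne' (gq_vol_pos t I).2.ne
        exact (ENNReal.rpow_pos_of_nonneg h4 (by positivity)).ne'
    exact ne_top_of_le_ne_top h2 h1
  -- masses
  have hwD : ∀ I ∈ S, ms w (DI I) = (volume (gq t I)).toReal := fun I hI =>
    toReal_eq_sum_atom hSL volume (hmem I hI) (gq_vol_pos t I).2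
  have hνD : ∀ I ∈ S, ∑ x ∈ DI I, (ν (atom 𝒮 x)).toReal = (ν (gq t I)).toReal := fun I hI =>
    toReal_eq_sum_atom hSL ν (hmem I hI) (hν I hI).2
  have hsD : ∀ I ∈ S, ms s (DI I) = (ν (gq t I)).toReal / ((B : ℝ) * K) ^ q := by
    intro I hI
    unfold ms
    simp only [hs]
    rw [← Finset.sum_div, hνD I hI]
  have hvD : ∀ m, ∀ I ∈ S, ms (v m) (DI I) =
      (ENNReal.ofReal (2 ^ m) * volume (gq t I ∩ E m)).toReal := by
    intro m I hI
    have h1 : ∀ A : Set (Fin d → ℝ), MeasurableSet A →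
        (ENNReal.ofReal (2 ^ m) • (volume : Measure (Fin d → ℝ)).restrict (E m)) A =
        ENNReal.ofReal (2 ^ m) * volume (A ∩ E m) := by
      intro A hA
      rw [Measure.smul_apply, Measure.restrict_apply hA, smul_eq_mul]
    have h2 := toReal_eq_sum_atom hSL
      (ENNReal.ofReal (2 ^ m) • (volume : Measure (Fin d → ℝ)).restrict (E m)) (hmem I hI) (by
        rw [h1 _ (gq_meas t I)]
        exact ENNReal.mul_lt_top ENNReal.ofReal_lt_top
          (lt_of_le_of_lt (measure_mono Set.inter_subset_left) (gq_vol_pos t I).2))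
    rw [h1 _ (gq_meas t I)] at h2
    rw [← h2]
    unfold ms
    apply Finset.sum_congr rfl
    intro x _
    rw [h1 _ (atom_meas hSL x)]
  have hutx : ∀ x, ut M v x = (∫⁻ y in atom 𝒮 x, uf M E y).toReal := by
    intro x
    rw [lint_uf M hEm (atom_meas hSL x), ENNReal.toReal_sum]
    · rfl
    · intro m _
      exact ENNReal.mul_ne_top ENNReal.ofReal_ne_top
        (lt_of_le_of_lt (measure_mono Set.inter_subset_left) (hvfin x)).ne
  have hutR : ∀ R : Finset {Q // Q ∈ 𝒮}, ms (ut M v) R =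
      (∫⁻ y in ⋃ x ∈ R, atom 𝒮 x, uf M E y).toReal := by
    intro R
    rw [lintegral_biUnion_finset (fun x _ y _ hxy => atom_disj hSL hxy)
        (fun x _ => atom_meas hSL x), ENNReal.toReal_sum]
    · unfold ms
      exact Finset.sum_congr rfl (fun x _ => hutx x)
    · intro x _
      exact (lint_uf_fin M hEm (atom_meas hSL x) (hvfin x)).ne
  have hutD : ∀ I ∈ S, ms (ut M v) (DI I) = (∫⁻ y in gq t I, uf M E y).toReal := by
    intro I hI
    rw [hutR]
    have : (⋃ x ∈ DI I, atom 𝒮 x) = gq t I := (eq_biUnion_atom hSL (hmem I hI)).symm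
    rw [this]
  have hufin : ∀ I, ∫⁻ y in gq t I, uf M E y < ∞ := fun I =>
    lint_uf_fin M hEm (gq_meas t I) (gq_vol_pos t I).2
  have hwpos : ∀ I, 0 < (volume (gq t I)).toReal := fun I =>
    ENNReal.toReal_pos (gq_vol_pos t I).1.ne' (gq_vol_pos t I).2.ne
  -- mass on levels
  have hJmass : ∀ I ∈ S, ∀ J : Finset ℤ, ∑ m ∈ J, ms (v m) (DI I) =
      (∫⁻ y in gq t I, uf J E y).toReal := by
    intro I hI J
    rw [lint_uf J hEm (gq_meas t I), ENNReal.toReal_sum]
    · exact Finset.sum_congr rfl (fun m _ => hvD m I hI)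
    · intro m _
      exact ENNReal.mul_ne_top ENNReal.ofReal_ne_top
        (lt_of_le_of_lt (measure_mono Set.inter_subset_left) (gq_vol_pos t I).2).ne
  have hJcond : ∀ I ∈ S, ∀ J : Finset ℤ, ms (ut M v) (DI I) ≤ 2 * ∑ m ∈ J, ms (v m) (DI I) →
      ∫⁻ x in gq t I, uf M E x ≤ 2 * ∫⁻ x in gq t I, uf J E x := by
    intro I hI J h
    rw [hutD I hI, hJmass I hI] at h
    have hfin : 2 * ∫⁻ x in gq t I, uf J E x ≠ ∞ := ENNReal.mul_ne_top (by simp)
      (lint_uf_fin J hEm (gq_meas t I) (gq_vol_pos t I).2).ne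
    rw [← ENNReal.toReal_le_toReal (hufin I).ne hfin, ENNReal.toReal_mul]
    simpa using h
  -- the core
  have hcore : Core T M w v s N p q (2 * 2 ^ q) C2 D := by
    refine
      { hpq := hpq
        lam := ?_
        hw := hw0
        hv := hv0
        hs := hs0
        wpos := ?_
        upos := ?_
        half := ?_
        C1pos := by positivity
        C2pos := by exact_mod_cast hC20
        C3pos := by rw [hD]; positivity
        Npos := ?_
        h1 := ?_
        h2 := ?_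
        h3 := ?_
        h4 := ?_ }
    · -- lam
      constructor
      · intro A hA
        obtain ⟨I, hI, rfl⟩ := Finset.mem_image.1 hA
        exact ⟨⟨_, hmem I hI⟩, mem_DD.2 subset_rfl⟩
      · intro A hA A' hA'
        obtain ⟨I, hI, rfl⟩ := Finset.mem_image.1 hA
        obtain ⟨J, hJ, rfl⟩ := Finset.mem_image.1 hA'
        simp only [hDI]
        rw [DD_inj (hmem I hI) (hmem J hJ), DD_inj (hmem J hJ) (hmem I hI),
          DD_disj hSL (hmem I hI) (hmem J hJ)]
        exact gq_lam t I J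
    · intro A hA
      obtain ⟨I, hI, rfl⟩ := Finset.mem_image.1 hA
      rw [hwD I hI]; exact hwpos I
    · intro A hA
      obtain ⟨I, hI, rfl⟩ := Finset.mem_image.1 hA
      rw [hutD I hI]
      exact ENNReal.toReal_pos (hu I hI).ne' (hufin I).ne
    · -- half
      intro A hA
      obtain ⟨I, hI, rfl⟩ := Finset.mem_image.1 hA
      rw [hwD I hI]
      have h4 : ∑ x ∈ (T.filter (fun A => A ⊂ DI I)).biUnion id, volume (atom 𝒮 x) ≤
          volume (⋃ J ∈ {J ∈ (S : Set (Idx d)) | gq t J ⊂ gq t I}, gq t J) := by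
        rw [← measure_biUnion_finset (fun x _ y _ hxy => atom_disj hSL hxy)
          (fun x _ => atom_meas hSL x)]
        apply measure_mono
        intro y hy
        simp only [Set.mem_iUnion] at hy
        obtain ⟨x, hx, hyx⟩ := hy
        obtain ⟨A', hA', hxA⟩ := Finset.mem_biUnion.1 hx
        simp only [Finset.mem_filter] at hA'
        obtain ⟨J, hJ, rfl⟩ := Finset.mem_image.1 hA'.1
        have h7 : gq t J ⊂ gq t I := (DD_ssub (hmem J hJ) (hmem I hI)).1 hA'.2
        have hxJ : (x : Set (Fin d → ℝ)) ⊆ gq t J := mem_DD.1 hxA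
        simp only [Set.mem_iUnion]
        exact ⟨J, ⟨hJ, h7⟩, hxJ (mem_atom.1 hyx).1⟩
      have h5 := (mul_le_mul' (le_refl (2:ℝ≥0∞)) h4).trans (hhalf I hI)
      have h6 := ENNReal.toReal_mono (gq_vol_pos t I).2.ne h5
      rw [ENNReal.toReal_mul, ENNReal.toReal_sum (fun x _ => (hvfin x).ne),
        ENNReal.toReal_ofNat] at h6
      exact h6
    · -- Npos
      intro A hA J hJ hJu
      obtain ⟨I, hI, rfl⟩ := Finset.mem_image.1 hA
      simp only [hN]
      rw [hcDI I hI]
      apply mul_pos hBr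
      apply ENNReal.toReal_pos _ (hρfin I hI J hJ)
      intro h0
      have h1 := mass_le X hpq hJ hEm hE t I (gq_meas t I) subset_rfl (hρfin I hI J hJ)
      have h0' : X.ρ (tau (2 ^ I.1) (gq t I) (ff p J E)) = 0 := h0
      rw [h0', zero_mul, mul_zero] at h1
      have h2 := hJcond I hI J hJu
      have h3 : ∫⁻ x in gq t I, uf J E x = 0 := le_antisymm h1 bot_le
      rw [h3, mul_zero] at h2
      exact absurd (hu I hI) (not_lt.2 h2)
    · -- h1
      intro A hA R hR J hJ
      set A' := S.filter (fun I => DI I ∈ A) with hA'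
      have hA'S : ∀ I ∈ A', I ∈ S := fun I hI => (Finset.mem_filter.1 hI).1
      have hA'A : ∀ I ∈ A', DI I ∈ A := fun I hI => (Finset.mem_filter.1 hI).2
      have hAim : A = A'.image DI := by
        ext G
        rw [Finset.mem_image]
        constructor
        · intro hG
          obtain ⟨I, hI, rfl⟩ := Finset.mem_image.1 (hA hG)
          exact ⟨I, Finset.mem_filter.2 ⟨hI, hG⟩, rfl⟩
        · rintro ⟨I, hI, rfl⟩
          exact hA'A I hI
      have hsumeq : ∑ Q ∈ A, ms w Q * (ms (ut M v) Q / ms w Q) ^ q / N Q (J Q) ^ q =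
          ∑ I ∈ A', ms w (DI I) * (ms (ut M v) (DI I) / ms w (DI I)) ^ q / N (DI I) (J (DI I)) ^ q := by
        conv_lhs => rw [hAim]
        rw [Finset.sum_image (fun I hI J hJ h => hDIinj I (hA'S I hI) J (hA'S J hJ) h)]
      rw [hsumeq]
      set Fa : Idx d → Set (Fin d → ℝ) := fun I =>
        gq t I \ ⋃ Q ∈ 𝒮.filter (fun Q => Q ⊂ gq t I), Q with hFa
      have hFatom : ∀ I (hI : I ∈ S), Fa I = atom 𝒮 ⟨gq t I, hmem I hI⟩ := fun I hI => rfl
      have hFv : ∀ I ∈ A', volume (gq t I) ≤ 2 * volume (Fa I) := by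
        intro I hI
        have hIS := hA'S I hI
        set U := ⋃ Q ∈ 𝒮.filter (fun Q => Q ⊂ gq t I), Q with hU
        have hUm : MeasurableSet U := by
          apply Finset.measurableSet_biUnion
          intro Q hQ
          exact hSL.1 Q (Finset.mem_filter.1 hQ).1
        have hUsub : U ⊆ gq t I := by
          apply Set.iUnion₂_subset
          intro Q hQ
          exact (Finset.mem_filter.1 hQ).2.1
        have hUle : 2 * volume U ≤ volume (gq t I) := by
          refine le_trans (mul_le_mul' le_rfl (measure_mono ?_)) (hhalf I hIS)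
          apply Set.iUnion₂_subset
          intro Q hQ y hy
          obtain ⟨hQ1, hQ2⟩ := Finset.mem_filter.1 hQ
          obtain ⟨J', hJ', rfl⟩ := Finset.mem_image.1 hQ1
          exact Set.mem_iUnion₂.2 ⟨J', ⟨hJ', hQ2⟩, hy⟩
        have hUfin : volume U ≠ ∞ := (lt_of_le_of_lt (measure_mono hUsub) (gq_vol_pos t I).2).ne
        have h2 : volume (Fa I) = volume (gq t I) - volume U :=
          measure_sdiff hUsub hUm.nullMeasurableSet hUfin
        have h3 : volume (gq t I) = volume U + volume (Fa I) := by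
          rw [h2, add_tsub_cancel_of_le (measure_mono hUsub)]
        have h5 : volume U + volume U ≤ volume U + volume (Fa I) := by
          rw [← two_mul, ← h3]; exact hUle
        have h6 : volume U ≤ volume (Fa I) := (ENNReal.add_le_add_iff_left hUfin).1 h5
        rw [h3, two_mul]
        exact add_le_add h6 le_rfl
      have hreg : ∀ I ∈ A', gq t I ⊆ ⋃ x ∈ R, atom 𝒮 x := by
        intro I hI
        have h1 := eq_biUnion_atom hSL (hmem I (hA'S I hI))
        rw [h1]
        apply Set.iUnion₂_subset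
        intro x hx y hy
        exact Set.mem_iUnion₂.2 ⟨x, hR _ (hA'A I hI) hx, hy⟩
      have hRm : MeasurableSet (⋃ x ∈ R, atom 𝒮 x) :=
        Finset.measurableSet_biUnion _ (fun x _ => atom_meas hSL x)
      have hbud := budget X hpq hM hB0 hEm hE t A' Fa
        (fun I hI => by rw [hFatom I (hA'S I hI)]; exact atom_meas hSL _)
        (fun I _ => Set.sdiff_subset) hFv
        (fun I hI I' hI' hne => by
          rw [hFatom I (hA'S I hI), hFatom I' (hA'S I' hI')]
          apply atom_disj hSL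
          intro hc
          exact hne (gq_inj hd t (congrArg Subtype.val hc)))
        (⋃ x ∈ R, atom 𝒮 x) hRm hreg (fun I => J (DI I))
        (fun I hI => (hJ _ (hA'A I hI)).1)
        (fun I hI => hJcond I (hA'S I hI) _ (hJ _ (hA'A I hI)).2)
        (fun I hI => hρfin I (hA'S I hI) _ (hJ _ (hA'A I hI)).1)
      have hRfin : ∫⁻ x in ⋃ x ∈ R, atom 𝒮 x, uf M E x < ∞ := by
        apply lint_uf_fin M hEm hRm
        rw [measure_biUnion_finset (fun x _ y _ hxy => atom_disj hSL hxy)
          (fun x _ => atom_meas hSL x)]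
        exact ENNReal.sum_lt_top.2 (fun x _ => hvfin x)
      have h2q : (2 * 2 ^ q : ℝ≥0∞) ≠ ∞ :=
        ENNReal.mul_ne_top (by simp) (ENNReal.rpow_ne_top_of_nonneg hq.le (by simp))
      have hRHSfin : (2 * 2 ^ q : ℝ≥0∞) * ∫⁻ x in ⋃ x ∈ R, atom 𝒮 x, uf M E x ≠ ∞ :=
        ENNReal.mul_ne_top h2q hRfin.ne
      have hmono := ENNReal.toReal_mono hRHSfin hbud
      rw [ENNReal.toReal_mul, ENNReal.toReal_mul] at hmono
      rw [ENNReal.toReal_sum] at hmono
      · rw [hutR R]
        refine le_trans (le_of_eq ?_) (hmono.trans (le_of_eq ?_))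
        · apply Finset.sum_congr rfl
          intro I hI
          have hIS := hA'S I hI
          simp only [hN]
          rw [hcDI I hIS, hwD I hIS, hutD I hIS]
          rw [ENNReal.toReal_div, ENNReal.toReal_mul, ← ENNReal.toReal_rpow, ← ENNReal.toReal_rpow,
            ENNReal.toReal_div, ENNReal.toReal_mul]
          rfl
        · congr 2
          rw [← ENNReal.toReal_rpow]
          simp
      · intro I hI
        apply ne_top_of_le_ne_top hRHSfin
        exact (Finset.single_le_sum (f := fun I => volume (gq t I) *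
          ((∫⁻ x in gq t I, uf M E x) / volume (gq t I)) ^ q /
          ((B : ℝ≥0∞) * X.ρ (tau (2 ^ I.1) (gq t I) (ff p (J (DI I)) E))) ^ q)
          (fun _ _ => bot_le) hI).trans hbud
    · -- h2
      intro A hA
      obtain ⟨I, hI, rfl⟩ := Finset.mem_image.1 hA
      simp only [hN]
      rw [hcDI I hI, hwD I hI]
      have h1 := hC2 X B hM M E hEm hE t I
      have hvv := gq_vol_pos t I
      have h3 : ∀ m, (ENNReal.ofReal (2 ^ m) * volume (gq t I ∩ E m)) ^ (1 / p) =
          (ENNReal.ofReal (2 ^ m) * (volume (gq t I ∩ E m) / volume (gq t I))) ^ (1 / p) *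
            volume (gq t I) ^ (1 / p) := by
        intro m
        rw [← ENNReal.mul_rpow_of_nonneg _ _ (by positivity)]
        congr 1
        rw [mul_assoc, ENNReal.div_mul_cancel hvv.1.ne' hvv.2.ne]
      have h4 : ∑ m ∈ M, (ENNReal.ofReal (2 ^ m) * volume (gq t I ∩ E m)) ^ (1 / p) ≤
          (C2 * B * ρρ I M) * volume (gq t I) ^ (1 / p) := by
        rw [Finset.sum_congr rfl (fun m _ => h3 m), ← Finset.sum_mul]
        exact mul_le_mul' h1 le_rfl
      have hfin : ((C2 : ℝ≥0∞) * B * ρρ I M) * volume (gq t I) ^ (1 / p) ≠ ∞ := by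
        apply ENNReal.mul_ne_top
        · exact ENNReal.mul_ne_top (ENNReal.mul_ne_top ENNReal.coe_ne_top ENNReal.coe_ne_top)
            (hρfin I hI M subset_rfl)
        · exact ENNReal.rpow_ne_top_of_nonneg (by positivity) hvv.2.ne
      have h5 := ENNReal.toReal_mono hfin h4
      rw [ENNReal.toReal_sum, ENNReal.toReal_mul, ENNReal.toReal_mul, ENNReal.toReal_mul] at h5
      · refine le_trans (le_of_eq ?_) (h5.trans (le_of_eq ?_))
        · apply Finset.sum_congr rfl
          intro m _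
          rw [hvD m I hI, ENNReal.toReal_rpow]
        · rw [← ENNReal.toReal_rpow]
          simp only [ENNReal.coe_toReal]
          ring
      · intro m _
        apply ENNReal.rpow_ne_top_of_nonneg (by positivity)
        exact ENNReal.mul_ne_top ENNReal.ofReal_ne_top
          (lt_of_le_of_lt (measure_mono Set.inter_subset_left) hvv.2).ne
    · -- h3
      intro P' hP' G' hG' hPG J hJ hJc
      obtain ⟨P, hP, rfl⟩ := Finset.mem_image.1 hP'
      obtain ⟨G, hG, rfl⟩ := Finset.mem_image.1 hG'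
      simp only [hN]
      rw [hcDI P hP, hcDI G hG]
      have h1 : ρρ G J ≤ D * ρρ P M := by
        apply compare_gq hd X p D hJ hEm hE t G P
        intro m hm
        have h2 := hJc m hm
        rw [hvD m G hG, hvD m P hP, hwD G hG, hwD P hP, ENNReal.toReal_mul, ENNReal.toReal_mul,
          ENNReal.toReal_ofReal (by positivity)] at h2
        have hg : volume (gq t G ∩ E m) ≠ ∞ :=
          (lt_of_le_of_lt (measure_mono Set.inter_subset_left) (gq_vol_pos t G).2).ne
        have hp' : volume (gq t P ∩ E m) ≠ ∞ :=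
          (lt_of_le_of_lt (measure_mono Set.inter_subset_left) (gq_vol_pos t P).2).ne
        have hwG := hwpos G
        have hwP := hwpos P
        have h3 : (volume (gq t G ∩ E m) / volume (gq t G)) ≠ ∞ :=
          (ENNReal.div_lt_top hg (gq_vol_pos t G).1.ne').ne
        have h4 : ((D : ℝ≥0∞) * (volume (gq t P ∩ E m) / volume (gq t P))) ≠ ∞ :=
          ENNReal.mul_ne_top (by simp) (ENNReal.div_lt_top hp' (gq_vol_pos t P).1.ne').ne
        rw [← ENNReal.toReal_le_toReal h3 h4, ENNReal.toReal_mul, ENNReal.toReal_div,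
          ENNReal.toReal_div, ENNReal.toReal_natCast, ← mul_div_assoc, div_le_div_iff₀ hwG hwP]
        have hDr : 2 * CZ p q ≤ (D : ℝ) := by
          rw [hD]
          push_cast
          have := Nat.le_ceil (2 * CZ p q)
          linarith
        have h2m : (0:ℝ) < 2 ^ m := by positivity
        set g := (volume (gq t G ∩ E m)).toReal with hgdef
        set pm := (volume (gq t P ∩ E m)).toReal with hpdef
        set a := (volume (gq t G)).toReal with hadef
        set b := (volume (gq t P)).toReal with hbdef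
        have hpm0 : 0 ≤ pm := ENNReal.toReal_nonneg
        have h5 : (2:ℝ) ^ m * (g * b) ≤ 2 ^ m * ((2 * CZ p q) * (pm * a)) := by
          calc (2:ℝ) ^ m * (g * b) = 2 ^ m * g * b := by ring
            _ ≤ _ := h2
            _ = _ := by ring
        have h6 : g * b ≤ (2 * CZ p q) * (pm * a) := le_of_mul_le_mul_left h5 h2m
        calc g * b ≤ (2 * CZ p q) * (pm * a) := h6
          _ ≤ D * (pm * a) := mul_le_mul_of_nonneg_right hDr (by positivity)
          _ = _ := by ring
      have h2 := ENNReal.toReal_mono (ENNReal.mul_ne_top (by simp) (hρfin P hP M subset_rfl)) h1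
      rw [ENNReal.toReal_mul, ENNReal.toReal_natCast] at h2
      calc (B : ℝ) * (ρρ G J).toReal ≤ B * (D * (ρρ P M).toReal) :=
            mul_le_mul_of_nonneg_left h2 hBr.le
        _ = _ := by ring
    · -- h4
      intro A hA
      obtain ⟨I, hI, rfl⟩ := Finset.mem_image.1 hA
      simp only [hN]
      rw [hcDI I hI, hwD I hI, hsD I hI]
      have h1 := hbump I hI
      have hvv := gq_vol_pos t I
      have h2 := ENNReal.rpow_le_rpow h1 hq.le
      rw [ENNReal.mul_rpow_of_nonneg _ _ hq.le, ← ENNReal.rpow_mul, one_div_mul_cancel hq.ne',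
        ENNReal.rpow_one] at h2
      have h3 := ENNReal.toReal_mono (ENNReal.rpow_ne_top_of_nonneg hq.le ENNReal.coe_ne_top) h2
      rw [ENNReal.toReal_mul, ← ENNReal.toReal_rpow, ← ENNReal.toReal_rpow, ENNReal.toReal_div,
        ENNReal.coe_toReal] at h3
      have h4 : (ρρ I M).toReal ^ q * ((ν (gq t I)).toReal / (volume (gq t I)).toReal) ≤ (K:ℝ) ^ q := h3
      have hwI := hwpos I
      rw [← mul_div_assoc, div_le_iff₀ hwI] at h4
      rw [Real.mul_rpow hBr.le ENNReal.toReal_nonneg, Real.mul_rpow hBr.le hKr.le]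
      have hBq : 0 < (B:ℝ) ^ q := Real.rpow_pos_of_pos hBr _
      have hKq : 0 < (K:ℝ) ^ q := Real.rpow_pos_of_pos hKr _
      have h5 : (B:ℝ) ^ q * (ρρ I M).toReal ^ q * ((ν (gq t I)).toReal / ((B:ℝ) ^ q * (K:ℝ) ^ q)) =
          ((ρρ I M).toReal ^ q * (ν (gq t I)).toReal) / (K:ℝ) ^ q := by
        field_simp
      rw [h5, div_le_iff₀ hKq, mul_comm (volume (gq t I)).toReal]
      exact h4
  -- apply the core
  have hmain := hcore.testing
  -- transfer
  have hAx : ∀ x : {Q // Q ∈ 𝒮}, ∀ y ∈ atom 𝒮 x,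
      ∑ I ∈ S, (gq t I).indicator (fun _ => (∫⁻ y in gq t I, uf M E y) / volume (gq t I)) y =
      ENNReal.ofReal (∑ Q ∈ T with x ∈ Q, aa M w v Q) := by
    intro x y hy
    have h1 : ∑ Q ∈ T with x ∈ Q, aa M w v Q = ∑ I ∈ S, (if x ∈ DI I then aa M w v (DI I) else 0) := by
      rw [Finset.sum_filter, hT, Finset.sum_image (fun I hI J hJ h => hDIinj I hI J hJ h)]
    rw [h1, ENNReal.ofReal_sum_of_nonneg]
    · apply Finset.sum_congr rfl
      intro I hI
      by_cases hx : x ∈ DI I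
      · have hyI : y ∈ gq t I := (mem_iff_of_atom hSL hy (hmem I hI)).2 (mem_DD.1 hx)
        rw [Set.indicator_of_mem hyI, if_pos hx]
        unfold aa
        rw [hutD I hI, hwD I hI, ENNReal.ofReal_div_of_pos (hwpos I),
          ENNReal.ofReal_toReal (hufin I).ne, ENNReal.ofReal_toReal (gq_vol_pos t I).2.ne]
      · have hyI : y ∉ gq t I := fun hc => hx (mem_DD.2 ((mem_iff_of_atom hSL hy (hmem I hI)).1 hc))
        rw [Set.indicator_of_notMem hyI, if_neg hx]; simp
    · intro I hI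
      split_ifs
      · unfold aa
        rw [hutD I hI, hwD I hI]
        positivity
      · exact le_rfl
  have hAx0 : ∀ x : {Q // Q ∈ 𝒮}, 0 ≤ ∑ Q ∈ T with x ∈ Q, aa M w v Q := by
    intro x
    apply Finset.sum_nonneg
    intro Q hQ
    exact (hcore.aa_pos (Finset.mem_filter.1 hQ).1).le
  set Un : Set (Fin d → ℝ) := ⋃ x ∈ (Finset.univ : Finset {Q // Q ∈ 𝒮}), atom 𝒮 x with hUn
  have hUnm : MeasurableSet Un := Finset.measurableSet_biUnion _ (fun x _ => atom_meas hSL x)
  have hUnS : Un = ⋃ I ∈ S, gq t I := by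
    ext y
    constructor
    · intro hy
      obtain ⟨x, _, hyx⟩ := Set.mem_iUnion₂.1 hy
      obtain ⟨I, hI, hIx⟩ := Finset.mem_image.1 x.2
      refine Set.mem_iUnion₂.2 ⟨I, hI, ?_⟩
      rw [hIx]; exact (mem_atom.1 hyx).1
    · intro hy
      obtain ⟨I, hI, hyI⟩ := Set.mem_iUnion₂.1 hy
      obtain ⟨x, _, hyx⟩ := exists_atom hSL (hmem I hI) hyI
      exact Set.mem_iUnion₂.2 ⟨x, Finset.mem_univ _, hyx⟩
  have hBKq : 0 < ((B : ℝ) * K) ^ q := Real.rpow_pos_of_pos (by positivity) _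
  have hLHS : ∫⁻ x, (∑ I ∈ S, (gq t I).indicator
        (fun _ => (∫⁻ y in gq t I, uf M E y) / volume (gq t I)) x) ^ q ∂ν =
      ENNReal.ofReal (((B : ℝ) * K) ^ q * ∑ x, s x * (∑ Q ∈ T with x ∈ Q, aa M w v Q) ^ q) := by
    have h1 : ∫⁻ x, (∑ I ∈ S, (gq t I).indicator
        (fun _ => (∫⁻ y in gq t I, uf M E y) / volume (gq t I)) x) ^ q ∂ν =
        ∫⁻ x in Un, (∑ I ∈ S, (gq t I).indicator
        (fun _ => (∫⁻ y in gq t I, uf M E y) / volume (gq t I)) x) ^ q ∂ν := by
      rw [← lintegral_indicator hUnm]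
      apply lintegral_congr
      intro y
      by_cases hy : y ∈ Un
      · rw [Set.indicator_of_mem hy]
      · rw [Set.indicator_of_notMem hy, Finset.sum_eq_zero, ENNReal.zero_rpow_of_pos hq]
        intro I hI
        apply Set.indicator_of_notMem
        intro hc
        apply hy
        rw [hUnS]
        exact Set.mem_iUnion₂.2 ⟨I, hI, hc⟩
    rw [h1, hUn, lintegral_biUnion_finset (fun x _ y _ hxy => atom_disj hSL hxy)
        (fun x _ => atom_meas hSL x), Finset.mul_sum, ENNReal.ofReal_sum_of_nonneg]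
    · apply Finset.sum_congr rfl
      intro x _
      rw [setLIntegral_congr_fun (atom_meas hSL x) (g := fun _ =>
        ENNReal.ofReal (∑ Q ∈ T with x ∈ Q, aa M w v Q) ^ q) (fun y hy => by
          simp only; rw [hAx x y hy])]
      rw [lintegral_const, Measure.restrict_apply MeasurableSet.univ, Set.univ_inter,
        ENNReal.ofReal_rpow_of_nonneg (hAx0 x) hq.le]
      have h2 : ((B : ℝ) * K) ^ q * (s x * (∑ Q ∈ T with x ∈ Q, aa M w v Q) ^ q) =
          (∑ Q ∈ T with x ∈ Q, aa M w v Q) ^ q * (ν (atom 𝒮 x)).toReal := by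
        simp only [hs]
        field_simp
      rw [h2, ENNReal.ofReal_mul (Real.rpow_nonneg (hAx0 x) _), ENNReal.ofReal_toReal (hνfin x).ne]
    · intro x _
      have := hs0 x
      have := Real.rpow_nonneg (hAx0 x) q
      positivity
  rw [hLHS]
  have hUfin : ∫⁻ y in Un, uf M E y < ∞ := by
    apply lint_uf_fin M hEm hUnm
    rw [hUn, measure_biUnion_finset (fun x _ y _ hxy => atom_disj hSL hxy)
      (fun x _ => atom_meas hSL x)]
    exact ENNReal.sum_lt_top.2 (fun x _ => hvfin x)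
  have h9 : ENNReal.ofReal (((B : ℝ) * K) ^ q *
      ∑ x, s x * (∑ Q ∈ T with x ∈ Q, aa M w v Q) ^ q) ≤
      ENNReal.ofReal (((B : ℝ) * K) ^ q * (Cfin p q (2 * 2 ^ q) C2 D * (∫⁻ y in Un, uf M E y).toReal)) := by
    apply ENNReal.ofReal_le_ofReal
    apply mul_le_mul_of_nonneg_left _ hBKq.le
    rw [hUn, ← hutR Finset.univ]
    exact hmain
  refine h9.trans ?_
  rw [← hUnS, ENNReal.ofReal_mul hBKq.le]
  have h10 : ENNReal.ofReal (((B : ℝ) * K) ^ q) = ((B : ℝ≥0∞) * K) ^ q := by
    rw [← ENNReal.ofReal_rpow_of_nonneg (by positivity) hq.le, ENNReal.ofReal_mul hBr.le,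
      ENNReal.ofReal_coe_nnreal, ENNReal.ofReal_coe_nnreal]
  rw [h10]
  have h11 : ENNReal.ofReal (Cfin p q (2 * 2 ^ q) C2 D * (∫⁻ y in Un, uf M E y).toReal) ≤
      ((Cfin p q (2 * 2 ^ q) C2 D).toNNReal : ℝ≥0∞) * ∫⁻ y in Un, uf M E y := by
    rw [ENNReal.ofReal_mul' ENNReal.toReal_nonneg, ENNReal.ofReal_toReal hUfin.ne]
    exact le_rfl
  calc ((B : ℝ≥0∞) * K) ^ q * ENNReal.ofReal (Cfin p q (2 * 2 ^ q) C2 D *
        (∫⁻ y in Un, uf M E y).toReal)
      ≤ ((B : ℝ≥0∞) * K) ^ q * (((Cfin p q (2 * 2 ^ q) C2 D).toNNReal : ℝ≥0∞) *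
        ∫⁻ y in Un, uf M E y) := mul_le_mul' le_rfl h11
    _ = _ := by ring

end Pool.Agent.TH279.RI
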