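import Pool.Agent.TH279.RI.Meas3

set_option autoImplicit false
set_option linter.unusedSectionVars false
set_option linter.unusedVariables false

namespace Pool.Agent.TH279.RI

open MeasureTheory Filter Topology
open scoped ENNReal NNReal
open Pool.Agent.H433R3.Sep

variable {d : ℕ}

lemma halving_mono {t : Fin d → Bool} {S S' : Finset (Idx d)} (hS : S' ⊆ S)
    (h : ∀ I ∈ S, 2 * volume (⋃ J ∈ {J ∈ (S : Set (Idx d)) | gq t J ⊂ gq t I}, gq t J) ≤
        volume (gq t I)) :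
    ∀ I ∈ S', 2 * volume (⋃ J ∈ {J ∈ (S' : Set (Idx d)) | gq t J ⊂ gq t I}, gq t J) ≤
        volume (gq t I) := by
  intro I hI
  refine le_trans (mul_le_mul' le_rfl (measure_mono ?_)) (h I (hS hI))
  apply Set.iUnion₂_subset
  intro J hJ y hy
  exact Set.mem_iUnion₂.2 ⟨J, ⟨hS hJ.1, hJ.2⟩, hy⟩

open Classical in
/-- The testing inequality for a discretised weight. -/
theorem levelTest (hd : 0 < d) {p q : ℝ} (hpq : p.HolderConjugate q) : ∃ C : ℝ≥0,
    ∀ (X : RINorm d) (B : ℝ≥0), X.MBound q B → ∀ (K : ℝ≥0)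
      (t : Fin d → Bool) (S : Finset (Idx d))
      (ν : Measure (Fin d → ℝ)) (M : Finset ℤ) (E : ℤ → Set (Fin d → ℝ)),
      (∀ m, MeasurableSet (E m)) → (∀ m n, m ≠ n → Disjoint (E m) (E n)) →
      (∀ I ∈ S, 2 * volume (⋃ J ∈ {J ∈ (S : Set (Idx d)) | gq t J ⊂ gq t I}, gq t J) ≤
        volume (gq t I)) →
      (∀ I ∈ S, ν (gq t I) < ∞) →
      (∀ I ∈ S, X.ρ (tau (2 ^ I.1) (gq t I) (ff p M E)) *
        (ν (gq t I) / volume (gq t I)) ^ (1 / q) ≤ K) →
      ∫⁻ x, (∑ I ∈ S, (gq t I).indicator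
        (fun _ => (∫⁻ y in gq t I, uf M E y) / volume (gq t I)) x) ^ q ∂ν ≤
        C * ((B : ℝ≥0∞) * K) ^ q * ∫⁻ x in ⋃ I ∈ S, gq t I, uf M E x := by
  obtain ⟨C, hC⟩ := levelTest0 hd hpq
  obtain ⟨C2, hC20, hC2⟩ := potential_gq hd hpq
  refine ⟨C, ?_⟩
  intro X B hM K t S ν M E hEm hE hhalf hν hbump
  have hp := hpq.pos
  have hq := hpq.symm.pos
  set S0 := S.filter (fun I => 0 < ν (gq t I) ∧ 0 < ∫⁻ y in gq t I, uf M E y) with hS0
  have hS0S : S0 ⊆ S := Finset.filter_subset _ _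
  -- the integrand only sees `S0`
  have hae : ∀ᵐ x ∂ν, (∑ I ∈ S, (gq t I).indicator
        (fun _ => (∫⁻ y in gq t I, uf M E y) / volume (gq t I)) x) =
      ∑ I ∈ S0, (gq t I).indicator
        (fun _ => (∫⁻ y in gq t I, uf M E y) / volume (gq t I)) x := by
    have h0 : ∀ᵐ x ∂ν, ∀ I ∈ S, ν (gq t I) = 0 → x ∉ gq t I := by
      rw [Filter.eventually_all_finset]
      intro I _
      by_cases h : ν (gq t I) = 0
      · have : ∀ᵐ y ∂ν, y ∉ gq t I := measure_eq_zero_iff_ae_notMem.1 h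
        filter_upwards [this] with y hy _
        exact hy
      · filter_upwards with y hy
        exact absurd hy h
    filter_upwards [h0] with x hx
    symm
    apply Finset.sum_subset hS0S
    intro I hI hI0
    have h1 : ν (gq t I) = 0 ∨ ∫⁻ y in gq t I, uf M E y = 0 := by
      by_contra hcon
      push Not at hcon
      exact hI0 (Finset.mem_filter.2 ⟨hI, pos_iff_ne_zero.2 hcon.1, pos_iff_ne_zero.2 hcon.2⟩)
    rcases h1 with h1 | h1
    · exact Set.indicator_of_notMem (hx I hI h1) _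
    · rw [h1, ENNReal.zero_div]; simp
  have hLHS : ∫⁻ x, (∑ I ∈ S, (gq t I).indicator
        (fun _ => (∫⁻ y in gq t I, uf M E y) / volume (gq t I)) x) ^ q ∂ν =
      ∫⁻ x, (∑ I ∈ S0, (gq t I).indicator
        (fun _ => (∫⁻ y in gq t I, uf M E y) / volume (gq t I)) x) ^ q ∂ν := by
    apply lintegral_congr_ae
    filter_upwards [hae] with x hx
    rw [hx]
  rw [hLHS]
  rcases S0.eq_empty_or_nonempty with hne | ⟨I0, hI0⟩
  · rw [hne]
    simp [ENNReal.zero_rpow_of_pos hq]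
  obtain ⟨hI0S, hI0ν, hI0u⟩ := Finset.mem_filter.1 hI0
  have hB0 : B ≠ 0 := by
    intro hB
    have h1 := hC2 X B hM M E hEm hE t I0
    rw [hB] at h1
    simp only [ENNReal.coe_zero, mul_zero, zero_mul] at h1
    have h2 := Finset.sum_eq_zero_iff.1 (le_antisymm h1 bot_le)
    rw [lint_uf M hEm (gq_meas t I0)] at hI0u
    apply hI0u.ne'
    apply Finset.sum_eq_zero
    intro m hm
    have h3 := h2 m hm
    rw [ENNReal.rpow_eq_zero_iff] at h3
    rcases h3 with h3 | h3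
    · have h4 := h3.1
      rw [mul_eq_zero] at h4 ⊢
      rcases h4 with h4 | h4
      · exact Or.inl h4
      · right
        rw [ENNReal.div_eq_zero_iff] at h4
        rcases h4 with h4 | h4
        · exact h4
        · exact absurd h4 (gq_vol_pos t I0).2.ne
    · have : 0 < 1 / p := by positivity
      linarith [h3.2]
  have hK0 : K ≠ 0 := by
    intro hK
    have h1 := hbump I0 hI0S
    rw [hK, ENNReal.coe_zero] at h1
    have h2 := mul_eq_zero.1 (le_antisymm h1 bot_le)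
    have h4 : 0 < ν (gq t I0) / volume (gq t I0) := ENNReal.div_pos hI0ν.ne' (gq_vol_pos t I0).2.ne
    have h5 : (ν (gq t I0) / volume (gq t I0)) ^ (1 / q) ≠ 0 :=
      (ENNReal.rpow_pos_of_nonneg h4 (by positivity)).ne'
    have h6 : X.ρ (tau (2 ^ I0.1) (gq t I0) (ff p M E)) = 0 := by
      rcases h2 with h2 | h2
      · exact h2
      · exact absurd h2 h5
    have h7 := mass_le X hpq (Finset.Subset.refl M) hEm hE t I0 (gq_meas t I0) subset_rfl
      (by rw [h6]; simp)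
    rw [h6, zero_mul, mul_zero] at h7
    exact absurd hI0u (not_lt.2 h7)
  have main := hC X B hB0 hM K hK0 t S0 ν M E hEm hE (halving_mono hS0S hhalf)
    (fun I hI => ⟨(Finset.mem_filter.1 hI).2.1, hν I (hS0S hI)⟩)
    (fun I hI => (Finset.mem_filter.1 hI).2.2) (fun I hI => hbump I (hS0S hI))
  refine main.trans (mul_le_mul' le_rfl (lintegral_mono_set ?_))
  apply Set.iUnion₂_subset
  intro I hI y hy
  exact Set.mem_iUnion₂.2 ⟨I, hS0S hI, hy⟩

/-- level sets of a weight -/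
def Es (u : (Fin d → ℝ) → ℝ≥0) (m : ℤ) : Set (Fin d → ℝ) :=
  {x | (2:ℝ) ^ m ≤ (u x : ℝ) ∧ (u x : ℝ) < 2 ^ (m + 1)}

lemma Es_meas {u : (Fin d → ℝ) → ℝ≥0} (hu : Measurable u) (m : ℤ) : MeasurableSet (Es u m) := by
  have h1 : Measurable (fun x => (u x : ℝ)) := hu.coe_nnreal_real
  exact (measurableSet_le measurable_const h1).inter (measurableSet_lt h1 measurable_const)

lemma Es_disj (u : (Fin d → ℝ) → ℝ≥0) (m n : ℤ) (hmn : m ≠ n) : Disjoint (Es u m) (Es u n) := by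
  rw [Set.disjoint_left]
  intro x hx hx'
  have key : ∀ a b : ℤ, x ∈ Es u a → x ∈ Es u b → a ≤ b := by
    intro a b ha hb
    by_contra hcon
    push Not at hcon
    have h1 : (2:ℝ) ^ (b + 1) ≤ 2 ^ a := zpow_le_zpow_right₀ (by norm_num) hcon
    linarith [ha.1, hb.2]
  exact hmn (le_antisymm (key m n hx hx') (key n m hx' hx))

lemma uf_le (u : (Fin d → ℝ) → ℝ≥0) (M : Finset ℤ) (x : Fin d → ℝ) :
    uf M (Es u) x ≤ (u x : ℝ≥0∞) := by
  by_cases hx : ∃ m, x ∈ Es u m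
  · obtain ⟨m, hm⟩ := hx
    unfold uf
    rw [sum_ind_mem (Es_disj u) _ hm]
    split_ifs
    · rw [← ENNReal.ofReal_coe_nnreal]
      exact ENNReal.ofReal_le_ofReal hm.1
    · exact bot_le
  · push Not at hx
    unfold uf
    rw [sum_ind_not _ hx]
    exact bot_le

lemma ff_le {p : ℝ} (hp : 0 < p) (u : (Fin d → ℝ) → ℝ≥0) (M : Finset ℤ) (x : Fin d → ℝ) :
    ff p M (Es u) x ≤ (u x : ℝ≥0∞) ^ (1 / p) := by
  by_cases hx : ∃ m, x ∈ Es u m
  · obtain ⟨m, hm⟩ := hx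
    unfold ff
    rw [sum_ind_mem (Es_disj u) _ hm]
    split_ifs
    · have h1 : (2:ℝ) ^ ((m:ℝ) / p) = ((2:ℝ) ^ m) ^ (1 / p) := by
        rw [← Real.rpow_intCast, ← Real.rpow_mul (by norm_num)]
        congr 1; ring
      rw [h1, ← ENNReal.ofReal_rpow_of_pos (by positivity)]
      apply ENNReal.rpow_le_rpow _ (by positivity)
      rw [← ENNReal.ofReal_coe_nnreal]
      exact ENNReal.ofReal_le_ofReal hm.1
    · exact bot_le
  · push Not at hx
    unfold ff
    rw [sum_ind_not _ hx]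
    exact bot_le

lemma uf_mono (E : ℤ → Set (Fin d → ℝ)) {M M' : Finset ℤ} (h : M ⊆ M') (x : Fin d → ℝ) :
    uf M E x ≤ uf M' E x := by
  unfold uf
  exact Finset.sum_le_sum_of_subset_of_nonneg h (fun _ _ _ => bot_le)

lemma le_sup_uf (u : (Fin d → ℝ) → ℝ≥0) (x : Fin d → ℝ) :
    (u x : ℝ≥0∞) ≤ 2 * ⨆ n : ℕ, uf (Finset.Icc (-(n:ℤ)) n) (Es u) x := by
  by_cases h0 : u x = 0
  · rw [h0]; simp
  · have hpos : (0:ℝ) < u x := by
      have : 0 < u x := pos_iff_ne_zero.2 h0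
      exact_mod_cast this
    set m := Int.log 2 (u x : ℝ) with hm
    have hm1 : (2:ℝ) ^ m ≤ u x := by
      have := Int.zpow_log_le_self (b := 2) (by norm_num) hpos
      push_cast at this
      exact this
    have hm2 : (u x : ℝ) < 2 ^ (m + 1) := by
      have := Int.lt_zpow_succ_log_self (b := 2) (by norm_num) (u x : ℝ)
      push_cast at this
      exact this
    have hx : x ∈ Es u m := ⟨hm1, hm2⟩
    have hmem : m ∈ Finset.Icc (-((m.natAbs : ℕ):ℤ)) (m.natAbs : ℕ) := by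
      rw [Finset.mem_Icc]; omega
    have h1 : uf (Finset.Icc (-((m.natAbs : ℕ):ℤ)) (m.natAbs : ℕ)) (Es u) x =
        ENNReal.ofReal (2 ^ m) := by
      unfold uf
      rw [sum_ind_mem (Es_disj u) _ hx, if_pos hmem]
    have h2 : (u x : ℝ≥0∞) ≤ 2 * ENNReal.ofReal (2 ^ m) := by
      have e : (2:ℝ≥0∞) = ENNReal.ofReal 2 := by norm_num
      rw [e, ← ENNReal.ofReal_mul (by norm_num), ← ENNReal.ofReal_coe_nnreal]
      apply ENNReal.ofReal_le_ofReal
      rw [zpow_add₀ (by norm_num), zpow_one] at hm2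
      linarith
    refine h2.trans (mul_le_mul' le_rfl ?_)
    rw [← h1]
    exact le_iSup (fun n : ℕ => uf (Finset.Icc (-(n:ℤ)) n) (Es u) x) m.natAbs

lemma Icc_mono' {n m : ℕ} (h : n ≤ m) : Finset.Icc (-(n:ℤ)) n ⊆ Finset.Icc (-(m:ℤ)) m :=
  Finset.Icc_subset_Icc (by omega) (by omega)

/-- **The testing inequality** for a halving family of grid cubes. -/
theorem mainTest (hd : 0 < d) {p q : ℝ} (hpq : p.HolderConjugate q) : ∃ C : ℝ≥0,
    ∀ (X : RINorm d) (B : ℝ≥0), X.MBound q B → ∀ (K : ℝ≥0)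
      (t : Fin d → Bool) (S : Finset (Idx d))
      (ν : Measure (Fin d → ℝ)) (u : (Fin d → ℝ) → ℝ≥0), Measurable u →
      (∀ I ∈ S, 2 * volume (⋃ J ∈ {J ∈ (S : Set (Idx d)) | gq t J ⊂ gq t I}, gq t J) ≤
        volume (gq t I)) →
      (∀ I ∈ S, ν (gq t I) < ∞) →
      (∀ I ∈ S, X.ρ (tau (2 ^ I.1) (gq t I) (fun x => (u x : ℝ≥0∞) ^ (1 / p))) *
        (ν (gq t I) / volume (gq t I)) ^ (1 / q) ≤ K) →
      ∫⁻ x, (∑ I ∈ S, (gq t I).indicator
        (fun _ => (∫⁻ y in gq t I, (u y : ℝ≥0∞)) / volume (gq t I)) x) ^ q ∂ν ≤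
        C * ((B : ℝ≥0∞) * K) ^ q * ∫⁻ x in ⋃ I ∈ S, gq t I, (u x : ℝ≥0∞) := by
  obtain ⟨C, hC⟩ := levelTest hd hpq
  have hq := hpq.symm.pos
  have hp := hpq.pos
  have h2q : (2:ℝ≥0∞) ^ q ≠ ∞ := ENNReal.rpow_ne_top_of_nonneg hq.le (by simp)
  refine ⟨((2:ℝ≥0∞) ^ q).toNNReal * C, ?_⟩
  intro X B hM K t S ν u hu hhalf hν hbump
  set Mn : ℕ → Finset ℤ := fun n => Finset.Icc (-(n:ℤ)) n with hMn
  set F : ℕ → (Fin d → ℝ) → ℝ≥0∞ := fun n x => ∑ I ∈ S, (gq t I).indicator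
    (fun _ => (∫⁻ y in gq t I, uf (Mn n) (Es u) y) / volume (gq t I)) x with hF
  have hum : Measurable (fun x => (u x : ℝ≥0∞)) := hu.coe_nnreal_ennreal
  have hFmeas : ∀ n, Measurable (F n) := fun n =>
    Finset.measurable_fun_sum _ (fun I _ => measurable_const.indicator (gq_meas t I))
  have hFterm : ∀ I x, Monotone (fun n => (gq t I).indicator
    (fun _ => (∫⁻ y in gq t I, uf (Mn n) (Es u) y) / volume (gq t I)) x) := by
    intro I x n m hnm
    apply Set.indicator_le_indicator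
    apply ENNReal.div_le_div_right
    exact lintegral_mono (fun y => uf_mono _ (Icc_mono' hnm) y)
  have hFmono : ∀ x, Monotone (fun n => F n x) := by
    intro x n m hnm
    exact Finset.sum_le_sum (fun I _ => hFterm I x hnm)
  have hlim : ∀ I, ∫⁻ y in gq t I, (u y : ℝ≥0∞) ≤ 2 * ⨆ n, ∫⁻ y in gq t I, uf (Mn n) (Es u) y := by
    intro I
    calc ∫⁻ y in gq t I, (u y : ℝ≥0∞) ≤ ∫⁻ y in gq t I, 2 * ⨆ n : ℕ, uf (Mn n) (Es u) y :=
          lintegral_mono (fun y => le_sup_uf u y)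
      _ = 2 * ⨆ n, ∫⁻ y in gq t I, uf (Mn n) (Es u) y := by
          rw [lintegral_const_mul _ (Measurable.iSup (fun n => uf_meas _ (Es_meas hu))),
            lintegral_iSup (fun n => uf_meas _ (Es_meas hu))
              (fun n m hnm y => uf_mono _ (Icc_mono' hnm) y)]
  have hpt : ∀ x, ∑ I ∈ S, (gq t I).indicator
        (fun _ => (∫⁻ y in gq t I, (u y : ℝ≥0∞)) / volume (gq t I)) x ≤ 2 * ⨆ n, F n x := by
    intro x
    have h1 : ⨆ n, F n x = ∑ I ∈ S, ⨆ n, (gq t I).indicator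
        (fun _ => (∫⁻ y in gq t I, uf (Mn n) (Es u) y) / volume (gq t I)) x := by
      simp only [hF]
      exact (ENNReal.finsetSum_iSup_of_monotone (fun I => hFterm I x)).symm
    rw [h1, Finset.mul_sum]
    apply Finset.sum_le_sum
    intro I _
    by_cases hx : x ∈ gq t I
    · simp only [Set.indicator_of_mem hx]
      calc (∫⁻ y in gq t I, (u y : ℝ≥0∞)) / volume (gq t I)
          ≤ (2 * ⨆ n, ∫⁻ y in gq t I, uf (Mn n) (Es u) y) / volume (gq t I) :=
            ENNReal.div_le_div_right (hlim I) _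
        _ = 2 * ⨆ n, (∫⁻ y in gq t I, uf (Mn n) (Es u) y) / volume (gq t I) := by
            rw [mul_div_assoc, ENNReal.iSup_div]
    · rw [Set.indicator_of_notMem hx]; exact bot_le
  have hbound : ∀ n, ∫⁻ x, F n x ^ q ∂ν ≤ C * ((B : ℝ≥0∞) * K) ^ q *
      ∫⁻ x in ⋃ I ∈ S, gq t I, (u x : ℝ≥0∞) := by
    intro n
    have h1 := hC X B hM K t S ν (Mn n) (Es u) (Es_meas hu) (Es_disj u) hhalf hν (by
      intro I hI
      refine le_trans (mul_le_mul' ?_ le_rfl) (hbump I hI)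
      apply X.mono _ _ (tau_meas (gq_meas t I) (ff_meas p _ (Es_meas hu)))
        (tau_meas (gq_meas t I) (hum.pow_const _))
      refine Eventually.of_forall (fun y => ?_)
      unfold tau
      apply Set.indicator_le_indicator
      exact ff_le hp u _ _)
    exact h1.trans (mul_le_mul' le_rfl (lintegral_mono (fun y => uf_le u _ y)))
  calc ∫⁻ x, (∑ I ∈ S, (gq t I).indicator
        (fun _ => (∫⁻ y in gq t I, (u y : ℝ≥0∞)) / volume (gq t I)) x) ^ q ∂ν
      ≤ ∫⁻ x, 2 ^ q * ⨆ n, F n x ^ q ∂ν := by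
        apply lintegral_mono
        intro x
        show (∑ I ∈ S, (gq t I).indicator
          (fun _ => (∫⁻ y in gq t I, (u y : ℝ≥0∞)) / volume (gq t I)) x) ^ q ≤
          2 ^ q * ⨆ n, F n x ^ q
        refine (ENNReal.rpow_le_rpow (hpt x) hq.le).trans (le_of_eq ?_)
        rw [ENNReal.mul_rpow_of_nonneg _ _ hq.le]
        congr 1
        exact (ENNReal.orderIsoRpow q hq).map_iSup (fun n => F n x)
    _ = 2 ^ q * ⨆ n, ∫⁻ x, F n x ^ q ∂ν := by
        rw [lintegral_const_mul _ (Measurable.iSup (fun n => (hFmeas n).pow_const q)),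
          lintegral_iSup (fun n => (hFmeas n).pow_const q)
            (fun n m hnm x => ENNReal.rpow_le_rpow (hFmono x hnm) hq.le)]
    _ ≤ 2 ^ q * (C * ((B : ℝ≥0∞) * K) ^ q * ∫⁻ x in ⋃ I ∈ S, gq t I, (u x : ℝ≥0∞)) :=
        mul_le_mul' le_rfl (iSup_le hbound)
    _ = _ := by
        push_cast
        rw [ENNReal.coe_toNNReal h2q]
        ring

end Pool.Agent.TH279.RI
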